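import Pool.Agent.Lib.MP_783f50_lc.Force

/-! The supercompactness measure, in the form used for the Levy collapse. -/

namespace Pool.Agent.Lib.MP_783f50_lc

open Pool.Agent.Lib.MP_2739cb_lc Cardinal Set Filter

universe u v

/-- Every function choosing an element of `T x` almost everywhere is almost everywhere constant. -/
def Regr {Ω : Type u} (U : Filter Ω) {α : Type v} (T : Ω → Set α) : Prop :=
  ∀ f : Ω → α, (∀ᶠ x in U, f x ∈ T x) → ∃ a, ∀ᶠ x in U, f x = a

theorem Regr.ctbl {Ω : Type u} {U : Ultrafilter Ω} [CountableInterFilter (U : Filter Ω)]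
    {α : Type v} {T : Ω → Set α} (h : Regr U T) :
    Regr U fun x => {c : Set α | c.Countable ∧ c ⊆ T x} := by
  intro c hc
  by_cases h0 : ∀ᶠ x in U, c x = ∅
  · exact ⟨∅, h0⟩
  have h1 : ∀ᶠ x in U, (c x).Countable ∧ c x ⊆ T x ∧ (c x).Nonempty :=
    (hc.and (Ultrafilter.eventually_not.2 h0)).mono fun x hx =>
      ⟨hx.1.1, hx.1.2, nonempty_iff_ne_empty.2 hx.2⟩
  obtain ⟨x0, -, -, a0, -⟩ := h1.exists
  have h2 : ∀ x, ∃ e : ℕ → α, (c x).Countable → (c x).Nonempty → c x = range e := fun x => by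
    by_cases h3 : (c x).Countable ∧ (c x).Nonempty
    · obtain ⟨e, he⟩ := h3.1.exists_eq_range h3.2
      exact ⟨e, fun _ _ => he⟩
    · exact ⟨fun _ => a0, fun h4 h5 => absurd ⟨h4, h5⟩ h3⟩
  choose e he using h2
  choose a ha using fun n => h (fun x => e x n) (h1.mono fun x hx =>
    hx.2.1 (by rw [he x hx.1 hx.2.2]; exact mem_range_self n))
  refine ⟨range a, (h1.and (eventually_countable_forall.2 ha)).mono fun x hx => ?_⟩
  rw [he x hx.1.1 hx.1.2.2, funext hx.2]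

structure Meas (K I : Type u) [LinearOrder K] where
  Ω : Type u
  U : Ultrafilter Ω
  X : Ω → Set K
  Y : Ω → Set I
  k : Ω → K
  e : Ω → K → I
  cc : CountableInterFilter (U : Filter Ω)
  fX : ∀ k, ∀ᶠ x in U, k ∈ X x
  fY : ∀ i, ∀ᶠ x in U, i ∈ Y x
  rX : Regr U fun x => {t : K × W1.{u} × K | t.1 ∈ X x ∧ t.2.2 ≤ t.1}
  rY : Regr U Y
  kX : ∀ x, k x ∉ X x
  eY : ∀ᶠ x in U, ∀ j, e x j ∈ Y x
  eS : ∀ x, ∀ i ∈ Y x, ∃ j, j ≤ k x ∧ e x j = i

theorem ae_const {Ω : Type u} {U : Ultrafilter Ω} {κ : Cardinal.{u}}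
    [CardinalInterFilter (U : Filter Ω) κ] {α : Type u} (f : Ω → α) {S : Set α} (hS : #S < κ)
    (hf : ∀ᶠ x in U, f x ∈ S) : ∃ a, ∀ᶠ x in U, f x = a := by
  by_contra hc
  have h1 : ∀ᶠ x in U, ∀ a ∈ S, ¬ f x = a := (eventually_cardinal_ball hS).2 fun a _ =>
    Ultrafilter.eventually_not.2 fun h => hc ⟨a, h⟩
  obtain ⟨x, hx1, hx2⟩ := (hf.and h1).exists
  exact hx2 _ hx1 rfl

theorem exists_meas {κ : Cardinal.{u}} (hκ : IsSupercompact κ) (I : Type u) [Nonempty I] :
    Nonempty (Meas κ.ord.ToType I) := by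
  classical
  let K := κ.ord.ToType
  have hK : #K = κ := by simp [K]
  obtain ⟨W, h1, h2, h3⟩ := hκ.2 (K ⊕ I) (by rw [mk_sum]; simp [hK])
  let Ω := {x : Set (K ⊕ I) // #x < κ}
  have cI : CardinalInterFilter (W : Filter Ω) κ := ⟨h1⟩
  have cc : CountableInterFilter (W : Filter Ω) :=
    CardinalInterFilter.toCountableInterFilter _ hκ.1
  let X : Ω → Set K := fun x => Sum.inl ⁻¹' x.1
  let Y : Ω → Set I := fun x => Sum.inr ⁻¹' x.1
  have hX : ∀ x, #(X x) < κ := fun x =>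
    (mk_preimage_of_injective _ _ Sum.inl_injective).trans_lt x.2
  have hY : ∀ x, #(Y x) < κ := fun x =>
    (mk_preimage_of_injective _ _ Sum.inr_injective).trans_lt x.2
  have hio : ∀ k : K, #(Iio k) < κ := fun k => by simpa [hK] using mk_Iio_lt k (by simp [K])
  have hic : ∀ k : K, #(Iic k) < κ := fun k => by
    rw [← Iio_insert]
    exact mk_insert_le.trans_lt (add_lt_of_lt hκ.1.le (hio k) (one_lt_aleph0.trans hκ.1))
  have hout : ∀ S : Set K, #S < κ → ∃ k, k ∉ S := fun S hS => by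
    by_contra hc
    push Not at hc
    rw [eq_univ_of_forall hc, mk_univ, hK] at hS
    exact lt_irrefl _ hS
  have rX0 : Regr W X := fun f hf => by
    obtain ⟨a, ha⟩ := h3 (fun x => Sum.inl (f x)) hf
    obtain ⟨x0, hx0⟩ := Ultrafilter.nonempty_of_mem ha
    exact ⟨f x0, Filter.mem_of_superset ha fun x hx =>
      Sum.inl_injective ((hx : _ = a).trans (hx0 : _ = a).symm)⟩
  have rY : Regr W Y := fun f hf => by
    obtain ⟨a, ha⟩ := h3 (fun x => Sum.inr (f x)) hf
    obtain ⟨x0, hx0⟩ := Ultrafilter.nonempty_of_mem ha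
    exact ⟨f x0, Filter.mem_of_superset ha fun x hx =>
      Sum.inr_injective ((hx : _ = a).trans (hx0 : _ = a).symm)⟩
  have h11 : ℵ₁ < κ := by
    refine (Order.succ_le_of_lt hκ.1).trans_eq' succ_aleph0 |>.lt_of_ne fun h => ?_
    obtain ⟨g⟩ : Nonempty (K ↪ ULift.{u} (ℕ → Bool)) := by
      rw [← Cardinal.le_def, hK, ← h]
      simpa using aleph_one_le_continuum
    choose s hs using fun x => hout (X x) (hX x)
    choose b hb using fun n => ae_const (U := W) (κ := κ) (fun x => g (s x) |>.down n |> ULift.up)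
      (S := univ) ((lt_aleph0_of_finite _).trans hκ.1) (Eventually.of_forall fun _ => trivial)
    have h4 := eventually_countable_forall.2 hb
    obtain ⟨x0, hx0⟩ := h4.exists
    obtain ⟨x, hx1, hx2⟩ := (h4.and (h2 (Sum.inl (s x0)))).exists
    have : s x = s x0 := g.injective (ULift.ext _ _ (funext fun n =>
      ULift.up_injective ((hx1 n).trans (hx0 n).symm)))
    exact hs x (this ▸ hx2)
  have big : ∀ x, ∃ k, k ∉ X x ∧ ∃ e : K → I, ((Y x).Nonempty → ∀ j, e j ∈ Y x) ∧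
      ∀ i ∈ Y x, ∃ j, j ≤ k ∧ e j = i := fun x => by
    obtain ⟨k0, hk0⟩ := Ordinal.typein_surj (α := K) (· < ·) (o := (#(Y x)).ord)
      (by simpa [K] using hY x)
    have h4 : #(Iio k0) = #(Y x) := by
      have := Ordinal.card_typein (r := ((· < ·) : K → K → Prop)) k0
      rw [hk0, card_ord] at this
      exact this.symm
    obtain ⟨k, hk⟩ := hout (X x ∪ Iio k0)
      ((mk_union_le _ _).trans_lt (add_lt_of_lt hκ.1.le (hX x) (hio k0)))
    obtain ⟨g⟩ := Cardinal.eq.1 h4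
    refine ⟨k, fun h => hk (Or.inl h), fun j => if h : j ∈ Iio k0 then g ⟨j, h⟩ else
      if h : (Y x).Nonempty then h.some else Classical.arbitrary I, fun h j => ?_, fun i hi => ?_⟩
    · by_cases h5 : j ∈ Iio k0
      · beta_reduce; rw [dif_pos h5]; exact (g _).2
      · beta_reduce; rw [dif_neg h5, dif_pos h]; exact h.some_mem
    · refine ⟨g.symm ⟨i, hi⟩, (g.symm ⟨i, hi⟩).2.le.trans (not_lt.1 fun h => hk (Or.inr h)), ?_⟩
      beta_reduce
      rw [dif_pos (g.symm ⟨i, hi⟩).2]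
      simp
  choose k hk e he1 he2 using big
  refine ⟨⟨Ω, W, X, Y, k, e, cc, fun k => h2 _, fun i => h2 _, fun f hf => ?_, rY, hk,
    Filter.mem_of_superset (h2 (Sum.inr (Classical.arbitrary I))) fun x hx => he1 x ⟨_, hx⟩, he2⟩⟩
  obtain ⟨a, ha⟩ := rX0 (fun x => (f x).1) (hf.mono fun x hx => hx.1)
  obtain ⟨b, hb⟩ := ae_const (U := W) (κ := κ) (fun x => (f x).2.1) (S := univ)
    (by simpa using h11) (Eventually.of_forall fun _ => trivial)
  obtain ⟨c, hc⟩ := ae_const (U := W) (κ := κ) (fun x => (f x).2.2) (hic a)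
    ((hf.and ha).mono fun x hx => hx.1.2.trans hx.2.le)
  exact ⟨(a, b, c), (ha.and (hb.and hc)).mono fun x hx =>
    Prod.ext hx.1 (Prod.ext hx.2.1 hx.2.2)⟩

end Pool.Agent.Lib.MP_783f50_lc
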