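import Pool.Agent.Lib.MP_783f50_lc.Definable
import Pool.Agent.Lib.MP_2739cb_lc.Ords

/-! Elementary set theory inside a model of ZFC. -/

namespace Pool.Agent.Lib.MP_783f50_lc

open Pool.Agent.Lib.MP_2739cb_lc

set_option synthInstance.maxSize 100000

universe v

/-- `Z` is covered by the values of a single-valued relation on `w`. -/
def Cov {M : Type v} (E : M → M → Prop) (w Z : M) : Prop :=
  ∃ f, (∀ n b b', App E f n b → App E f n b' → b = b') ∧ ∀ z, E z Z → ∃ n, E n w ∧ App E f n z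

/-- A model of ZFC with its first two infinite cardinals and two consequences of choice. -/
class ZM (M : Type v) extends Membership M M where
  zfc : IsZFC (EE M)
  w : M
  w1 : M
  hw : IsOmega (EE M) w
  hw1 : IsOrd (EE M) w1 ∧ ¬ Cov (EE M) w w1 ∧ ∀ a, a ∈ w1 → Cov (EE M) w a
  clique : ∀ X R : M, ∃ C, Sub (EE M) C X ∧ (∀ a b, a ∈ C → b ∈ C → App (EE M) R a b) ∧
    ∀ a, a ∈ X → App (EE M) R a a → (∀ b, b ∈ C → App (EE M) R a b ∧ App (EE M) R b a) → a ∈ C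
  cunion : ∀ Y U : M, Cov (EE M) w Y → (∀ y, y ∈ Y → Cov (EE M) w y) →
    (∀ z, z ∈ U → ∃ y, y ∈ Y ∧ z ∈ y) → Cov (EE M) w U

variable {M : Type v} [ZM M]

open Classical in
noncomputable def mkS (P : M → Prop) : M :=
  if h : ∃ s : M, ∀ z, z ∈ s ↔ P z then h.choose else ZM.w

theorem mem_mkS {P : M → Prop} (h : ∃ s : M, ∀ z, z ∈ s ↔ P z) (z : M) : z ∈ mkS P ↔ P z := by
  rw [mkS, dif_pos h]; exact h.choose_spec z

theorem zext {a b : M} (h : ∀ z, z ∈ a ↔ z ∈ b) : a = b := ZM.zfc.extensionality a b h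

theorem zext_iff {a b : M} : a = b ↔ ∀ z, z ∈ a ↔ z ∈ b := ⟨fun h _ => h ▸ Iff.rfl, zext⟩

instance : HasSubset M := ⟨fun a b => ∀ z, z ∈ a → z ∈ b⟩

theorem sub_def {a b : M} : a ⊆ b ↔ ∀ z, z ∈ a → z ∈ b := Iff.rfl

theorem sub_refl (a : M) : a ⊆ a := fun _ h => h

theorem sub_trans {a b c : M} (h1 : a ⊆ b) (h2 : b ⊆ c) : a ⊆ c := fun z h => h2 z (h1 z h)

theorem sub_antisymm {a b : M} (h1 : a ⊆ b) (h2 : b ⊆ a) : a = b :=
  zext fun z => ⟨h1 z, h2 z⟩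

section Inst

variable {α : Type v} [Ctx M α]

instance DP.sub (s t : α → M) [DF M s] [DF M t] : DP M (no_index fun x => s x ⊆ t x) :=
  have : DP M fun z : M × M => z.1 ⊆ z.2 := by simp only [sub_def]; infer_instance
  DP.comp (fun z : M × M => z.1 ⊆ z.2) fun x => (s x, t x)

theorem DF.of_mem (f : α → M) (Q : α → M → Prop) [DP M fun z : α × M => Q z.1 z.2]
    (h : ∀ x t, t ∈ f x ↔ Q x t) : DF M f := by
  refine DF.of_graph ?_
  have h1 : DP M fun z : (α × M) × M => Q z.1.1 z.2 :=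
    DP.comp (fun z : α × M => Q z.1 z.2) fun z : (α × M) × M => (z.1.1, z.2)
  have h2 : DP M fun z : α × M => ∀ t, t ∈ z.2 ↔ Q z.1 t := inferInstance
  exact h2.congr fun z => by rw [zext_iff]; simp only [h]

end Inst

/-! ### Operations -/

noncomputable def sep (A : M) (P : M → Prop) : M := mkS fun z => z ∈ A ∧ P z

@[simp] theorem mem_sep {A : M} {P : M → Prop} [DP M P] {z : M} : z ∈ sep A P ↔ z ∈ A ∧ P z := by
  obtain ⟨φ, v, h⟩ := DP.sat₁ A P
  obtain ⟨s, hs⟩ := ZM.zfc.separation φ v A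
  exact mem_mkS ⟨s, fun z => by rw [h]; exact hs z⟩ z

theorem exists_sep (A : M) (P : M → Prop) [DP M P] : ∃ s : M, ∀ z, z ∈ s ↔ z ∈ A ∧ P z :=
  ⟨sep A P, fun _ => mem_sep⟩

noncomputable instance : EmptyCollection M := ⟨mkS fun _ => False⟩

@[simp] theorem not_mem_empty (z : M) : z ∉ (∅ : M) := by
  obtain ⟨s, hs⟩ := exists_sep (ZM.w : M) fun _ => False
  exact (mem_mkS (P := fun _ => False) ⟨s, fun z => by simp [hs]⟩ z).1

theorem eq_empty {a : M} (h : ∀ z, z ∉ a) : a = ∅ := zext fun z => by simp [h z]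

theorem empty_or (a : M) : a = ∅ ∨ ∃ z, z ∈ a := by
  by_cases h : ∃ z, z ∈ a
  · exact Or.inr h
  · exact Or.inl (eq_empty fun z hz => h ⟨z, hz⟩)

noncomputable def sU (a : M) : M := mkS fun z => ∃ y, y ∈ a ∧ z ∈ y

@[simp] theorem mem_sU {a z : M} : z ∈ sU a ↔ ∃ y, y ∈ a ∧ z ∈ y :=
  mem_mkS (ZM.zfc.union a) z

noncomputable def pw (a : M) : M := mkS fun z => z ⊆ a

@[simp] theorem mem_pw {a z : M} : z ∈ pw a ↔ z ⊆ a := mem_mkS (ZM.zfc.powerset a) z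

noncomputable def upair (a b : M) : M := mkS fun z => z = a ∨ z = b

@[simp] theorem mem_upair {a b z : M} : z ∈ upair a b ↔ z = a ∨ z = b :=
  mem_mkS (ZM.zfc.pairing a b) z

noncomputable instance : Singleton M M := ⟨fun a => upair a a⟩

@[simp] theorem mem_single {a z : M} : z ∈ ({a} : M) ↔ z = a :=
  mem_upair.trans (or_self_iff)

noncomputable instance : Union M := ⟨fun a b => sU (upair a b)⟩

@[simp] theorem mem_union {a b z : M} : z ∈ a ∪ b ↔ z ∈ a ∨ z ∈ b := by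
  change z ∈ sU (upair a b) ↔ _
  simp

noncomputable instance : Inter M := ⟨fun a b => sep a fun z => z ∈ b⟩

@[simp] theorem mem_inter {a b z : M} : z ∈ a ∩ b ↔ z ∈ a ∧ z ∈ b := mem_sep

noncomputable instance : SDiff M := ⟨fun a b => sep a fun z => z ∉ b⟩

@[simp] theorem mem_diff {a b z : M} : z ∈ a \ b ↔ z ∈ a ∧ z ∉ b := mem_sep

noncomputable def suc (a : M) : M := a ∪ {a}

@[simp] theorem mem_suc {a z : M} : z ∈ suc a ↔ z ∈ a ∨ z = a := by simp [suc]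

noncomputable def op (a b : M) : M := upair {a} (upair a b)

theorem isPair_iff {p a b : M} : IsPair (EE M) p a b ↔ p = op a b := by
  have h : IsPair (EE M) (op a b) a b := by
    intro z
    simp only [op, EE, mem_upair]
    refine or_congr ?_ ?_ <;> rw [zext_iff] <;> simp
  refine ⟨fun hp => zext fun z => (hp z).trans (h z).symm, fun e => e ▸ h⟩

@[simp] theorem op_inj {a b c d : M} : op a b = op c d ↔ a = c ∧ b = d :=
  ⟨fun h => ZM.zfc.isPair_inj (isPair_iff.2 rfl) (isPair_iff.2 h), fun h => by rw [h.1, h.2]⟩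

theorem app_iff {f a b : M} : App (EE M) f a b ↔ op a b ∈ f := by
  simp only [App, isPair_iff, EE]
  exact ⟨fun ⟨p, h1, h2⟩ => h2 ▸ h1, fun h => ⟨_, h, rfl⟩⟩

section Inst

variable {α : Type v} [Ctx M α]

instance DF.sU (s : α → M) [DF M s] : DF M (no_index fun x => sU (s x)) :=
  have : DF M fun x : M => MP_783f50_lc.sU x := DF.of_mem _ _ fun _ _ => mem_sU
  DF.comp (fun x : M => MP_783f50_lc.sU x) s

instance DF.pw (s : α → M) [DF M s] : DF M (no_index fun x => pw (s x)) :=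
  have : DF M fun x : M => MP_783f50_lc.pw x := DF.of_mem _ _ fun _ _ => mem_pw
  DF.comp (fun x : M => MP_783f50_lc.pw x) s

instance DF.single (s : α → M) [DF M s] : DF M (no_index fun x => ({s x} : M)) :=
  have : DF M fun x : M => ({x} : M) := DF.of_mem _ _ fun _ _ => mem_single
  DF.comp (fun x : M => ({x} : M)) s

instance DF.suc (s : α → M) [DF M s] : DF M (no_index fun x => suc (s x)) :=
  have : DF M fun x : M => MP_783f50_lc.suc x := DF.of_mem _ _ fun _ _ => mem_suc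
  DF.comp (fun x : M => MP_783f50_lc.suc x) s

instance DF.upair (s t : α → M) [DF M s] [DF M t] : DF M (no_index fun x => upair (s x) (t x)) :=
  have : DF M fun z : M × M => MP_783f50_lc.upair z.1 z.2 := DF.of_mem _ _ fun _ _ => mem_upair
  DF.comp (fun z : M × M => MP_783f50_lc.upair z.1 z.2) fun x => (s x, t x)

instance DF.union (s t : α → M) [DF M s] [DF M t] : DF M (no_index fun x => s x ∪ t x) :=
  have : DF M fun z : M × M => z.1 ∪ z.2 := DF.of_mem _ _ fun _ _ => mem_union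
  DF.comp (fun z : M × M => z.1 ∪ z.2) fun x => (s x, t x)

instance DF.inter (s t : α → M) [DF M s] [DF M t] : DF M (no_index fun x => s x ∩ t x) :=
  have : DF M fun z : M × M => z.1 ∩ z.2 := DF.of_mem _ _ fun _ _ => mem_inter
  DF.comp (fun z : M × M => z.1 ∩ z.2) fun x => (s x, t x)

instance DF.diff (s t : α → M) [DF M s] [DF M t] : DF M (no_index fun x => s x \ t x) :=
  have : DF M fun z : M × M => z.1 \ z.2 := DF.of_mem _ _ fun _ _ => mem_diff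
  DF.comp (fun z : M × M => z.1 \ z.2) fun x => (s x, t x)

instance DF.op (s t : α → M) [DF M s] [DF M t] : DF M (no_index fun x => op (s x) (t x)) := by
  unfold MP_783f50_lc.op; infer_instance

instance DF.sep (A : α → M) (P : α → M → Prop) [DF M A] [h : DP M fun z : α × M => P z.1 z.2] :
    DF M (no_index fun x => sep (A x) (P x)) := by
  have h1 : DF M fun z : α × M => A z.1 := DF.comp A Prod.fst
  refine DF.of_mem _ (fun x t => t ∈ A x ∧ P x t) fun x t => ?_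
  have : DP M (P x) := DP.comp (fun z : α × M => P z.1 z.2) fun t : M => (x, t)
  exact mem_sep

end Inst

noncomputable def prd (A B : M) : M :=
  sep (pw (pw (A ∪ B))) fun p => ∃ a b, a ∈ A ∧ b ∈ B ∧ p = op a b

theorem mem_prd {A B p : M} : p ∈ prd A B ↔ ∃ a b, a ∈ A ∧ b ∈ B ∧ p = op a b := by
  rw [prd, mem_sep]
  refine ⟨fun h => h.2, fun h => ⟨?_, h⟩⟩
  obtain ⟨a, b, ha, hb, rfl⟩ := h
  simp only [mem_pw, sub_def, op, mem_upair]
  rintro z (rfl | rfl) <;> simp [ha, hb]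

@[simp] theorem op_mem_prd {A B a b : M} : op a b ∈ prd A B ↔ a ∈ A ∧ b ∈ B := by
  simp [mem_prd]

/-- The relation defined by `R` on `A × B`. -/
noncomputable def rel (A B : M) (R : M → M → Prop) : M :=
  sep (prd A B) fun p => ∃ a b, p = op a b ∧ R a b

theorem mem_rel {A B : M} {R : M → M → Prop} [DP M fun z : M × M => R z.1 z.2] {p : M} :
    p ∈ rel A B R ↔ ∃ a b, a ∈ A ∧ b ∈ B ∧ p = op a b ∧ R a b := by
  have : DP M fun z : (M × M) × M => R z.1.2 z.2 :=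
    DP.comp (fun z : M × M => R z.1 z.2) fun z : (M × M) × M => (z.1.2, z.2)
  rw [rel, mem_sep, mem_prd]
  constructor
  · rintro ⟨⟨a, b, ha, hb, rfl⟩, a', b', h1, h2⟩
    obtain ⟨rfl, rfl⟩ := op_inj.1 h1
    exact ⟨a, b, ha, hb, rfl, h2⟩
  · rintro ⟨a, b, ha, hb, rfl, h⟩
    exact ⟨⟨a, b, ha, hb, rfl⟩, a, b, rfl, h⟩

@[simp] theorem op_mem_rel {A B : M} {R : M → M → Prop} [DP M fun z : M × M => R z.1 z.2]
    {a b : M} : op a b ∈ rel A B R ↔ a ∈ A ∧ b ∈ B ∧ R a b := by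
  simp [mem_rel]

theorem exists_rel (A B : M) (R : M → M → Prop) [DP M fun z : M × M => R z.1 z.2] :
    ∃ r : M, r ⊆ prd A B ∧ ∀ a b, op a b ∈ r ↔ a ∈ A ∧ b ∈ B ∧ R a b :=
  ⟨rel A B R, fun _ hp => by
    obtain ⟨a, b, ha, hb, rfl, -⟩ := mem_rel.1 hp
    simp [ha, hb], fun _ _ => op_mem_rel⟩

/-- The value of `f` at `a`. -/
noncomputable def app (f a : M) : M := sU (sep (sU (sU f)) fun b => op a b ∈ f)

theorem app_eq {f a b : M} (h1 : op a b ∈ f) (h2 : ∀ b', op a b' ∈ f → b' = b) : app f a = b := by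
  refine zext fun z => ?_
  simp only [app, mem_sU, mem_sep]
  constructor
  · rintro ⟨y, ⟨-, h3⟩, h4⟩
    exact h2 y h3 ▸ h4
  · intro hz
    exact ⟨b, ⟨⟨upair a b, ⟨_, h1, by simp [op]⟩, by simp⟩, h1⟩, hz⟩

instance DF.app {α : Type v} [Ctx M α] (s t : α → M) [DF M s] [DF M t] :
    DF M (no_index fun x => app (s x) (t x)) :=
  have : DF M fun z : M × M => MP_783f50_lc.app z.1 z.2 := by
    unfold MP_783f50_lc.app; infer_instance
  DF.comp (fun z : M × M => MP_783f50_lc.app z.1 z.2) fun x => (s x, t x)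

/-- Replacement. -/
theorem exists_img (A : M) (F : M → M) [DF M F] :
    ∃ s : M, ∀ z, z ∈ s ↔ ∃ a, a ∈ A ∧ z = F a := by
  have : DF M fun z : M × M => F z.1 := DF.comp F Prod.fst
  obtain ⟨φ, v, h⟩ := DP.sat₂ A fun a b => b = F a
  obtain ⟨s, hs⟩ := ZM.zfc.replacement φ v A fun a _ => by
    simp only [← h]; exact ⟨F a, rfl, fun _ h => h⟩
  exact ⟨s, fun z => by simp only [← h] at hs; exact hs z⟩

/-- A definable function restricted to a set is a set. -/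
theorem exists_lam (A : M) (F : M → M) [DF M F] :
    ∃ f : M, (∀ p, p ∈ f ↔ ∃ a, a ∈ A ∧ p = op a (F a)) ∧ ∀ a, a ∈ A → app f a = F a := by
  obtain ⟨f, hf⟩ := exists_img A fun a => op a (F a)
  refine ⟨f, hf, fun a ha => app_eq ((hf _).2 ⟨a, ha, rfl⟩) fun b hb => ?_⟩
  obtain ⟨a', -, h⟩ := (hf _).1 hb
  obtain ⟨rfl, rfl⟩ := op_inj.1 h
  rfl

/-! ### Foundation, choice, Zorn's lemma -/

theorem exists_min (A : M) (P : M → Prop) [DP M P] (h : ∃ a, a ∈ A ∧ P a) :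
    ∃ a, a ∈ A ∧ P a ∧ ∀ b, b ∈ a → b ∈ A → ¬ P b := by
  obtain ⟨a, ha⟩ := h
  obtain ⟨y, hy, h1⟩ := ZM.zfc.foundation (sep A P) ⟨a, mem_sep.2 ha⟩
  exact ⟨y, (mem_sep.1 hy).1, (mem_sep.1 hy).2, fun b hb hA hP => h1 b hb (mem_sep.2 ⟨hA, hP⟩)⟩

theorem mem_induction (A : M) (P : M → Prop) [DP M P]
    (h : ∀ a, a ∈ A → (∀ b, b ∈ a → b ∈ A → P b) → P a) : ∀ a, a ∈ A → P a := by
  by_contra hc
  push Not at hc
  obtain ⟨a, ha, h1, h2⟩ := exists_min A (fun a => ¬ P a) hc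
  exact h1 (h a ha fun b hb hA => not_not.1 (h2 b hb hA))

theorem mem_irrefl (a : M) : a ∉ a := ZM.zfc.not_mem_self a

theorem exists_clique (X : M) (R : M → M → Prop) [DP M fun z : M × M => R z.1 z.2] :
    ∃ C : M, C ⊆ X ∧ (∀ a b, a ∈ C → b ∈ C → R a b) ∧
      ∀ a, a ∈ X → R a a → (∀ b, b ∈ C → R a b ∧ R b a) → a ∈ C := by
  obtain ⟨C, h1, h2, h3⟩ := ZM.clique X (rel X X R)
  simp only [app_iff, op_mem_rel] at h2 h3
  exact ⟨C, h1, fun a b ha hb => (h2 a b ha hb).2.2, fun a ha h4 h5 =>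
    h3 a ha ⟨ha, ha, h4⟩ fun b hb =>
      ⟨⟨ha, h1 b hb, (h5 b hb).1⟩, ⟨h1 b hb, ha, (h5 b hb).2⟩⟩⟩

theorem zorn (X : M) (h : ∀ C, C ⊆ X → (∀ a b, a ∈ C → b ∈ C → a ⊆ b ∨ b ⊆ a) → sU C ∈ X) :
    ∃ m, m ∈ X ∧ ∀ a, a ∈ X → m ⊆ a → a ⊆ m := by
  obtain ⟨C, h1, h2, h3⟩ := exists_clique X fun a b => a ⊆ b ∨ b ⊆ a
  refine ⟨sU C, h C h1 h2, fun a ha hm z hz => mem_sU.2 ⟨a, h3 a ha (Or.inl (sub_refl a))
    fun b hb => ?_, hz⟩⟩
  have : b ⊆ a := fun t ht => hm t (mem_sU.2 ⟨b, hb, ht⟩)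
  exact ⟨Or.inr this, Or.inl this⟩

/-- Zorn's lemma for the subsets of `X` with a definable property. -/
theorem zorn' (X : M) (P : M → Prop) [DP M P]
    (h : ∀ C, (∀ a, a ∈ C → a ⊆ X ∧ P a) → (∀ a b, a ∈ C → b ∈ C → a ⊆ b ∨ b ⊆ a) → P (sU C)) :
    ∃ m, m ⊆ X ∧ P m ∧ ∀ a, a ⊆ X → P a → m ⊆ a → a ⊆ m := by
  obtain ⟨m, h1, h2⟩ := zorn (sep (pw X) P) fun C hC hc => by
    have h3 : ∀ a, a ∈ C → a ⊆ X ∧ P a := fun a ha => by simpa using hC a ha
    simp only [mem_sep, mem_pw]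
    exact ⟨fun z hz => let ⟨y, hy, hz⟩ := mem_sU.1 hz; (h3 y hy).1 z hz, h C h3 hc⟩
  simp only [mem_sep, mem_pw] at h1 h2
  exact ⟨m, h1.1, h1.2, fun a h3 h4 => h2 a ⟨h3, h4⟩⟩

theorem choice (A B : M) (R : M → M → Prop) [DP M fun z : M × M => R z.1 z.2]
    (h : ∀ a, a ∈ A → ∃ b, b ∈ B ∧ R a b) :
    ∃ f : M, ∀ a, a ∈ A → app f a ∈ B ∧ R a (app f a) := by
  obtain ⟨C, h1, h2, h3⟩ := exists_clique (rel A B R)
    fun p q => ∀ a b b', p = op a b → q = op a b' → b = b'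
  refine ⟨C, fun a ha => ?_⟩
  have : ∃ b, op a b ∈ C := by
    by_contra hc
    obtain ⟨b, hb, hR⟩ := h a ha
    refine hc ⟨b, h3 _ (op_mem_rel.2 ⟨ha, hb, hR⟩) (fun a' b1 b2 e1 e2 => ?_) fun q hq =>
      ⟨fun a' b1 b2 e1 e2 => ?_, fun a' b1 b2 e1 e2 => ?_⟩⟩
    · exact (op_inj.1 (e1.symm.trans e2)).2
    · exact absurd ⟨b2, (op_inj.1 e1).1 ▸ e2 ▸ hq⟩ hc
    · exact absurd ⟨b1, (op_inj.1 e2).1 ▸ e1 ▸ hq⟩ hc
  obtain ⟨b, hb⟩ := this
  rw [app_eq hb fun b' hb' => h2 _ _ hb' hb a b' b rfl rfl]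
  exact (op_mem_rel.1 (h1 _ hb)).2

end Pool.Agent.Lib.MP_783f50_lc
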