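import Pool.Agent.Lib.MP_783f50_lc.Force

/-! From a forced strategy on finite lists to an algebraic closure system in the model. -/

namespace Pool.Agent.Lib.MP_783f50_lc

open Pool.Agent.Lib.MP_2739cb_lc Nm Cardinal Set

universe u v

variable {P : Type u} [Preorder P] [OrderTop P] {I : Type u}

abbrev subR (a b : Nm P) : RO P := RO.all fun z => RO.imp (RO.mem z a) (RO.mem z b)

def hat (B : I → Nm P) (y : Set I) : Nm P := Nm.mk y (fun i => B i) fun _ => ⊤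

theorem mem_hat {B : I → Nm P} {y : Set I} {i : I} (h : i ∈ y) (p : P) : FMem (B i) (hat B y) p :=
  FMem.of_le (y := hat B y) ⟨i, h⟩ le_top

theorem of_mem_hat {B : I → Nm P} {y : Set I} {z : Nm P} {p : P} (h : FMem z (hat B y) p) :
    ∀ q, q ≤ p → ∃ r, r ≤ q ∧ ∃ i ∈ y, FEq z (B i) r := fun q hq =>
  let ⟨r, hr, j, _, h1⟩ := h q hq; ⟨r, hr, j.1, j.2, h1⟩

theorem cov_hat {B : I → Nm P} {y : Set I} (hy : y.Countable) (p : P) : (covR (hat B y)).s p :=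
  cov_of_ctbl hy B fun _ q _ hz => of_mem_hat hz q le_rfl

def lst (a : ℕ → I) : ℕ → List I
  | 0 => []
  | n + 1 => a n :: lst a n

theorem mem_lst {a : ℕ → I} {n : ℕ} {j : I} (h : j ∈ lst a n) : j ∈ range a := by
  induction n with
  | zero => simp [lst] at h
  | succ n ih =>
    rcases List.mem_cons.1 h with rfl | h
    · exact ⟨n, rfl⟩
    · exact ih h

def Spans (B : I → Nm P) (V : Nm P) : Prop :=
  ∀ z p, FMem z V p → ∃ r, r ≤ p ∧ ∃ i, FEq z (B i) r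

structure Sys (V S : Nm P) (B : I → Nm P) (a0 : RO P) (Val : List I → P → Set I → Prop) :
    Prop where
  b1 : ∀ i p, a0.s p → FMem (B i) V p
  b2 : Spans B V
  v1 : ∀ s p q y, q ≤ p → Val s p y → Val s q y
  v2 : ∀ s p y y', Val s p y → Val s p y' → y = y'
  vc : ∀ s p y, Val s p y → y.Countable
  v3 : ∀ s p, a0.s p → ∃ q, q ≤ p ∧ ∃ y, Val s q y
  v4 : ∀ p y, Val [] p y → y = ∅
  v5 : ∀ (a : ℕ → I) (N : Nm P) (q : P) (ys : ℕ → Set I), a0.s q →
    (∀ n, Val (lst a n) q (ys n)) → (∀ n, ∀ i ∈ ys n, FMem (B i) N q) →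
    (∀ z r, r ≤ q → FMem z N r → ∃ t, t ≤ r ∧ ∃ n, FEq z (B (a n)) t) → ¬ FMem N S q

variable [LinearOrder I]

def can (B : I → Nm P) (j : I) (p : P) : Prop :=
  ∀ i, i < j → ∀ r, r ≤ p → ¬ FEq (B i) (B j) r

omit [OrderTop P] in
theorem can.mono {B : I → Nm P} {j : I} {p q : P} (h : can B j p) (hq : q ≤ p) : can B j q :=
  fun i hi r hr => h i hi r (hr.trans hq)

omit [OrderTop P] in
theorem can_inj {B : I → Nm P} {i j : I} {p : P} (h1 : can B i p) (h2 : can B j p)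
    (h : FEq (B i) (B j) p) : i = j := by
  rcases lt_trichotomy i j with h3 | h3 | h3
  · exact absurd h (h2 i h3 p le_rfl)
  · exact h3
  · exact absurd h.symm (h1 j h3 p le_rfl)

omit [OrderTop P] in
theorem can_dense [WellFoundedLT I] (B : I → Nm P) {z : Nm P} {p : P} {i : I}
    (h : FEq z (B i) p) : ∃ q, q ≤ p ∧ ∃ j, can B j q ∧ FEq z (B j) q := by
  obtain ⟨j, ⟨r, hr, h1⟩, h2⟩ := WellFounded.has_min wellFounded_lt
    {j | ∃ r, r ≤ p ∧ FEq z (B j) r} ⟨i, p, le_rfl, h⟩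
  exact ⟨r, hr, j, fun k hk t ht h3 => h2 k ⟨t, ht.trans hr, (h1.mono ht).trans h3.symm⟩ hk, h1⟩

variable [WellFoundedLT I] [SigmaClosed P]

theorem ground {B : I → Nm P} {V b : Nm P} {p : P} (hB : Spans B V) (h1 : (subR b V).s p)
    (h2 : (covR b).s p) : ∃ q, q ≤ p ∧ ∃ y : Set I, y.Countable ∧
      (∀ j ∈ y, can B j q ∧ FMem (B j) b q) ∧
      ∀ z r, r ≤ q → FMem z b r → ∃ t, t ≤ r ∧ ∃ j ∈ y, FEq z (B j) t := by
  obtain ⟨s, hs⟩ := cov_seq b
  obtain ⟨q, hq, h3⟩ := decide_ctbl (fun n r => (∃ j, can B j r ∧ FEq (s n) (B j) r ∧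
      FMem (s n) b r) ∨ ∀ t, t ≤ r → ¬ FMem (s n) b t)
    (fun n r t ht h => h.imp (fun ⟨j, h4, h5, h6⟩ => ⟨j, h4.mono ht, h5.mono ht, h6.mono ht⟩)
      fun h w hw => h w (hw.trans ht)) p fun n r hr => by
      by_cases hc : ∃ t, t ≤ r ∧ FMem (s n) b t
      · obtain ⟨t, ht, h4⟩ := hc
        obtain ⟨w, hw, i, h5⟩ := hB _ t (h1 _ t (ht.trans hr) h4)
        obtain ⟨w', hw', j, h6, h7⟩ := can_dense B h5
        exact ⟨w', hw'.trans (hw.trans ht), Or.inl ⟨j, h6, h7, h4.mono (hw'.trans hw)⟩⟩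
      · exact ⟨r, le_rfl, Or.inr fun t ht h4 => hc ⟨t, ht, h4⟩⟩
  refine ⟨q, hq, ⋃ n, {j | can B j q ∧ FEq (s n) (B j) q ∧ FMem (s n) b q},
    countable_iUnion fun n => Subsingleton.countable fun i hi j hj =>
      can_inj hi.1 hj.1 (hi.2.1.symm.trans hj.2.1), fun j hj => ?_, fun z r hr hz => ?_⟩
  · obtain ⟨n, h4, h5, h6⟩ := mem_iUnion.1 hj
    exact ⟨h4, h6.subst_left h5⟩
  · obtain ⟨t, ht, n, h4⟩ := hs p h2 z r (hr.trans hq) hz
    rcases h3 n with ⟨j, h5⟩ | h5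
    · exact ⟨t, ht, j, mem_iUnion.2 ⟨n, h5⟩, h4.trans (h5.2.1.mono (ht.trans hr))⟩
    · exact absurd ((hz.mono ht).subst_left h4) (h5 t (ht.trans hr))

variable {V S : Nm P} {B : I → Nm P} {a0 : RO P} {Val : List I → P → Set I → Prop}

/-- Closure under the strategy. -/
def clos (B : I → Nm P) (Val : List I → P → Set I → Prop)
    (hm : ∀ s p q y, q ≤ p → Val s p y → Val s q y) (Z : Nm P) : RO P where
  s p := ∀ s y i q, q ≤ p → (∀ j ∈ s, FMem (B j) Z q ∧ can B j q) → Val s q y → i ∈ y →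
    FMem (B i) Z q
  mono' _ _ hq h s y i r hr := h s y i r (hr.trans hq)
  reg' p h s y i q hq h1 h2 h3 := FMem.reg fun r hr => by
    obtain ⟨t, ht, h4⟩ := h r (hr.trans hq)
    exact ⟨t, ht, h4 s y i t le_rfl (fun j hj => ⟨(h1 j hj).1.mono (ht.trans hr),
      (h1 j hj).2.mono (ht.trans hr)⟩) (hm _ _ _ _ (ht.trans hr) h2) h3⟩

omit [OrderTop P] [WellFoundedLT I] [SigmaClosed P] in
instance (hm : ∀ s p q y, q ≤ p → Val s p y → Val s q y) :
    MP_2739cb_lc.Ext (clos B Val hm) :=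
  ⟨fun _ _ _ e h s y i q hq h1 h2 h3 => (h s y i q hq (fun j hj =>
    ⟨(h1 j hj).1.subst_right (e.mono hq).symm, (h1 j hj).2⟩) h2 h3).subst_right (e.mono hq)⟩

omit [OrderTop P] in
theorem Sys.step (h : Sys V S B a0 Val) {p : P} (hp : a0.s p) {y : Set I} (hy : y.Countable) :
    ∃ q, q ≤ p ∧ ∃ y' : Set I, y'.Countable ∧ (∀ j ∈ y', can B j q) ∧
      ∀ s : List I, (∀ j ∈ s, j ∈ y) → ∃ z, Val s q z ∧ ∀ i ∈ z, ∃ j ∈ y', FEq (B i) (B j) q := by
  have : Countable y := hy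
  obtain ⟨q, hq, h1⟩ := decide_ctbl (fun (s : List y) r => ∃ z, Val (s.map Subtype.val) r z)
    (fun s r t ht ⟨z, hz⟩ => ⟨z, h.v1 _ _ _ _ ht hz⟩) p fun s r hr => h.v3 _ r (RO.mono hp hr)
  choose z hz using h1
  have : Countable (⋃ s, z s : Set I) := countable_iUnion fun s => h.vc _ _ _ (hz s)
  obtain ⟨r, hr, h2⟩ := decide_ctbl
    (fun (i : (⋃ s, z s : Set I)) r => ∃ j, can B j r ∧ FEq (B i) (B j) r)
    (fun i r t ht ⟨j, h3, h4⟩ => ⟨j, h3.mono ht, h4.mono ht⟩) q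
    fun i r _ => can_dense B (FEq.refl _ r)
  choose f hf using h2
  refine ⟨r, hr.trans hq, range f, countable_range f, ?_, fun s hs => ?_⟩
  · rintro _ ⟨i, rfl⟩; exact (hf i).1
  · obtain ⟨s', rfl⟩ : ∃ s' : List y, s = s'.map Subtype.val :=
      ⟨s.pmap Subtype.mk hs, by simp [List.map_pmap]⟩
    exact ⟨z s', h.v1 _ _ _ _ hr (hz s'), fun i hi =>
      ⟨_, ⟨⟨i, mem_iUnion.2 ⟨s', hi⟩⟩, rfl⟩, (hf ⟨i, _⟩).2⟩⟩

omit [LinearOrder I] [WellFoundedLT I] in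
theorem list_sub {y : ℕ → Set I} (hy : Monotone y) (s : List I) (h : ∀ j ∈ s, j ∈ ⋃ n, y n) :
    ∃ n, ∀ j ∈ s, j ∈ y n := by
  induction s with
  | nil => exact ⟨0, by simp⟩
  | cons a s ih =>
    obtain ⟨n, hn⟩ := ih fun j hj => h j (List.mem_cons_of_mem _ hj)
    obtain ⟨m, hm⟩ := mem_iUnion.1 (h a List.mem_cons_self)
    refine ⟨max n m, fun j hj => ?_⟩
    rcases List.mem_cons.1 hj with rfl | hj
    · exact hy (le_max_right _ _) hm
    · exact hy (le_max_left _ _) (hn j hj)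

theorem Sys.hull (h : Sys V S B a0 Val) {p : P} (hp : a0.s p) {y0 : Set I} (hy : y0.Countable)
    (hc : ∀ j ∈ y0, can B j p) : ∃ q, q ≤ p ∧ ∃ y : Set I, y.Countable ∧ y0 ⊆ y ∧
      (clos B Val h.v1 (hat B y)).s q := by
  let St := {x : P × Set I // a0.s x.1 ∧ x.2.Countable ∧ ∀ j ∈ x.2, can B j x.1}
  have step : ∀ x : St, ∃ x' : St, x'.1.1 ≤ x.1.1 ∧ x.1.2 ⊆ x'.1.2 ∧
      ∀ s : List I, (∀ j ∈ s, j ∈ x.1.2) → ∃ z, Val s x'.1.1 z ∧
        ∀ i ∈ z, ∃ j ∈ x'.1.2, FEq (B i) (B j) x'.1.1 := by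
    rintro ⟨⟨q, y⟩, h1, h2, h3⟩
    obtain ⟨r, hr, y', h4, h5, h6⟩ := h.step h1 h2
    refine ⟨⟨(r, y ∪ y'), RO.mono h1 hr, h2.union h4, fun j hj => hj.elim
      (fun hj => (h3 j hj).mono hr) (h5 j)⟩, hr, subset_union_left, fun s hs => ?_⟩
    obtain ⟨z, h7, h8⟩ := h6 s hs
    exact ⟨z, h7, fun i hi => let ⟨j, h9, h10⟩ := h8 i hi; ⟨j, Or.inr h9, h10⟩⟩
  choose F hF1 hF2 hF3 using step
  let x : ℕ → St := fun n => F^[n] ⟨(p, y0), hp, hy, hc⟩
  have hx : ∀ n, x (n + 1) = F (x n) := fun n => Function.iterate_succ_apply' F n _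
  obtain ⟨q, hq⟩ := SigmaClosed.lb (fun n => (x n).1.1) fun n => by rw [hx]; exact hF1 _
  have hm : Monotone fun n => (x n).1.2 :=
    monotone_nat_of_le_succ fun n => by rw [hx]; exact hF2 _
  refine ⟨q, hq 0, ⋃ n, (x n).1.2, countable_iUnion fun n => (x n).2.2.1,
    subset_iUnion (fun n => (x n).1.2) 0, fun s y i r hr h1 h2 h3 => ?_⟩
  obtain ⟨n, hn⟩ := list_sub hm s fun j hj => by
    obtain ⟨t, ht, k, hk, h4⟩ := of_mem_hat (h1 j hj).1 r le_rfl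
    obtain ⟨m, hm⟩ := mem_iUnion.1 hk
    rwa [can_inj ((h1 j hj).2.mono ht) (((x m).2.2.2 k hm).mono (ht.trans (hr.trans (hq m)))) h4]
  obtain ⟨z, h4, h5⟩ := hF3 (x n) s hn
  rw [← hx] at h4 h5
  have h6 := hr.trans (hq (n + 1))
  obtain ⟨j, h7, h8⟩ := h5 i (h.v2 _ _ _ _ h2 (h.v1 _ _ _ _ h6 h4) ▸ h3)
  exact (mem_hat (mem_iUnion.2 ⟨n + 1, h7⟩) r).subst_left (h8.mono h6).symm

theorem Sys.avoid (h : Sys V S B a0 Val) {N : Nm P} {p : P} (hp : a0.s p) (h1 : (subR N V).s p)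
    (h2 : (clos B Val h.v1 N).s p) (h3 : (covR N).s p) {a : Nm P} (h4 : FMem a N p) :
    ¬ FMem N S p := by
  intro h5
  obtain ⟨q, hq, y, h6, h7, h8⟩ := ground h.b2 h1 h3
  obtain ⟨_, -, j, hj, -⟩ := h8 a q le_rfl (h4.mono hq)
  obtain ⟨e, rfl⟩ := h6.exists_eq_range ⟨j, hj⟩
  obtain ⟨r, hr, h9⟩ := decide_ctbl (fun n r => ∃ z, Val (lst e n) r z)
    (fun s r t ht ⟨z, hz⟩ => ⟨z, h.v1 _ _ _ _ ht hz⟩) q
    fun s r hr => h.v3 _ r (RO.mono hp (hr.trans hq))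
  choose z hz using h9
  refine h.v5 e N r z (RO.mono hp (hr.trans hq)) hz (fun n i hi => h2 _ _ i r (hr.trans hq)
    (fun k hk => ⟨(h7 k (mem_lst hk)).2.mono hr, (h7 k (mem_lst hk)).1.mono hr⟩) (hz n) hi)
    (fun w t ht hw => ?_) (h5.mono (hr.trans hq))
  obtain ⟨t', ht', _, ⟨n, rfl⟩, h10⟩ := h8 w t (ht.trans hr) hw
  exact ⟨t', ht', n, h10⟩

omit [OrderTop P] [LinearOrder I] [WellFoundedLT I] [SigmaClosed P] in
theorem chain_list {F W : Nm P} {p : P}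
    (h1 : ∀ a b q, q ≤ p → FMem a F q → FMem b F q → (RO.or (subR a b) (subR b a)).s q)
    (h2 : ∀ z q, q ≤ p → FMem z W q → (RO.ex fun N => RO.and (RO.mem N F) (RO.mem z N)).s q)
    (a : I) (s : List I) (h : ∀ j ∈ a :: s, FMem (B j) W p) :
    ∃ q, q ≤ p ∧ ∃ N, FMem N F q ∧ ∀ j ∈ a :: s, FMem (B j) N q := by
  induction s generalizing a with
  | nil =>
    obtain ⟨q, hq, N, h3, h4⟩ := h2 _ p le_rfl (h a List.mem_cons_self) p le_rfl
    exact ⟨q, hq, N, h3, fun j hj => by rw [List.mem_singleton.1 hj]; exact h4⟩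
  | cons b s ih =>
    obtain ⟨q, hq, N, h3, h4⟩ := ih b fun j hj => h j (List.mem_cons_of_mem _ hj)
    obtain ⟨r, hr, N', h5, h6⟩ := h2 _ p le_rfl (h a List.mem_cons_self) q hq
    obtain ⟨t, ht, h7 | h7⟩ := h1 N N' r (hr.trans hq) (h3.mono hr) h5 r le_rfl
    · refine ⟨t, ht.trans (hr.trans hq), N', FMem.mono h5 ht, fun j hj => ?_⟩
      rcases List.mem_cons.1 hj with rfl | hj
      · exact FMem.mono h6 ht
      · exact h7 _ t le_rfl ((h4 j hj).mono (ht.trans hr))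
    · refine ⟨t, ht.trans (hr.trans hq), N, h3.mono (ht.trans hr), fun j hj => ?_⟩
      rcases List.mem_cons.1 hj with rfl | hj
      · exact h7 _ t le_rfl (FMem.mono h6 ht)
      · exact (h4 j hj).mono (ht.trans hr)

theorem mem_iff_EM (a b : MP_2739cb_lc.Mod P) : a ∈ b ↔ EM a b := Iff.rfl

theorem T_ctbl (Z : Nm P) : T (covR Z) ↔ Ctbl (cls Z) := (T_cov Z).trans ctbl_iff_cov.symm

theorem exists_clsys {V S : MP_2739cb_lc.Mod P} (h : Sys (rep V) (rep S) B a0 Val) (ha : T a0) :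
    ∃ Z, ClSys V S Z := by
  let Φ := clos B Val h.v1
  let Zn : Nm P := sepNm Φ (rep (pw V))
  have hZ : ∀ N p, FMem N Zn p ↔ FMem N (rep (pw V)) p ∧ (Φ N).s p := fun N p =>
    fmem_sepNm Φ _ _ p
  have hpw : T (RO.all fun N => RO.iff (RO.mem N (rep (pw V))) (subR N (rep V))) := by
    simp only [T_all, T_iff, T_imp, T_mem, cls_rep]
    exact fun N => mem_pw (a := V) (z := N)
  have hZ' : T (RO.all fun N => RO.iff (RO.mem N Zn) (RO.and (subR N (rep V)) (Φ N))) :=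
    hpw.mono fun p hp N => (RO.iff_s _ _ _).2 fun q hq =>
      (hZ N q).trans (and_congr_left' ((RO.iff_s _ _ _).1 (hp N) q hq))
  have ha' := (T_and _ _).2 ⟨ha, hZ'⟩
  refine ⟨cls Zn, ?_, ?_, ?_, ?_, ?_⟩
  · have : T (RO.all fun N => RO.imp (RO.mem N Zn) (subR N (rep V))) :=
      hZ'.mono fun p hp N q hq h1 => ((hp N).1 q hq h1).1
    simp only [T_all, T_imp, T_mem, cls_rep] at this
    exact this
  · have : T (RO.all fun F => RO.all fun W => RO.imp (subR F Zn) (RO.imp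
        (RO.ex fun N => RO.mem N F) (RO.imp (RO.all fun z => RO.iff (RO.mem z W)
          (RO.all fun N => RO.imp (RO.mem N F) (RO.mem z N))) (RO.mem W Zn)))) := by
      refine hZ'.mono fun p hp F W q hq h1 r hr h2 t ht h3 => ?_
      have hp' := fun N w (hw : w ≤ t) (hN : FMem N F w) =>
        (hp N).1 w (hw.trans (ht.trans (hr.trans hq))) (h1 N w (hw.trans (ht.trans hr)) hN)
      refine (hp W).2 t (ht.trans (hr.trans hq)) ⟨fun z w hw hz => FMem.reg fun w1 hw1 => ?_,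
        fun s y i w hw h4 h5 h6 => (h3 _).2 w hw fun N w1 hw1 hN => ?_⟩
      · obtain ⟨w2, hw2, N, hN⟩ := h2 w1 (hw1.trans (hw.trans ht))
        exact ⟨w2, hw2, (hp' N w2 (hw2.trans (hw1.trans hw)) hN).1 z w2 le_rfl
          ((h3 z).1 w hw hz N w2 (hw2.trans hw1) hN)⟩
      · exact (hp' N w1 (hw1.trans hw) hN).2 s y i w1 le_rfl (fun j hj =>
          ⟨(h3 _).1 w hw (h4 j hj).1 N w1 hw1 hN, (h4 j hj).2.mono hw1⟩)
          (h.v1 _ _ _ _ hw1 h5) h6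
    simp only [T_all, T_imp, T_ex, T_iff, T_mem, cls_rep] at this
    exact this
  · have : T (RO.all fun F => RO.all fun W => RO.imp (subR F Zn) (RO.imp
        (RO.all fun a => RO.all fun b => RO.imp (RO.mem a F) (RO.imp (RO.mem b F)
          (RO.or (subR a b) (subR b a)))) (RO.imp (RO.all fun z => RO.iff (RO.mem z W)
          (RO.ex fun N => RO.and (RO.mem N F) (RO.mem z N))) (RO.mem W Zn)))) := by
      refine hZ'.mono fun p hp F W q hq h1 r hr h2 t ht h3 => ?_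
      have hp' := fun N w (hw : w ≤ t) (hN : FMem N F w) =>
        (hp N).1 w (hw.trans (ht.trans (hr.trans hq))) (h1 N w (hw.trans (ht.trans hr)) hN)
      refine (hp W).2 t (ht.trans (hr.trans hq)) ⟨fun z w hw hz => FMem.reg fun w1 hw1 => ?_,
        fun s y i w hw h4 h5 h6 => FMem.reg fun w1 hw1 => ?_⟩
      · obtain ⟨w2, hw2, N, hN, h4⟩ := (h3 z).1 w hw hz w1 hw1
        exact ⟨w2, hw2, (hp' N w2 (hw2.trans (hw1.trans hw)) hN).1 z w2 le_rfl h4⟩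
      · cases s with
        | nil => rw [h.v4 _ _ h5] at h6; exact h6.elim
        | cons a s =>
          obtain ⟨w2, hw2, N, hN, h7⟩ := chain_list (B := B) (F := F) (W := W) (p := w1)
            (fun a b k hk ha hb => h2 a b k (hk.trans (hw1.trans (hw.trans ht))) ha k le_rfl hb)
            (fun z k hk hz => (h3 z).1 k (hk.trans (hw1.trans hw)) hz) a s
            fun j hj => (h4 j hj).1.mono hw1
          have h8 := hw2.trans (hw1.trans hw)
          exact ⟨w2, hw2, (h3 _).2 w2 h8 (RO.ex_intro N ⟨hN, (hp' N w2 h8 hN).2 _ y i w2 le_rfl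
            (fun j hj => ⟨h7 j hj, (h4 j hj).2.mono (hw2.trans hw1)⟩)
            (h.v1 _ _ _ _ (hw2.trans hw1) h5) h6⟩)⟩
    simp only [T_all, T_imp, T_ex, T_iff, T_and, T_or, T_mem, cls_rep] at this
    exact fun F h1 h2 => this F (sU F) h1 h2 fun z => mem_sU (a := F) (z := z)
  · have : T (RO.all fun b => RO.imp (subR b (rep V)) (RO.imp (covR b)
        (RO.ex fun N => RO.and (RO.mem N Zn) (RO.and (subR b N) (covR N))))) := by
      refine ha'.mono fun p ⟨hp0, hp⟩ b q hq h1 r hr h2 t ht => ?_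
      have ht' := ht.trans (hr.trans hq)
      obtain ⟨w, hw, y, h3, h4, h5⟩ := ground h.b2 (RO.mono h1 (ht.trans hr)) (RO.mono h2 ht)
      obtain ⟨w1, hw1, y1, h6, h7, h8⟩ := h.hull (RO.mono hp0 (hw.trans ht')) h3
        fun j hj => (h4 j hj).1
      refine ⟨w1, hw1.trans hw, hat B y1, (hp _).2 w1 (hw1.trans (hw.trans ht'))
        ⟨fun z k hk hz => FMem.reg fun k1 hk1 => ?_, h8⟩,
        fun z k hk hz => FMem.reg fun k1 hk1 => ?_, cov_hat h6 _⟩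
      · obtain ⟨k2, hk2, i, -, h9⟩ := of_mem_hat hz k1 hk1
        exact ⟨k2, hk2, (h.b1 i k2 (RO.mono hp0 (hk2.trans (hk1.trans (hk.trans
          (hw1.trans (hw.trans ht'))))))).subst_left h9.symm⟩
      · obtain ⟨k2, hk2, i, hi, h9⟩ := h5 z k1 (hk1.trans (hk.trans hw1)) (FMem.mono hz hk1)
        exact ⟨k2, hk2, (mem_hat (h7 hi) k2).subst_left h9.symm⟩
    simp only [T_all, T_imp, T_ex, T_and, T_mem, ↓T_ctbl, cls_rep] at this
    exact this
  · have : T (RO.all fun N => RO.imp (RO.mem N Zn) (RO.imp (covR N)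
        (RO.imp (RO.ex fun a => RO.mem a N) (RO.not (RO.mem N (rep S)))))) := by
      refine ha'.mono fun p ⟨hp0, hp⟩ N q hq h1 r hr h2 t ht h3 w hw h4 => ?_
      obtain ⟨w1, hw1, a, h5⟩ := h3 w hw
      have h6 := hw1.trans (hw.trans ht)
      have h7 := (hp N).1 w1 (h6.trans (hr.trans hq)) (FMem.mono h1 (h6.trans hr))
      exact h.avoid (RO.mono hp0 (h6.trans (hr.trans hq))) h7.1 h7.2 (RO.mono h2 h6) h5
        (FMem.mono h4 hw1)
    simp only [T_all, T_imp, T_ex, T_not, T_mem, ↓T_ctbl, cls_rep] at this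
    exact this

end Pool.Agent.Lib.MP_783f50_lc
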