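import Pool.Agent.Lib.MP_783f50_lc.Defs

/-! First-order definability with parameters, inferred by instance search. -/

namespace Pool.Agent.Lib.MP_783f50_lc

open Pool.Agent.Lib.MP_2739cb_lc

universe v

def rename (f : ℕ → ℕ) : Fml → Fml
  | .mem i j => .mem (f i) (f j)
  | .eq i j => .eq (f i) (f j)
  | .bot => .bot
  | .imp a b => .imp (rename f a) (rename f b)
  | .all a => .all (rename (push 0 fun n => f n + 1) a)

theorem sat_rename {M : Type v} (E : M → M → Prop) (φ : Fml) :
    ∀ (f : ℕ → ℕ) (v : ℕ → M), Sat E (rename f φ) v ↔ Sat E φ fun i => v (f i) := by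
  induction φ with
  | mem i j => exact fun _ _ => Iff.rfl
  | eq i j => exact fun _ _ => Iff.rfl
  | bot => exact fun _ _ => Iff.rfl
  | imp a b ih1 ih2 => exact fun f v => imp_congr (ih1 f v) (ih2 f v)
  | all a ih =>
    intro f v
    refine forall_congr' fun x => ?_
    rw [ih]
    have : (fun i => push x v (push 0 (fun n => f n + 1) i)) = push x fun i => v (f i) := by
      funext i; cases i <;> rfl
    rw [this]

/-- Membership as a binary relation. -/
abbrev EE (M : Type v) [Membership M M] : M → M → Prop := fun a b => a ∈ b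

/-- Contexts: tuples of elements of `M`. -/
class Ctx (M α : Type v) where
  c : α → ℕ → M

instance Ctx.base (M : Type v) : Ctx M M := ⟨fun a _ => a⟩

instance Ctx.prod (M α : Type v) [Ctx M α] : Ctx M (α × M) :=
  ⟨fun z => push z.2 (Ctx.c z.1)⟩

/-- Definable predicates on a context. -/
class DP (M : Type v) [Membership M M] {α : Type v} [Ctx M α] (Φ : α → Prop) : Prop where
  out : ∃ (ψ : Fml) (t : ℕ → ℕ ⊕ M),
    ∀ x, Φ x ↔ Sat (EE M) ψ fun i => (t i).elim (Ctx.c x) id

/-- Definable maps between contexts. -/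
class DF (M : Type v) [Membership M M] {α β : Type v} [Ctx M α] [Ctx M β] (f : α → β) :
    Prop where
  out : ∀ i, DP M fun z : α × M => z.2 = Ctx.c (f z.1) i

variable {M : Type v} [Membership M M]

namespace DP

variable {α : Type v} [Ctx M α]

theorem congr {Φ Ψ : α → Prop} (h : DP M Φ) (e : ∀ x, Ψ x ↔ Φ x) : DP M Ψ := by
  obtain ⟨ψ, t, h⟩ := h
  exact ⟨ψ, t, fun x => (e x).trans (h x)⟩

theorem ren {β : Type v} [Ctx M β] {Φ : β → Prop} (h : DP M Φ) (g : α → β) (s : ℕ → ℕ ⊕ M)
    (hs : ∀ x i, Ctx.c (g x) i = (s i).elim (Ctx.c x) id) : DP M (no_index fun x => Φ (g x)) := by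
  obtain ⟨ψ, t, h⟩ := h
  refine ⟨ψ, fun i => (t i).elim s Sum.inr, fun x => ?_⟩
  rw [h]
  have : (fun i => (t i).elim (Ctx.c (g x)) id) =
      fun i => Sum.elim (Ctx.c x) id ((t i).elim s Sum.inr) := by
    funext i
    rcases t i with j | m
    · exact hs x j
    · rfl
  rw [this]

theorem bot : DP M fun _ : α => False := ⟨⟨.bot, fun _ => .inl 0, fun _ => Iff.rfl⟩⟩

theorem imp' {Φ Ψ : α → Prop} (h1 : DP M Φ) (h2 : DP M Ψ) : DP M fun x => Φ x → Ψ x := by
  obtain ⟨ψ1, t1, h1⟩ := h1
  obtain ⟨ψ2, t2, h2⟩ := h2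
  refine ⟨.imp (rename (fun n => 2 * n) ψ1) (rename (fun n => 2 * n + 1) ψ2),
    fun n => if n % 2 = 0 then t1 (n / 2) else t2 (n / 2), fun x => ?_⟩
  rw [h1, h2]
  simp only [Sat, sat_rename]
  have e1 : ∀ n, 2 * n % 2 = 0 := fun n => by omega
  have e2 : ∀ n, ¬ (2 * n + 1) % 2 = 0 := fun n => by omega
  have e3 : ∀ n, 2 * n / 2 = n := fun n => by omega
  have e4 : ∀ n, (2 * n + 1) / 2 = n := fun n => by omega
  simp only [e1, e2, e3, e4, if_true, if_false]

theorem all' {P : α → M → Prop} (h : DP M fun z : α × M => P z.1 z.2) :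
    DP M fun x => ∀ y, P x y := by
  classical
  obtain ⟨ψ, t, h⟩ := h
  refine ⟨.all (rename (fun i => if t i = .inl 0 then 0 else i + 1) ψ),
    fun i => (t i).elim (fun k => .inl (k - 1)) .inr, fun x => ?_⟩
  simp only [Sat, sat_rename]
  refine forall_congr' fun y => ?_
  rw [h (x, y)]
  have : (fun i => (t i).elim (Ctx.c (x, y)) id) = fun i => push y
      (fun i => Sum.elim (Ctx.c x) id ((t i).elim (fun k => .inl (k - 1)) .inr))
      (if t i = .inl 0 then 0 else i + 1) := by
    funext i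
    rcases ht : t i with (_ | k) | m
    · simp [push]; rfl
    · simp [push, ht]; rfl
    · simp [push, ht]
  rw [this]

theorem mem_c (i j : ℕ ⊕ M) :
    DP M fun x : α => i.elim (Ctx.c x) id ∈ j.elim (Ctx.c x) id :=
  ⟨⟨.mem 0 1, push i fun _ => j, fun _ => Iff.rfl⟩⟩

theorem eq_c (i j : ℕ ⊕ M) :
    DP M fun x : α => i.elim (Ctx.c x) id = j.elim (Ctx.c x) id :=
  ⟨⟨.eq 0 1, push i fun _ => j, fun _ => Iff.rfl⟩⟩

theorem weak {Φ : α → Prop} (h : DP M Φ) : DP M fun z : α × M => Φ z.1 :=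
  h.ren Prod.fst (fun i => .inl (i + 1)) fun _ _ => rfl

theorem rel {s t : α → M} (R : M → M → Prop)
    (hR : DP M fun z : (α × M) × M => R z.1.2 z.2)
    (hs : DP M fun z : α × M => z.2 = s z.1) (ht : DP M fun z : α × M => z.2 = t z.1) :
    DP M fun x => R (s x) (t x) := by
  have h1 : DP M fun z : (α × M) × M => z.2 = t z.1.1 :=
    ht.ren (fun z : (α × M) × M => (z.1.1, z.2)) (push (.inl 0) fun i => .inl (i + 2))
      fun _ i => by cases i <;> rfl
  have h2 := all' (P := fun (x : α) a => ∀ b, a = s x → b = t x → R a b)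
    (all' (P := fun (z : α × M) b => z.2 = s z.1 → b = t z.1 → R z.2 b)
      (imp' hs.weak (imp' h1 hR)))
  exact h2.congr fun x => ⟨fun h a b ha hb => ha ▸ hb ▸ h, fun h => h _ _ rfl rfl⟩

theorem subst (ψ : Fml) : ∀ {α : Type v} [Ctx M α] (g : ℕ → α → M),
    (∀ i, DP M fun z : α × M => z.2 = g i z.1) → DP M fun x => Sat (EE M) ψ fun i => g i x := by
  induction ψ with
  | mem i j =>
    exact fun g h => rel (fun a b => a ∈ b) (mem_c (.inl 1) (.inl 0)) (h i) (h j)
  | eq i j =>
    exact fun g h => rel (fun a b => a = b) (eq_c (.inl 1) (.inl 0)) (h i) (h j)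
  | bot => exact fun _ _ => bot
  | imp a b ih1 ih2 => exact fun g h => imp' (ih1 g h) (ih2 g h)
  | all a ih =>
    intro α _ g h
    refine all' (P := fun x y => Sat (EE M) a (push y fun i => g i x)) ?_
    have := ih (α := α × M) (fun i z => push z.2 (fun i => g i z.1) i) (by
      rintro (_ | i)
      · exact eq_c (.inl 0) (.inl 1)
      · exact (h i).ren (fun z : (α × M) × M => (z.1.1, z.2))
          (push (.inl 0) fun i => .inl (i + 2)) fun _ i => by cases i <;> rfl)
    exact this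

theorem comp {β : Type v} [Ctx M β] (Φ : β → Prop) [h : DP M Φ] (g : α → β) [hg : DF M g] :
    DP M fun x => Φ (g x) := by
  obtain ⟨ψ, t, h⟩ := h
  refine (subst ψ (fun i x => (t i).elim (Ctx.c (g x)) id) fun i => ?_).congr fun x => h _
  rcases t i with j | m
  · exact hg.out j
  · exact eq_c (.inl 0) (.inr m)

instance imp (Φ Ψ : α → Prop) [h1 : DP M Φ] [h2 : DP M Ψ] : DP M (no_index fun x => Φ x → Ψ x) :=
  imp' h1 h2

instance all (P : α → M → Prop) [h : DP M fun z : α × M => P z.1 z.2] :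
    DP M (no_index fun x => ∀ y, P x y) := all' h

instance not (Φ : α → Prop) [h1 : DP M Φ] : DP M (no_index fun x => ¬ Φ x) := imp' h1 bot

instance and (Φ Ψ : α → Prop) [h1 : DP M Φ] [h2 : DP M Ψ] : DP M (no_index fun x => Φ x ∧ Ψ x) :=
  (imp' (imp' h1 (imp' h2 bot)) bot).congr fun _ => by tauto

instance or (Φ Ψ : α → Prop) [h1 : DP M Φ] [h2 : DP M Ψ] : DP M (no_index fun x => Φ x ∨ Ψ x) :=
  (imp' (imp' h1 bot) h2).congr fun _ => by tauto

instance iff (Φ Ψ : α → Prop) [DP M Φ] [DP M Ψ] : DP M (no_index fun x => Φ x ↔ Ψ x) :=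
  (and (fun x => Φ x → Ψ x) fun x => Ψ x → Φ x).congr fun _ => iff_iff_implies_and_implies

instance ex (P : α → M → Prop) [h : DP M fun z : α × M => P z.1 z.2] :
    DP M (no_index fun x => ∃ y, P x y) :=
  (imp' (all' (P := fun x y => ¬ P x y) (imp' h bot)) bot).congr fun _ => by
    simp only [imp_false, not_forall, not_not]

instance mem (s t : α → M) [hs : DF M s] [ht : DF M t] : DP M (no_index fun x => s x ∈ t x) :=
  rel (fun a b => a ∈ b) (mem_c (.inl 1) (.inl 0)) (hs.out 0) (ht.out 0)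

instance eq (s t : α → M) [hs : DF M s] [ht : DF M t] : DP M (no_index fun x => s x = t x) :=
  rel (fun a b => a = b) (eq_c (.inl 1) (.inl 0)) (hs.out 0) (ht.out 0)

instance (priority := 2000) const (p : Prop) : DP M (no_index fun _ : α => p) := by
  by_cases h : p
  · exact (imp' bot bot).congr fun _ => by tauto
  · exact bot.congr fun _ => by tauto

end DP

namespace DF

variable {α β : Type v} [Ctx M α] [Ctx M β]

instance (priority := 1500) id : DF M (no_index fun x : α => x) := ⟨fun i => DP.eq_c (.inl 0) (.inl (i + 1))⟩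

instance (priority := 2000) const (b : β) : DF M (no_index fun _ : α => b) :=
  ⟨fun i => DP.eq_c (.inl 0) (.inr (Ctx.c b i))⟩

instance fst (g : α → β × M) [h : DF M g] : DF M (no_index fun x => (g x).1) := ⟨fun i => h.out (i + 1)⟩

instance snd (g : α → β × M) [h : DF M g] : DF M (no_index fun x => (g x).2) := ⟨fun _ => h.out 0⟩

instance (priority := 500) pair (f : α → β) (g : α → M) [hf : DF M f] [hg : DF M g] :
    DF M (no_index fun x => (f x, g x)) := ⟨by
  rintro (_ | i)
  · exact hg.out 0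
  · exact hf.out i⟩

theorem of_graph {f : α → M} (h : DP M fun z : α × M => z.2 = f z.1) : DF M f := ⟨fun _ => h⟩

theorem comp {γ : Type v} [Ctx M γ] (f : β → γ) [hf : DF M f] (g : α → β) [DF M g] :
    DF M fun x => f (g x) :=
  ⟨fun i => @DP.comp M _ _ _ _ _ _ (hf.out i) (fun z : α × M => (g z.1, z.2)) (by
    have : DF M fun z : α × M => g z.1 := ⟨fun i => (DF.out (M := M) (f := g) i).ren
      (fun z : (α × M) × M => (z.1.1, z.2)) (push (.inl 0) fun i => .inl (i + 2))
        fun _ i => by cases i <;> rfl⟩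
    infer_instance)⟩

end DF

theorem DP.sat₁ (m : M) (Q : M → Prop) [h : DP M Q] :
    ∃ (φ : Fml) (v : ℕ → M), ∀ z, Q z ↔ Sat (EE M) φ (push z v) := by
  obtain ⟨ψ, t, h⟩ := h
  refine ⟨rename (fun i => (t i).elim (fun _ => 0) fun _ => i + 1) ψ,
    fun i => (t i).elim (fun _ => m) id, fun z => ?_⟩
  rw [h, sat_rename]
  have : (fun i => (t i).elim (Ctx.c z) id) = fun i => push z
      (fun i => (t i).elim (fun _ => m) id) ((t i).elim (fun _ => 0) fun _ => i + 1) := by
    funext i
    rcases ht : t i with k | k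
    · rfl
    · simp [push, ht]
  rw [this]

theorem DP.sat₂ (m : M) (Q : M → M → Prop) [h : DP M fun z : M × M => Q z.1 z.2] :
    ∃ (φ : Fml) (v : ℕ → M), ∀ a b, Q a b ↔ Sat (EE M) φ (push b (push a v)) := by
  obtain ⟨ψ, t, h⟩ := h
  refine ⟨rename (fun i => (t i).elim (fun k => min k 1) fun _ => i + 2) ψ,
    fun i => (t i).elim (fun _ => m) id, fun a b => ?_⟩
  rw [h (a, b), sat_rename]
  have : (fun i => (t i).elim (Ctx.c (a, b)) id) = fun i => push b (push a
      (fun i => (t i).elim (fun _ => m) id)) ((t i).elim (fun k => min k 1) fun _ => i + 2) := by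
    funext i
    rcases ht : t i with (_ | k) | k
    · rfl
    · have : min (k + 1) 1 = 1 := by omega
      simp only [Sum.elim_inl, this]; rfl
    · simp [push, ht]
  rw [this]

end Pool.Agent.Lib.MP_783f50_lc
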