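import Pool.Agent.Lib.MP_2739cb_lc.Defs

/-!
The graph-theoretic notions of the problem, read inside a structure `(M, E)`.
A graph is a pair `(V, A)` with `A` a symmetric irreflexive set of ordered pairs of vertices.
-/

namespace Pool.Agent.Lib.MP_783f50_lc

open Pool.Agent.Lib.MP_2739cb_lc

universe v

variable {M : Type v} (E : M → M → Prop)

/-- `a` is a nonzero limit ordinal. -/
def IsLimit (a : M) : Prop :=
  IsOrd E a ∧ (∃ b, E b a) ∧ ∀ b, E b a → ∃ c, E c a ∧ E b c

/-- `w` is the least nonzero limit ordinal. -/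
def IsOmega (w : M) : Prop := IsLimit E w ∧ ∀ a, E a w → ¬ IsLimit E a

/-- `w₁` is the least ordinal that does not inject into `w`. -/
def IsOmega1 (w w₁ : M) : Prop :=
  IsOrd E w₁ ∧ ¬ CardLe E w₁ w ∧ ∀ a, E a w₁ → CardLe E a w

/-- `s = x ∪ {x}`. -/
def IsSucc (s x : M) : Prop := ∀ z, E z s ↔ E z x ∨ z = x

/-- `(V, A)` is a simple graph: `A` is a symmetric irreflexive set of pairs of elements of `V`. -/
def IsGraph (V A : M) : Prop :=
  (∀ p, E p A → ∃ a b, E a V ∧ E b V ∧ IsPair E p a b) ∧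
    (∀ a b, App E A a b → App E A b a) ∧ ∀ a, ¬ App E A a a

/-- `f` is a path from `a` to `b` along `A` inside `X`: an injective sequence
`f 0 = a, …, f n = b` of elements of `X` (`n ∈ w`) with consecutive members adjacent. -/
def IsPath (w A X f a b : M) : Prop :=
  ∃ n m, E n w ∧ IsSucc E m n ∧ IsInj E f m X ∧ (∃ z, (∀ t, ¬ E t z) ∧ App E f z a) ∧
    App E f n b ∧ ∀ i j x y, IsSucc E j i → App E f i x → App E f j y → App E A x y

/-- `X` is nonempty and any two of its elements are joined by a path along `A` inside `X`. -/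
def Connected (w A X : M) : Prop :=
  (∃ a, E a X) ∧ ∀ a b, E a X → E b X → ∃ f, IsPath E w A X f a b

/-- There is no cycle: a path whose ends are adjacent has no inner vertex. -/
def Acyclic (w T V : M) : Prop :=
  ∀ f a b, IsPath E w T V f a b → App E T b a → ∀ i x, App E f i x → x = a ∨ x = b

/-- The tree order: `x` lies on the path in `T` from the root `r` to `y`. -/
def TreeLe (w T V r x y : M) : Prop := ∃ f, IsPath E w T V f r y ∧ ∃ i, App E f i x

/-- `(V, A)` has a normal spanning tree. -/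
def HasNST (w V A : M) : Prop :=
  ∃ T r, IsGraph E V T ∧ Sub E T A ∧ E r V ∧ Connected E w T V ∧ Acyclic E w T V ∧
    ∀ a b, App E A a b → TreeLe E w T V r a b ∨ TreeLe E w T V r b a

/-- `(U, B)` is a minor of `(V, A)` with countable branch sets. -/
def IsMinor (w U B V A : M) : Prop :=
  ∃ β C, IsFun E β U C ∧
    (∀ x X, App E β x X → Sub E X V ∧ Connected E w A X ∧ CardLe E X w) ∧
    (∀ x y X Y z, App E β x X → App E β y Y → E z X → E z Y → x = y) ∧
    ∀ x y X Y, App E B x y → App E β x X → App E β y Y → ∃ a b, E a X ∧ E b Y ∧ App E A a b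

/-- `(U, B)` is bipartite with sides `P`, `Q` of sizes `w`, `w₁`, and every vertex of `Q` has
infinite degree. -/
def IsAleph01 (w w₁ U B : M) : Prop :=
  ∃ P Q, (∀ z, E z U ↔ E z P ∨ E z Q) ∧ (∀ z, E z P → ¬ E z Q) ∧ CardEq E w P ∧ CardEq E w₁ Q ∧
    (∀ x y, App E B x y → (E x P ∧ E y Q) ∨ (E x Q ∧ E y P)) ∧
    ∀ y, E y Q → ∃ N, CardLe E w N ∧ ∀ x, E x N → App E B y x

/-- `C` is closed and unbounded in `k`. -/
def IsClub (k C : M) : Prop :=
  Sub E C k ∧ (∀ a, E a k → ∃ c, E c C ∧ E a c) ∧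
    ∀ d, E d k → (∃ a, E a d) → (∀ a, E a d → ∃ c, E c C ∧ E a c ∧ E c d) → E d C

/-- `S ⊆ k` meets every club of `k`. -/
def IsStationary (k S : M) : Prop := Sub E S k ∧ ∀ C, IsClub E k C → ∃ s, E s S ∧ E s C

/-- Every `s ∈ S` has countably many `B`-neighbours below `s`, and these are cofinal in `s`. -/
def IsSGraph (w B S : M) : Prop :=
  ∀ s, E s S → (∃ N, CardLe E N w ∧ ∀ x, E x N ↔ E x s ∧ App E B s x) ∧
    ∀ a, E a s → ∃ b, E b s ∧ App E B s b ∧ (E a b ∨ a = b)

end Pool.Agent.Lib.MP_783f50_lc
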