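import Pool.Agent.Lib.MP_783f50_lc.Levy

/-! The reflection dichotomy holds in the Levy collapse of a supercompact cardinal. -/

namespace Pool.Agent.Lib.MP_783f50_lc

open Pool.Agent.Lib.MP_2739cb_lc Nm Cardinal Set Filter

set_option synthInstance.maxSize 100000

universe u v

variable {K I : Type u} [LinearOrder K] (m : Meas K I)

theorem ae_supp (q : Cond K) : ∀ᶠ x in m.U, Supp (m.X x) q :=
  have := m.cc
  (eventually_countable_ball q.ct).2 fun a _ => m.fX a.1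

theorem ae_sub {y : Set I} (hy : y.Countable) : ∀ᶠ x in m.U, ∀ i ∈ y, i ∈ m.Y x :=
  have := m.cc
  (eventually_countable_ball hy).2 fun a _ => m.fY a

theorem ae_res (p : m.Ω → Cond K) :
    ∃ q : Cond K, ∀ᶠ x in m.U, leX (m.X x) q (p x) ∧ p x ≤ q := by
  have := m.cc
  obtain ⟨a, ha⟩ := m.rX.ctbl (fun x => (mix (m.X x) (p x) ⊤).s) (Eventually.of_forall fun x =>
    ⟨Cond.ct _, fun t ht => ⟨ht.elim And.left fun h => h.2.elim, Cond.le _ t ht⟩⟩)
  obtain ⟨x0, h0⟩ := ha.exists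
  refine ⟨mix (m.X x0) (p x0) ⊤, ha.mono fun x hx => ⟨fun b hb h => ?_, fun b hb => ?_⟩⟩
  · rw [h0, ← hx]; exact Or.inl ⟨h, hb⟩
  · rw [h0, ← hx] at hb; exact hb.elim And.right fun h => h.2.elim

variable [LinearOrder I] [WellFoundedLT I]
  {V S c : Nm (Cond K)} {B : I → Nm (Cond K)} {a0 : RO (Cond K)}

theorem ae_cl (b1 : ∀ i p, a0.s p → FMem (B i) V p) (b2 : Spans B V)
    (hH : ∀ p, a0.s p → (hypR V c).s p) :
    ∀ᶠ x in m.U, ∀ p, a0.s p → (clR (gN B (m.k x) (m.e x)) c).s p := by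
  have := m.cc
  by_contra hc
  have key : ∀ x, ∃ p β, (¬ ∀ p, a0.s p → (clR (gN B (m.k x) (m.e x)) c).s p) → a0.s p ∧
      (RO.not (RO.ex fun z => RO.and (appR c (hat B (yOf (m.k x) (m.e x) p β)) z)
        (RO.all fun t => RO.imp (RO.mem t z) (RO.ex fun a => RO.and (RO.mem a om1N)
          (appR (gN B (m.k x) (m.e x)) a t))))).s p := fun x => by
    by_cases h : ∀ p, a0.s p → (clR (gN B (m.k x) (m.e x)) c).s p
    · obtain ⟨β, -⟩ := exists_notMem_W1.{u} countable_empty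
      exact ⟨⊤, β, fun h1 => absurd h h1⟩
    simp only [RO.all_s, RO.imp_s, not_forall] at h
    obtain ⟨p, h1, α, y, q, hq, h2, r, hr, h3, h4⟩ := h
    obtain ⟨r1, hr1, h5⟩ := RO.exists_not h4
    obtain ⟨r2, hr2, β, h6⟩ := mem_om1N h2 r1 (hr1.trans hr)
    obtain ⟨r3, hr3, h7⟩ := ext_doms r2 (m.k x) β
    have h8 := img_gN (B := B) (e := m.e x) h7 (fun z t _ hz => of_mem_hat hz t le_rfl)
      fun i hi => mem_hat hi _
    have h9 : (imgR (gN B (m.k x) (m.e x)) (nw β) y).s r3 :=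
      Ext.subst (fun α => imgR _ α y) (h6.mono hr3) fun v =>
        RO.mono (h3 v) (hr3.trans (hr2.trans hr1))
    have h10 : FEq y (hat B (yOf (m.k x) (m.e x) r3 β)) r3 := FEq.ext fun z t ht =>
      ((RO.iff_s _ _ _).1 (h9 z) t ht).trans ((RO.iff_s _ _ _).1 (h8 z) t ht).symm
    exact ⟨r3, β, fun _ => ⟨RO.mono h1 (hr3.trans (hr2.trans (hr1.trans (hr.trans hq)))),
      Ext.subst (fun y => RO.not (RO.ex fun z => RO.and (appR c y z)
        (RO.all fun t => RO.imp (RO.mem t z) (RO.ex fun a => RO.and (RO.mem a om1N)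
          (appR (gN B (m.k x) (m.e x)) a t))))) h10
        (RO.mono h5 (hr3.trans hr2))⟩⟩
  choose p β hp using key
  have h1 := (Ultrafilter.eventually_not.2 hc).mono hp
  obtain ⟨y, hy⟩ := m.rY.ctbl (fun x => yOf (m.k x) (m.e x) (p x) (β x))
    (m.eY.mono fun x hx => ⟨yOf_ctbl _ _, by rintro _ ⟨_, j, -, -, rfl⟩; exact hx j⟩)
  have hy' : y.Countable := by
    obtain ⟨x, hx⟩ := hy.exists
    exact hx ▸ yOf_ctbl _ _
  obtain ⟨q, hq⟩ := ae_res m p
  have h2 : a0.s q := RO.reg fun r hr => by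
    obtain ⟨x, h2, h3, h4⟩ := (h1.and (hq.and (ae_supp m r))).exists
    exact ⟨_, mix_le_left h4 (p x), RO.mono h2.1 (mix_le_right ((leX_of_le hr).trans h3.1))⟩
  obtain ⟨r, hr, z, h3, h4, h5⟩ := hH q h2 (hat B y) q le_rfl
    (fun z t ht hz => FMem.reg fun w hw => by
      obtain ⟨w1, hw1, i, -, h3⟩ := of_mem_hat hz w hw
      exact ⟨w1, hw1, (b1 i w1 (RO.mono h2 (hw1.trans (hw.trans ht)))).subst_left h3.symm⟩)
    q le_rfl (cov_hat hy' q) q le_rfl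
  obtain ⟨r1, hr1, z0, h6, -, h7⟩ := ground b2 h3 h4
  obtain ⟨x, h8, h9, h10, h11, h12⟩ :=
    (h1.and (hy.and (hq.and ((ae_supp m r1).and (ae_sub m h6))))).exists
  have h13 := mix_le_left h11 (p x)
  refine h8.2 _ (mix_le_right ((leX_of_le (hr1.trans hr)).trans h10.1))
    (RO.ex_intro z ⟨h9 ▸ RO.mono h5 (h13.trans hr1), fun t w hw ht w1 hw1 => ?_⟩)
  obtain ⟨w2, hw2, i, hi, h14⟩ := h7 t w1 (hw1.trans (hw.trans h13)) (FMem.mono ht hw1)
  obtain ⟨j, h15, rfl⟩ := m.eS x i (h12 i hi)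
  obtain ⟨w3, hw3, ξ, h16⟩ := ext_ran w2 h15
  exact ⟨w3, hw3.trans hw2, nw ξ, nw_mem _ _,
    Ext.subst (fun b => appR _ _ b) (h14.mono hw3).symm (app_gN h16)⟩

include m in
theorem exists_sys (b1 : ∀ i p, a0.s p → FMem (B i) V p) (b2 : Spans B V)
    (hH : ∀ p, a0.s p → (hypR V c).s p) (hR : ∀ p, a0.s p → (RO.not (reflR V S c)).s p) :
    ∃ Val, Sys V S B a0 Val := by
  have := m.cc
  choose f hf using fun x => max_principle fun f : Nm (Cond K) =>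
    RO.and (totR f om1N om1N) (RO.not (stR (gN B (m.k x) (m.e x)) S f))
  have h1 : ∀ᶠ x in m.U, ∀ p, a0.s p → (totR (f x) om1N om1N).s p ∧
      (RO.not (stR (gN B (m.k x) (m.e x)) S (f x))).s p := by
    refine (ae_cl m b1 b2 hH).mono fun x hx p hp => hf x p (RO.by_contra fun q hq hn => ?_)
    have hq0 := RO.mono hp hq
    refine hR q hq0 q le_rfl (RO.ex_intro _ ⟨tot_gN fun i => b1 i q hq0, func_gN q, hx q hq0,
      fun g r hr h2 => RO.by_contra fun t ht h3 => ?_⟩)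
    exact hn t (ht.trans hr) (RO.ex_intro g ⟨RO.mono h2 ht, h3⟩)
  obtain ⟨β0, -⟩ := exists_notMem_W1.{u} countable_empty
  refine ⟨fun s q y => ∀ᶠ x in m.U, ∃ d, ValX m x (f x) β0 s q d ∧
    yOf (m.k x) (m.e x) d.1 d.2 = y, b1, b2, fun s p q y hq h => ?_, fun s p y y' h h' => ?_,
    fun s p y h => ?_, fun s p hp => ?_, fun p y h => ?_, fun a N q ys hq h2 h3 h4 h5 => ?_⟩
  · exact h.mono fun x ⟨d, h2, h3⟩ => ⟨d, h2.mono (leX_of_le hq), h3⟩
  · obtain ⟨x, ⟨d, h2, rfl⟩, d', h3, rfl⟩ := (h.and h').exists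
    rw [h2.fn h3]
  · obtain ⟨x, d, -, rfl⟩ := h.exists
    exact yOf_ctbl _ _
  · have key : ∀ x, ∃ q d, (∀ t, (totR (f x) om1N om1N).s (mix (m.X x) p t)) →
        leX (m.X x) q p ∧ ValX m x (f x) β0 s q d := fun x => by
      by_cases h : ∀ t, (totR (f x) om1N om1N).s (mix (m.X x) p t)
      · obtain ⟨q, h2, d, h3⟩ := valX_dense (β0 := β0) s h
        exact ⟨q, d, fun _ => ⟨h2, h3⟩⟩
      · exact ⟨⊤, (⊤, β0), fun h2 => absurd h2 h⟩
    choose q d hq using key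
    have h2 : ∀ᶠ x in m.U, leX (m.X x) (q x) p ∧ ValX m x (f x) β0 s (q x) (d x) :=
      (h1.and (ae_supp m p)).mono fun x hx =>
        hq x fun t => (hx.1 _ (RO.mono hp (mix_le_left hx.2 t))).1
    obtain ⟨y, hy⟩ := m.rY.ctbl (fun x => yOf (m.k x) (m.e x) (d x).1 (d x).2)
      (m.eY.mono fun x hx => ⟨yOf_ctbl _ _, by rintro _ ⟨_, j, -, -, rfl⟩; exact hx j⟩)
    obtain ⟨r, hr⟩ := ae_res m q
    refine ⟨r, ?_, y, (h2.and (hy.and hr)).mono fun x hx => ⟨d x, hx.1.2.mono hx.2.2.1, hx.2.1⟩⟩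
    obtain ⟨x, h3, h4, h5⟩ := (h2.and (hr.and (ae_supp m p))).exists
    exact fun b hb => h4.1 b (h3.1 b hb (h5 b hb)) (h5 b hb)
  · obtain ⟨x, d, rfl, rfl⟩ := h.exists
    exact eq_empty_of_forall_notMem fun _ ⟨_, _, _, h, _⟩ => h.elim
  · obtain ⟨x, h6, h7, h8, h9⟩ := (h1.and ((eventually_countable_forall.2 h2).and
      ((ae_supp m q).and (ae_sub m (countable_range a))))).exists
    choose d hd hd' using h7
    obtain ⟨p, h10, h11⟩ := valX_st h8 (fun n => h9 _ ⟨n, rfl⟩) hd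
      (fun n i hi => h3 n i (hd' n ▸ hi)) h4 h5
    exact (h6 q hq).2 p h10 h11

theorem dich_levy {κ : Cardinal.{u}} (hκ : IsSupercompact κ) :
    Dich (MP_2739cb_lc.Mod (Cond κ.ord.ToType)) := by
  intro V S c h1 h2
  refine (em _).imp id fun h3 => ?_
  let a0 := RO.and (RO.ex fun a => RO.mem a (rep V)) (RO.and (hypR (rep V) (rep c))
    (RO.not (reflR (rep V) (rep S) (rep c))))
  have ha : T a0 := by
    simp only [a0, ↓T_cov, T_and, T_not, T_all, T_ex, T_imp, T_iff, T_mem, T_eq, T_app, cls_rep]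
    exact ⟨h1, h2, h3⟩
  obtain ⟨p, hp⟩ := ha.nonempty
  obtain ⟨_, -, _, hb⟩ := hp.1 p le_rfl
  obtain ⟨_, -, i, -⟩ := hb _ le_rfl
  have : Nonempty (rep V).ι := ⟨i⟩
  obtain ⟨m⟩ := exists_meas hκ (rep V).ι
  obtain ⟨_, _⟩ := exists_wellFoundedLT (rep V).ι
  choose B hB using fun i : (rep V).ι => max_principle fun z => RO.and (RO.mem z (rep V))
    (RO.imp (RO.dense (· ≤ (rep V).c i)) (RO.eq z ((rep V).A i)))
  have hB' : ∀ i p, (RO.ex fun a => RO.mem a (rep V)).s p → _ := fun i p hp => hB i p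
    fun q hq => by
      by_cases h : ∃ r, r ≤ q ∧ r ≤ (rep V).c i
      · obtain ⟨r, h4, h5⟩ := h
        exact ⟨r, h4, _, FMem.of_le i h5, fun _ _ _ => FEq.refl _ _⟩
      · obtain ⟨r, hr, a, h4⟩ := hp q hq
        refine ⟨r, hr, a, h4, fun t ht h5 => ?_⟩
        obtain ⟨w, hw, h6⟩ := h5 t le_rfl
        exact absurd ⟨w, hw.trans (ht.trans hr), h6⟩ h
  obtain ⟨Val, h⟩ := exists_sys m (a0 := a0) (B := B) (fun i p hp => (hB' i p hp.1).1)
    (fun z p hz => by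
      obtain ⟨r, hr, i, h4, h5⟩ := hz p le_rfl
      exact ⟨r, hr, i, h5.trans ((hB' i r (RO.ex_intro z (hz.mono hr))).2 r le_rfl
        fun t ht => ⟨t, le_rfl, ht.trans h4⟩).symm⟩)
    (fun p hp => hp.2.1) fun p hp => hp.2.2
  exact exists_clsys h ha

end Pool.Agent.Lib.MP_783f50_lc
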