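import Pool.Agent.Lib.MP_783f50_lc.Minor

/-! General facts on countably closed forcing: the quotient model is a `ZM`. -/

namespace Pool.Agent.Lib.MP_783f50_lc

open Pool.Agent.Lib.MP_2739cb_lc Nm Cardinal Set

universe u v

variable {P : Type u} [Preorder P] [OrderTop P]

theorem fmem_pairNm (x y z : Nm P) (p : P) :
    FMem z (pairNm x y) p ↔ (RO.or (RO.eq z x) (RO.eq z y)).s p := by
  constructor
  · intro h r hr
    obtain ⟨t, ht, ⟨_ | _⟩, -, h1⟩ := h r hr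
    · exact ⟨t, ht, Or.inr h1⟩
    · exact ⟨t, ht, Or.inl h1⟩
  · intro h r hr
    obtain ⟨t, ht, h1 | h1⟩ := h r hr
    · exact ⟨t, ht, ⟨true⟩, le_top, h1⟩
    · exact ⟨t, ht, ⟨false⟩, le_top, h1⟩

def opNm (a b : Nm P) : Nm P := pairNm (pairNm a a) (pairNm a b)

theorem sing_pair (a : Nm P) (p : P) :
    (RO.all fun t => RO.iff (RO.mem t (pairNm a a)) (RO.eq t a)).s p := fun t =>
  (RO.iff_s _ _ _).2 fun q _ => ⟨fun h => FEq.reg fun r hr => by
    obtain ⟨s, hs, h1⟩ := (fmem_pairNm _ _ _ _).1 h r hr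
    exact ⟨s, hs, h1.elim id id⟩, fun h => (fmem_pairNm _ _ _ _).2 (RO.or_inl h)⟩

theorem doub_pair (a b : Nm P) (p : P) :
    (RO.all fun t => RO.iff (RO.mem t (pairNm a b)) (RO.or (RO.eq t a) (RO.eq t b))).s p :=
  fun _ => (RO.iff_s _ _ _).2 fun _ _ => fmem_pairNm _ _ _ _

theorem pairR_opNm (a b : Nm P) (p : P) : (pairR (opNm a b) a b).s p := by
  intro z
  refine (RO.iff_s _ _ _).2 fun q _ => ⟨fun h r hr => ?_, fun h => ?_⟩
  · obtain ⟨s, hs, h1 | h1⟩ := (fmem_pairNm _ _ _ _).1 h r hr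
    · exact ⟨s, hs, Or.inl (Ext.subst (fun z => RO.all fun t => RO.iff (RO.mem t z) (RO.eq t a))
        (FEq.symm h1) (sing_pair a s))⟩
    · exact ⟨s, hs, Or.inr (Ext.subst (fun z => RO.all fun t => RO.iff (RO.mem t z)
        (RO.or (RO.eq t a) (RO.eq t b))) (FEq.symm h1) (doub_pair a b s))⟩
  · refine (fmem_pairNm _ _ _ _).2 fun r hr => ?_
    obtain ⟨s, hs, h1 | h1⟩ := h r hr
    · exact ⟨s, hs, Or.inl (FEq.ext fun t w hw => ((RO.iff_s _ _ _).1 (h1 t) w hw).trans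
        ((RO.iff_s _ _ _).1 (sing_pair a s t) w hw).symm)⟩
    · exact ⟨s, hs, Or.inr (FEq.ext fun t w hw => ((RO.iff_s _ _ _).1 (h1 t) w hw).trans
        ((RO.iff_s _ _ _).1 (doub_pair a b s t) w hw).symm)⟩

theorem pairR_inj {a b a' b' : Nm P} {p : P} (h : (pairR (opNm a b) a' b').s p) :
    FEq a a' p ∧ FEq b b' p := by
  have H := fun z q hq => (RO.iff_s _ _ _).1 (h z) q hq
  have l : ∀ (x y : Nm P) q, FMem x (pairNm x y) q := fun x y q =>
    (fmem_pairNm _ _ _ _).2 (RO.or_inl (FEq.refl _ _))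
  have r : ∀ (x y : Nm P) q, FMem y (pairNm x y) q := fun x y q =>
    (fmem_pairNm _ _ _ _).2 (RO.or_inr (FEq.refl _ _))
  have ha : FEq a a' p := FEq.reg fun q hq => by
    obtain ⟨s, hs, h1 | h1⟩ := (H _ q hq).1 (l _ _ q) q le_rfl
    · exact ⟨s, hs, (h1 a).1 s le_rfl (l _ _ s)⟩
    · obtain ⟨t, ht, h2⟩ := (fmem_pairNm _ _ _ _).1
        ((h1 a').2 s le_rfl (RO.or_inl (FEq.refl _ _))) s le_rfl
      exact ⟨t, ht.trans hs, (h2.elim id id : FEq a' a t).symm⟩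
  refine ⟨ha, FEq.reg fun q hq => ?_⟩
  have h1 : ∃ s, s ≤ q ∧ (FEq b a' s ∨ FEq b b' s) := by
    obtain ⟨s, hs, h1 | h1⟩ := (H _ q hq).1 (r _ _ q) q le_rfl
    · exact ⟨s, hs, Or.inl ((h1 b).1 s le_rfl (r _ _ s))⟩
    · obtain ⟨t, ht, h2⟩ := (h1 b).1 s le_rfl (r _ _ s) s le_rfl
      exact ⟨t, ht.trans hs, h2⟩
  obtain ⟨s, hs, h1 | h1⟩ := h1
  swap
  · exact ⟨s, hs, h1⟩
  obtain ⟨t, ht, h2⟩ := (fmem_pairNm _ _ _ _).1
    ((H _ s (hs.trans hq)).2 (RO.or_inr (doub_pair a' b' s))) s le_rfl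
  have h3 : ∃ w, w ≤ t ∧ (FEq b' a w ∨ FEq b' b w) := by
    rcases h2 with h2 | h2
    · obtain ⟨w, hw, h3⟩ := (fmem_pairNm _ _ _ _).1 ((r a' b' t).subst_right h2) t le_rfl
      exact ⟨w, hw, Or.inl (h3.elim id id)⟩
    · exact (fmem_pairNm _ _ _ _).1 ((r a' b' t).subst_right h2) t le_rfl
  obtain ⟨w, hw, h3 | h3⟩ := h3
  · have hw' : w ≤ s := hw.trans ht
    exact ⟨w, hw'.trans hs, ((h1.mono hw').trans (ha.mono (hw'.trans (hs.trans hq))).symm).trans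
      h3.symm⟩
  · exact ⟨w, hw.trans (ht.trans hs), h3.symm⟩

def relNm (ι : Type u) (a b : ι → Nm P) (c : ι → P) : Nm P :=
  Nm.mk ι (fun i => opNm (a i) (b i)) c

theorem app_relNm {ι : Type u} {a b : ι → Nm P} {c : ι → P} (i : ι) {p : P} (h : p ≤ c i) :
    (appR (relNm ι a b c) (a i) (b i)).s p :=
  RO.ex_intro (opNm (a i) (b i)) ⟨FMem.of_le (y := relNm ι a b c) i h, pairR_opNm _ _ _⟩

theorem of_app_relNm {ι : Type u} {a b : ι → Nm P} {c : ι → P} {x y : Nm P} {p : P}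
    (h : (appR (relNm ι a b c) x y).s p) :
    ∀ q, q ≤ p → ∃ r, r ≤ q ∧ ∃ i, r ≤ c i ∧ FEq x (a i) r ∧ FEq y (b i) r := by
  intro q hq
  obtain ⟨r, hr, z, h1, h2⟩ := h q hq
  obtain ⟨s, hs, i, h3, h4⟩ := h1 r le_rfl
  have := pairR_inj (Ext.subst (fun z => pairR z x y) h4 (RO.mono h2 hs))
  exact ⟨s, hs.trans hr, i, h3, this.1.symm, this.2.symm⟩

noncomputable abbrev omN : Nm P := on Ordinal.omega0

abbrev funcR (f : Nm P) : RO P :=
  RO.all fun n => RO.all fun b => RO.all fun b' =>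
    RO.imp (appR f n b) (RO.imp (appR f n b') (RO.eq b b'))

noncomputable abbrev covR (Z : Nm P) : RO P :=
  RO.ex fun f => RO.and (funcR f)
    (RO.all fun z => RO.imp (RO.mem z Z) (RO.ex fun n => RO.and (RO.mem n omN) (appR f n z)))

theorem T_cov (Z : Nm P) : T (covR Z) ↔ Cov EM (cls omN) (cls Z) := by
  simp only [covR, funcR, Cov, T_ex, T_and, T_all, T_imp, T_mem, T_eq, T_app, cls_rep]

theorem mem_omN {x : Nm P} {p : P} (h : FMem x omN p) :
    ∀ q, q ≤ p → ∃ r, r ≤ q ∧ ∃ n : ℕ, FEq x (on n) r := by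
  intro q hq
  obtain ⟨r, hr, a, ha, h1⟩ := mem_on h q hq
  obtain ⟨n, rfl⟩ := Ordinal.lt_omega0.1 ha
  exact ⟨r, hr, n, h1⟩

theorem cov_intro {Z : Nm P} {p : P} (s : ℕ → Nm P)
    (h : ∀ z q, q ≤ p → FMem z Z q → ∃ r, r ≤ q ∧ ∃ n, FEq z (s n) r) : (covR Z).s p := by
  refine RO.ex_intro (relNm (ULift.{u} ℕ) (fun n => on n.down) (fun n => s n.down) fun _ => ⊤)
    ⟨fun n b b' q _ h1 r hr h2 => FEq.reg fun t ht => ?_, fun z q hq hz r hr => ?_⟩
  · obtain ⟨t1, ht1, i, -, h3, h4⟩ := of_app_relNm h1 t (ht.trans hr)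
    obtain ⟨t2, ht2, j, -, h5, h6⟩ := of_app_relNm h2 t1 (ht1.trans ht)
    have : i.down = j.down := by exact_mod_cast on_inj ((h3.mono ht2).symm.trans h5)
    exact ⟨t2, ht2.trans ht1, (h4.mono ht2).trans (this ▸ h6.symm)⟩
  · obtain ⟨t, ht, n, h1⟩ := h z r (hr.trans hq) (FMem.mono hz hr)
    exact ⟨t, ht, on n, on_mem (Ordinal.natCast_lt_omega0 n) t,
      Ext.subst (fun z => appR _ (on n) z) h1.symm (app_relNm (ULift.up n) le_top)⟩

theorem cov_seq (Z : Nm P) : ∃ s : ℕ → Nm P, ∀ p, (covR Z).s p → ∀ z q, q ≤ p → FMem z Z q →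
    ∃ r, r ≤ q ∧ ∃ n, FEq z (s n) r := by
  obtain ⟨f, hf⟩ := max_principle fun f : Nm P => RO.and (funcR f)
    (RO.all fun z => RO.imp (RO.mem z Z) (RO.ex fun n => RO.and (RO.mem n omN) (appR f n z)))
  choose s hs using fun n : ℕ => max_principle fun z : Nm P => appR f (on n) z
  refine ⟨s, fun p hp z q hq hz => ?_⟩
  obtain ⟨h1, h2⟩ := hf p hp
  obtain ⟨r, hr, n, h3, h4⟩ := h2 z q hq hz q le_rfl
  obtain ⟨t, ht, k, h5⟩ := mem_omN h3 r le_rfl
  have h6 : (appR f (on k) z).s t := Ext.subst (fun n => appR f n z) h5 (RO.mono h4 ht)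
  exact ⟨t, ht.trans hr, k, h1 _ _ _ t (ht.trans (hr.trans hq)) h6 t le_rfl
    (hs k t (RO.ex_intro z h6))⟩

theorem M_cunion (Y U : MP_2739cb_lc.Mod P) (h1 : Cov EM (cls omN) Y)
    (h2 : ∀ y, EM y Y → Cov EM (cls omN) y) (h3 : ∀ z, EM z U → ∃ y, EM y Y ∧ EM z y) :
    Cov EM (cls omN) U := by
  have H1 : T (covR (rep Y)) := by rwa [T_cov, cls_rep]
  have H2 : T (RO.all fun y => RO.imp (RO.mem y (rep Y)) (covR y)) := by
    simpa only [T_all, T_imp, T_mem, T_cov, cls_rep] using h2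
  have H3 : T (RO.all fun z => RO.imp (RO.mem z (rep U))
      (RO.ex fun y => RO.and (RO.mem y (rep Y)) (RO.mem z y))) := by
    simpa only [T_all, T_imp, T_ex, T_and, T_mem, cls_rep] using h3
  obtain ⟨s, hs⟩ := cov_seq (rep Y)
  choose t ht using fun n => cov_seq (s n)
  rw [← cls_rep U, ← T_cov]
  refine ((T_and _ _).2 ⟨H1, H2⟩).mono₂ H3 fun p ⟨hp1, hp2⟩ hp3 =>
    cov_intro (fun n => t n.unpair.1 n.unpair.2) fun z q hq hz => ?_
  obtain ⟨r, hr, y, h4, h5⟩ := hp3 z q hq hz q le_rfl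
  obtain ⟨r1, hr1, n, h6⟩ := hs p hp1 y r (hr.trans hq) h4
  obtain ⟨r2, hr2, m, h7⟩ := ht n r1 (hp2 (s n) r1 (hr1.trans (hr.trans hq))
    ((FMem.mono h4 hr1).subst_left h6)) z r1 le_rfl ((FMem.mono h5 hr1).subst_right h6)
  exact ⟨r2, hr2.trans (hr1.trans hr), Nat.pair n m, by simpa using h7⟩

theorem M_clique (X R : MP_2739cb_lc.Mod P) : ∃ C, MP_2739cb_lc.Sub EM C X ∧ (∀ a b, EM a C → EM b C → App EM R a b) ∧
    ∀ a, EM a X → App EM R a a → (∀ b, EM b C → App EM R a b ∧ App EM R b a) → EM a C := by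
  let N := rep X
  let r := rep R
  obtain ⟨_, _⟩ := exists_wellFoundedLT N.ι
  let F : ∀ i : N.ι, (∀ j, j < i → RO P) → RO P := fun i rec =>
    RO.and (RO.mem (N.A i) N) (RO.and (appR r (N.A i) (N.A i))
      (RO.all fun j : {j // j < i} => RO.imp (rec j.1 j.2)
        (RO.and (appR r (N.A i) (N.A j.1)) (appR r (N.A j.1) (N.A i)))))
  let c : N.ι → RO P := WellFoundedLT.fix F
  have hc : ∀ i, c i = F i fun j _ => c j := fun i => WellFoundedLT.fix_eq F i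
  let C : Nm P := Nm.mk {t : N.ι × P // (c t.1).s t.2} (fun t => N.A t.1.1) fun t => t.1.2
  have hC1 : ∀ i p, (c i).s p → FMem (N.A i) C p := fun i p h =>
    FMem.of_le (y := C) ⟨(i, p), h⟩ le_rfl
  have hC2 : ∀ z p, FMem z C p → ∀ q, q ≤ p → ∃ t, t ≤ q ∧ ∃ i, (c i).s t ∧ FEq z (N.A i) t := by
    intro z p h q hq
    obtain ⟨t, ht, j, h1, h2⟩ := h q hq
    exact ⟨t, ht, j.1.1, RO.mono j.2 h1, h2⟩
  have H1 : T (RO.all fun z => RO.imp (RO.mem z C) (RO.mem z N)) :=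
    T.of_forall fun p z q _ hz => FMem.reg fun s hs => by
      obtain ⟨t, ht, i, h1, h2⟩ := hC2 z q hz s hs
      rw [hc] at h1
      exact ⟨t, ht, FMem.subst_left h1.1 h2.symm⟩
  have H2 : T (RO.all fun a => RO.all fun b =>
      RO.imp (RO.mem a C) (RO.imp (RO.mem b C) (appR r a b))) :=
    T.of_forall fun p a b q _ ha q' hq' hb => RO.reg fun s hs => by
      obtain ⟨t, ht, i, h1, h2⟩ := hC2 a q ha s (hs.trans hq')
      obtain ⟨w, hw, j, h3, h4⟩ := hC2 b q' hb t (ht.trans hs)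
      have h5 := RO.mono h1 hw
      have h6 : (appR r (N.A i) (N.A j)).s w := by
        rcases lt_trichotomy i j with h | rfl | h
        · rw [hc] at h3; exact (h3.2.2 ⟨i, h⟩ w le_rfl h5).2
        · rw [hc] at h3; exact h3.2.1
        · rw [hc] at h5; exact (h5.2.2 ⟨j, h⟩ w le_rfl h3).1
      exact ⟨w, hw.trans ht, Ext.subst (fun a => appR r a b) (h2.mono hw).symm
        (Ext.subst (fun b => appR r (N.A i) b) h4.symm h6)⟩
  have H3 : T (RO.all fun a => RO.imp (RO.mem a N) (RO.imp (appR r a a) (RO.imp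
      (RO.all fun b => RO.imp (RO.mem b C) (RO.and (appR r a b) (appR r b a))) (RO.mem a C)))) :=
    T.of_forall fun p a q _ ha q1 hq1 h1 q2 hq2 h2 => FMem.reg fun s hs => by
      obtain ⟨t, ht, i, h3, h4⟩ := ha s (hs.trans (hq2.trans hq1))
      refine ⟨t, ht, (hC1 i t ?_).subst_left h4.symm⟩
      rw [hc]
      refine ⟨FMem.of_le i h3, ?_, fun j w hw h5 => ?_⟩
      · exact Ext.subst (fun a => appR r a (N.A i)) h4 (Ext.subst (fun b => appR r a b) h4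
          (RO.mono h1 (ht.trans (hs.trans hq2))))
      · have := h2 _ w (hw.trans (ht.trans hs)) (hC1 j.1 w h5)
        exact ⟨Ext.subst (fun a => appR r a (N.A j.1)) (h4.mono hw) this.1,
          Ext.subst (fun a => appR r (N.A j.1) a) (h4.mono hw) this.2⟩
  refine ⟨cls C, ?_, ?_, ?_⟩
  · simpa only [T_all, T_imp, T_mem, cls_rep, N, MP_2739cb_lc.Sub] using H1
  · simpa only [T_all, T_imp, T_mem, T_app, cls_rep, r] using H2
  · have : MP_2739cb_lc.Ext fun a => appR r a a := ⟨fun x y _ e h =>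
      Ext.subst (fun a => appR r a y) e (Ext.subst (fun a => appR r x a) e h)⟩
    simpa only [T_all, T_imp, T_and, T_mem, T_app, cls_rep, r, N] using H3

theorem isOmega_omN : IsOmega EM (cls (omN : Nm P)) := by
  refine ⟨⟨isOrd_on _, ⟨_, EM_on Ordinal.omega0_pos⟩, ?_⟩, ?_⟩
  · have : T (RO.all fun α : Nm P => RO.imp (RO.mem α omN) (RO.ex fun β =>
        RO.and (RO.mem β omN) (RO.mem α β))) := by
      refine T.of_forall fun p α q _ hα r hr => ?_
      obtain ⟨t, ht, k, hk⟩ := mem_omN hα r hr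
      exact ⟨t, ht, on (k + 1 : ℕ), on_mem (Ordinal.natCast_lt_omega0 _) _,
        (on_mem (by exact_mod_cast Nat.lt_succ_self k) t).subst_left hk.symm⟩
    simpa only [T_all, T_imp, T_ex, T_and, T_mem, cls_rep] using this
  · have : T (RO.all fun α : Nm P => RO.imp (RO.mem α omN) (RO.imp (RO.ex fun b => RO.mem b α)
        (RO.not (RO.all fun b => RO.imp (RO.mem b α)
          (RO.ex fun c => RO.and (RO.mem c α) (RO.mem b c)))))) := by
      refine T.of_forall fun p α q _ hα r hr h1 s hs h2 => ?_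
      obtain ⟨t, ht, k, hk⟩ := mem_omN hα s (hs.trans hr)
      obtain ⟨w, hw, b, hb⟩ := h1 t (ht.trans hs)
      obtain ⟨w1, hw1, a, ha, -⟩ := mem_on (FMem.subst_right hb (hk.mono hw)) w le_rfl
      obtain ⟨m, rfl⟩ : ∃ m, k = m + 1 := by
        cases k with
        | zero => simp at ha
        | succ m => exact ⟨m, rfl⟩
      obtain ⟨w2, hw2, c, h3, h4⟩ := h2 (on m) t ht
        ((on_mem (by exact_mod_cast Nat.lt_succ_self m) t).subst_right hk.symm) t le_rfl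
      obtain ⟨w3, hw3, d, hd, h5⟩ := mem_on (FMem.subst_right h3 (hk.mono hw2)) w2 le_rfl
      have h6 := on_lt ((FMem.mono h4 hw3).subst_right h5)
      rw [Nat.cast_succ, Order.lt_add_one_iff] at hd
      exact absurd h6 (not_lt.2 hd)
    simp only [T_all, T_imp, T_ex, T_and, T_not, T_mem, cls_rep] at this
    exact fun a ha h => this a ha h.2.1 h.2.2

/-- Countably closed preorders. -/
class SigmaClosed (P : Type u) [Preorder P] : Prop where
  lb : ∀ p : ℕ → P, (∀ n, p (n + 1) ≤ p n) → ∃ q, ∀ n, q ≤ p n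

omit [OrderTop P] in
theorem decide_ctbl [SigmaClosed P] {ι : Type v} [Countable ι] (D : ι → P → Prop)
    (hm : ∀ i p q, q ≤ p → D i p → D i q) (p : P) (hd : ∀ i q, q ≤ p → ∃ r, r ≤ q ∧ D i r) :
    ∃ q, q ≤ p ∧ ∀ i, D i q := by
  rcases isEmpty_or_nonempty ι with h | h
  · exact ⟨p, le_rfl, fun i => h.elim i⟩
  obtain ⟨e, he⟩ := exists_surjective_nat ι
  choose f hf1 hf2 using hd
  let s : ℕ → {q // q ≤ p} := fun n => Nat.rec ⟨p, le_rfl⟩
    (fun n q => ⟨f (e n) q.1 q.2, (hf1 _ _ _).trans q.2⟩) n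
  obtain ⟨q, hq⟩ := SigmaClosed.lb (fun n => (s n).1) fun n => hf1 _ _ _
  refine ⟨q, hq 0, fun i => ?_⟩
  obtain ⟨n, rfl⟩ := he i
  exact hm _ _ _ (hq (n + 1)) (hf2 _ _ _)

/-- The countable ordinals as a small type. -/
abbrev W1 : Type u := (ℵ₁ : Cardinal.{u}).ord.ToType

noncomputable def oW (a : W1.{u}) : Ordinal.{u} := Ordinal.typein (α := W1.{u}) (· < ·) a

noncomputable def nw (a : W1.{u}) : Nm P := on (oW a)

noncomputable def om1N : Nm P := on (ℵ₁ : Cardinal.{u}).ord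

theorem countable_Iio (a : W1.{u}) : (Iio a).Countable :=
  le_aleph0_iff_set_countable.1 (lt_aleph_one_iff.1 (by simpa using mk_Iio_lt a (by simp)))

theorem countable_Iic (a : W1.{u}) : (Iic a).Countable := by
  rw [← Iio_insert]; exact (countable_Iio a).insert a

theorem exists_notMem_W1 {S : Set W1.{u}} (h : S.Countable) : ∃ a, a ∉ S := by
  by_contra hc
  push Not at hc
  have : (univ : Set W1.{u}).Countable := h.mono fun a _ => hc a
  rw [← le_aleph0_iff_set_countable, ← lt_aleph_one_iff] at this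
  simp at this

theorem exists_gt_W1 {S : Set W1.{u}} (h : S.Countable) : ∃ a, ∀ b ∈ S, b < a := by
  obtain ⟨a, ha⟩ := exists_notMem_W1 (h.biUnion fun b _ => countable_Iic b)
  exact ⟨a, fun b hb => not_le.1 fun h1 => ha (mem_biUnion hb h1)⟩

theorem nw_mem (a : W1.{u}) (p : P) : FMem (nw a) om1N p := on_mem (Ordinal.typein_lt_self a) p

theorem mem_om1N {x : Nm P} {p : P} (h : FMem x om1N p) :
    ∀ q, q ≤ p → ∃ r, r ≤ q ∧ ∃ a, FEq x (nw a) r := by
  intro q hq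
  obtain ⟨r, hr, a, ha, h1⟩ := mem_on h q hq
  obtain ⟨k, rfl⟩ := Ordinal.typein_surj (α := W1.{u}) (· < ·) (o := a) (by simpa using ha)
  exact ⟨r, hr, k, h1⟩

theorem nw_inj {a b : W1.{u}} {p : P} (h : FEq (nw a) (nw b) p) : a = b :=
  Ordinal.typein_injective _ (on_inj h)

theorem nw_lt {a b : W1.{u}} {p : P} (h : FMem (nw a) (nw b) p) : a < b :=
  (Ordinal.typein_lt_typein _).1 (on_lt h)

theorem nw_mem_nw {a b : W1.{u}} (h : a < b) (p : P) : FMem (nw a) (nw b) p :=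
  on_mem ((Ordinal.typein_lt_typein _).2 h) p

theorem mem_nw {x : Nm P} {b : W1.{u}} {p : P} (h : FMem x (nw b) p) :
    ∀ q, q ≤ p → ∃ r, r ≤ q ∧ ∃ a, a < b ∧ FEq x (nw a) r := by
  intro q hq
  obtain ⟨r, hr, a, ha, h1⟩ := mem_on h q hq
  obtain ⟨k, rfl⟩ := Ordinal.typein_surj (α := W1.{u}) (· < ·) (o := a)
    (ha.trans (Ordinal.typein_lt_type _ b))
  exact ⟨r, hr, k, (Ordinal.typein_lt_typein _).1 ha, h1⟩

theorem cov_of_ctbl {ι : Type v} {y : Set ι} (hy : y.Countable) (B : ι → Nm P) {Z : Nm P} {p : P}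
    (h : ∀ z q, q ≤ p → FMem z Z q → ∃ r, r ≤ q ∧ ∃ i ∈ y, FEq z (B i) r) : (covR Z).s p := by
  rcases y.eq_empty_or_nonempty with rfl | hne
  · refine cov_intro (fun _ => Z) fun z q hq hz => ?_
    obtain ⟨_, _, _, h1, _⟩ := h z q hq hz
    exact h1.elim
  · obtain ⟨e, rfl⟩ := hy.exists_eq_range hne
    refine cov_intro (fun n => B (e n)) fun z q hq hz => ?_
    obtain ⟨r, hr, _, ⟨n, rfl⟩, h1⟩ := h z q hq hz
    exact ⟨r, hr, n, h1⟩

theorem cov_mem_om1N (a : MP_2739cb_lc.Mod P) (h : EM a (cls om1N)) : Cov EM (cls omN) a := by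
  rw [← cls_rep a, ← T_mem] at h
  rw [← cls_rep a, ← T_cov]
  refine h.mono fun p hp => RO.reg fun q hq => ?_
  obtain ⟨r, hr, b, hb⟩ := mem_om1N hp q hq
  refine ⟨r, hr, cov_of_ctbl (countable_Iio b) nw fun z s hs hz => ?_⟩
  exact mem_nw (hz.subst_right (hb.mono hs)) s le_rfl

theorem not_cov_om1N [SigmaClosed P] : ¬ Cov EM (cls omN) (cls (om1N : Nm P)) := by
  rw [← T_cov]
  intro h
  obtain ⟨p, hp⟩ := h.nonempty
  obtain ⟨s, hs⟩ := cov_seq (om1N : Nm P)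
  obtain ⟨q, hq, h1⟩ := decide_ctbl (fun n r => (∃ a, FEq (s n) (nw a) r) ∨
      ∀ a t, t ≤ r → ¬ FEq (s n) (nw a) t)
    (fun n r t ht h => h.imp (fun ⟨a, h⟩ => ⟨a, h.mono ht⟩) fun h a w hw => h a w (hw.trans ht))
    p fun n r _ => by
      by_cases hc : ∃ a t, t ≤ r ∧ FEq (s n) (nw a) t
      · obtain ⟨a, t, ht, h2⟩ := hc
        exact ⟨t, ht, Or.inl ⟨a, h2⟩⟩
      · exact ⟨r, le_rfl, Or.inr fun a t ht h2 => hc ⟨a, t, ht, h2⟩⟩
  obtain ⟨a, ha⟩ := exists_notMem_W1 (S := ⋃ n, {a | FEq (s n) (nw a) q})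
    (countable_iUnion fun n => Subsingleton.countable fun a ha b hb =>
      nw_inj ((FEq.symm ha).trans hb))
  obtain ⟨r, hr, n, h2⟩ := hs p hp (nw a) q hq (nw_mem a q)
  rcases h1 n with ⟨b, h3⟩ | h3
  · exact ha (mem_iUnion.2 ⟨n, nw_inj (h2.trans (h3.mono hr)) ▸ h3⟩)
  · exact h3 a r hr h2.symm

noncomputable instance modZM [SigmaClosed P] : ZM (MP_2739cb_lc.Mod P) where
  mem b a := EM a b
  zfc := M_zfc
  w := cls omN
  w1 := cls om1N
  hw := isOmega_omN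
  hw1 := ⟨isOrd_on _, not_cov_om1N, cov_mem_om1N⟩
  clique := M_clique
  cunion := M_cunion

end Pool.Agent.Lib.MP_783f50_lc
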