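import Pool.Agent.Lib.MP_783f50_lc.Ord

/-! Connectedness, components and paths inside a model of ZFC. -/

namespace Pool.Agent.Lib.MP_783f50_lc

open Pool.Agent.Lib.MP_2739cb_lc

set_option synthInstance.maxSize 100000

universe v

variable {M : Type v} [ZM M]

def Sym (A : M) : Prop := ∀ a b : M, op a b ∈ A → op b a ∈ A

def Conn (A X a b : M) : Prop :=
  a ∈ X ∧ ∀ Y : M, a ∈ Y → (∀ u v : M, u ∈ Y → u ∈ X → v ∈ X → op u v ∈ A → v ∈ Y) → b ∈ Y

instance DP.conn {α : Type v} [Ctx M α] (r s t u : α → M) [DF M r] [DF M s] [DF M t] [DF M u] :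
    DP M (no_index fun x => Conn (r x) (s x) (t x) (u x)) :=
  have : DP M fun z : ((M × M) × M) × M => Conn z.1.1.1 z.1.1.2 z.1.2 z.2 := by
    unfold Conn; infer_instance
  DP.comp (fun z : ((M × M) × M) × M => Conn z.1.1.1 z.1.1.2 z.1.2 z.2)
    fun x => (((r x, s x), t x), u x)

namespace Conn

variable {A X a b c : M}

theorem left_mem (h : Conn A X a b) : a ∈ X := h.1

theorem right_mem (h : Conn A X a b) : b ∈ X := h.2 X h.1 fun _ _ _ _ h _ => h

theorem refl (h : a ∈ X) : Conn A X a a := ⟨h, fun _ h _ => h⟩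

theorem step (h : Conn A X a b) (hc : c ∈ X) (e : op b c ∈ A) : Conn A X a c :=
  ⟨h.1, fun Y h1 h2 => h2 b c (h.2 Y h1 h2) h.right_mem hc e⟩

theorem trans (h : Conn A X a b) (h' : Conn A X b c) : Conn A X a c :=
  ⟨h.1, fun Y h1 h2 => h'.2 Y (h.2 Y h1 h2) h2⟩

theorem ind (P : M → Prop) [DP M P] (h : Conn A X a b) (h0 : P a)
    (hs : ∀ u v, Conn A X a u → v ∈ X → op u v ∈ A → P u → P v) : P b := by
  have : DP M fun u => P u := inferInstance
  have := h.2 (sep X fun u => Conn A X a u ∧ P u) (mem_sep.2 ⟨h.1, refl h.1, h0⟩)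
    fun u v hu _ hv e => mem_sep.2 ⟨hv, (mem_sep.1 hu).2.1.step hv e,
      hs u v (mem_sep.1 hu).2.1 hv e (mem_sep.1 hu).2.2⟩
  exact (mem_sep.1 this).2.2

theorem restrict {X' : M} (h : Conn A X a b) (hX : ∀ u, Conn A X a u → u ∈ X') :
    Conn A X' a b :=
  h.ind (fun u => Conn A X' a u) (refl (hX a (refl h.1)))
    fun _ v hu hv e ih => ih.step (hX v (hu.step hv e)) e

theorem mono {X' : M} (h : Conn A X a b) (hX : X ⊆ X') : Conn A X' a b :=
  h.restrict fun u hu => hX u hu.right_mem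

theorem symm (hA : Sym A) (h : Conn A X a b) : Conn A X b a :=
  h.ind (fun u => Conn A X u a) (refl h.1)
    fun u v hu hv e ih => ((refl hv).step hu.right_mem (hA u v e)).trans ih

theorem hull1 (h : Conn A X a b) :
    ∃ K, K ⊆ X ∧ Ctbl K ∧ b ∈ K ∧ ∀ u, u ∈ K → Conn A K a u := by
  refine h.ind (fun b => ∃ K, K ⊆ X ∧ Ctbl K ∧ b ∈ K ∧ ∀ u, u ∈ K → Conn A K a u)
    ⟨{a}, fun z hz => mem_single.1 hz ▸ h.1, ctbl_single a, by simp, fun u hu => ?_⟩ ?_
  · rw [mem_single.1 hu]; exact refl (by simp)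
  · rintro u v - hv e ⟨K, h1, h2, h3, h4⟩
    have h5 : K ⊆ K ∪ {v} := fun z hz => by simp [hz]
    refine ⟨K ∪ {v}, fun z hz => ?_, h2.union (ctbl_single v), by simp, fun z hz => ?_⟩
    · rcases mem_union.1 hz with h | h
      · exact h1 z h
      · exact mem_single.1 h ▸ hv
    · rcases mem_union.1 hz with h | h
      · exact (h4 z h).mono h5
      · exact mem_single.1 h ▸ ((h4 u h3).mono h5).step (by simp) e

end Conn

theorem hull {A X a B : M} (ha : a ∈ X) (hB : Ctbl B) (h : ∀ v, v ∈ B → Conn A X a v) :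
    ∃ C, C ⊆ X ∧ Ctbl C ∧ a ∈ C ∧ B ⊆ C ∧ ∀ u, u ∈ C → Conn A C a u := by
  obtain ⟨k, hk⟩ := choice B (pw X) (fun b K => Ctbl K ∧ b ∈ K ∧ ∀ u, u ∈ K → Conn A K a u)
    fun v hv => let ⟨K, h1, h2⟩ := (h v hv).hull1; ⟨K, mem_pw.2 h1, h2⟩
  obtain ⟨C, hC⟩ := exists_sep X fun u => u = a ∨ ∃ b, b ∈ B ∧ u ∈ app k b
  have h1 : ∀ b, b ∈ B → app k b ⊆ C := fun b hb z hz =>
    (hC z).2 ⟨mem_pw.1 (hk b hb).1 z hz, Or.inr ⟨b, hb, hz⟩⟩
  have h2 : a ∈ C := (hC a).2 ⟨ha, Or.inl rfl⟩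
  obtain ⟨C', hC'⟩ := exists_sep X fun u => ∃ b, b ∈ B ∧ u ∈ app k b
  refine ⟨C, fun z hz => ((hC z).1 hz).1, ((ctbl_single a).union (hB.cover' (U := C')
    (fun b => app k b) (fun b hb => (hk b hb).2.1) fun z hz => ((hC' z).1 hz).2)).mono
    fun z hz => ?_, h2, fun b hb => h1 b hb b (hk b hb).2.2.1, fun u hu => ?_⟩
  · simp only [mem_union, mem_single, hC']
    exact ((hC z).1 hz).2.imp id fun h => ⟨((hC z).1 hz).1, h⟩
  · rcases ((hC u).1 hu).2 with rfl | ⟨b, hb, h3⟩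
    · exact Conn.refl h2
    · exact ((hk b hb).2.2.2 u h3).mono (h1 b hb)

/-- The elements of `y` with a neighbour in `C`. -/
noncomputable def nb (A y C : M) : M := sep y fun u => ∃ v, v ∈ C ∧ op u v ∈ A

@[simp] theorem mem_nb {A y C u : M} : u ∈ nb A y C ↔ u ∈ y ∧ ∃ v, v ∈ C ∧ op u v ∈ A := mem_sep

instance DF.nb {α : Type v} [Ctx M α] (r s t : α → M) [DF M r] [DF M s] [DF M t] :
    DF M (no_index fun x => nb (r x) (s x) (t x)) :=
  have : DF M fun z : (M × M) × M => MP_783f50_lc.nb z.1.1 z.1.2 z.2 := by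
    unfold MP_783f50_lc.nb; infer_instance
  DF.comp (fun z : (M × M) × M => MP_783f50_lc.nb z.1.1 z.1.2 z.2) fun x => ((r x, s x), t x)

/-- The neighbourhood of the component of `a` in the graph with `X` removed. -/
noncomputable def bd (A V X a : M) : M := sep X fun u => ∃ v, Conn A (V \ X) a v ∧ op u v ∈ A

theorem mem_bd {A V X a u : M} :
    u ∈ bd A V X a ↔ u ∈ X ∧ ∃ v, Conn A (V \ X) a v ∧ op u v ∈ A := mem_sep

instance DF.bd {α : Type v} [Ctx M α] (r s t u : α → M) [DF M r] [DF M s] [DF M t] [DF M u] :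
    DF M (no_index fun x => bd (r x) (s x) (t x) (u x)) :=
  have : DF M fun z : ((M × M) × M) × M => MP_783f50_lc.bd z.1.1.1 z.1.1.2 z.1.2 z.2 := by
    unfold MP_783f50_lc.bd; infer_instance
  DF.comp (fun z : ((M × M) × M) × M => MP_783f50_lc.bd z.1.1.1 z.1.1.2 z.1.2 z.2)
    fun x => (((r x, s x), t x), u x)

/-! ### Paths -/

open Classical in
noncomputable def zite (p : Prop) (a b : M) : M := if p then a else b

omit [ZM M] in
theorem zite_pos {p : Prop} {a b : M} (h : p) : zite p a b = a := if_pos h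

omit [ZM M] in
theorem zite_neg {p : Prop} {a b : M} (h : ¬ p) : zite p a b = b := if_neg h

instance DF.zite {α : Type v} [Ctx M α] (p : α → Prop) (s t : α → M) [DP M p] [DF M s] [DF M t] :
    DF M (no_index fun x => zite (p x) (s x) (t x)) := by
  have : DP M fun z : α × M => p z.1 := DP.comp p Prod.fst
  have : DF M fun z : α × M => s z.1 := DF.comp s Prod.fst
  have : DF M fun z : α × M => t z.1 := DF.comp t Prod.fst
  refine DF.of_mem _ (fun x z => (p x ∧ z ∈ s x) ∨ (¬ p x ∧ z ∈ t x)) fun x z => ?_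
  by_cases h : p x
  · rw [zite_pos h]; simp [h]
  · rw [zite_neg h]; simp [h]

def Pth (A X f n a b : M) : Prop :=
  n ∈ om M ∧ (∀ i, i ∈ suc n → app f i ∈ X) ∧
    (∀ i j, i ∈ suc n → j ∈ suc n → app f i = app f j → i = j) ∧ app f ∅ = a ∧ app f n = b ∧
      ∀ i, i ∈ n → op (app f i) (app f (suc i)) ∈ A

instance DP.pth {α : Type v} [Ctx M α] (A X a : M) (r s t : α → M) [DF M r] [DF M s] [DF M t] :
    DP M (no_index fun x => Pth A X (r x) (s x) a (t x)) :=
  have : DP M fun z : (M × M) × M => Pth A X z.1.1 z.1.2 a z.2 := by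
    unfold Pth; infer_instance
  DP.comp (fun z : (M × M) × M => Pth A X z.1.1 z.1.2 a z.2) fun x => ((r x, s x), t x)

theorem empty_mem_suc {n : M} (h : n ∈ om M) : ∅ ∈ suc n :=
  (od_om.mem h).suc.empty_mem (self_mem_suc n)

theorem suc_mem_suc {i n : M} (h : Od n) (hi : i ∈ n) : suc i ∈ suc n :=
  h.suc.suc_mem (self_mem_suc n) hi

theorem Conn.pth {A X a b : M} (h : Conn A X a b) : ∃ f n, Pth A X f n a b := by
  refine h.ind (fun b => ∃ f n : M, Pth A X f n a b) ?_ ?_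
  · obtain ⟨f, -, hf⟩ := exists_lam (suc ∅) fun _ => a
    have h1 := hf ∅ (self_mem_suc _)
    refine ⟨f, ∅, empty_mem_om, fun i hi => by rw [hf i hi]; exact h.1, fun i j hi hj _ => ?_,
      h1, h1, fun i hi => absurd hi (not_mem_empty i)⟩
    simp only [mem_suc, not_mem_empty, false_or] at hi hj
    rw [hi, hj]
  · rintro u v - hv e ⟨f, n, h1, h2, h3, h4, h5, h6⟩
    have hn := od_om.mem h1
    by_cases hc : ∃ j, j ∈ suc n ∧ app f j = v
    · obtain ⟨j, hj, rfl⟩ := hc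
      have h7 : ∀ i, i ∈ suc j → i ∈ suc n := fun i hi => by
        rcases mem_suc.1 hi with h | rfl
        · exact hn.suc.trans hj h
        · exact hj
      refine ⟨f, j, od_om.trans (suc_mem_om h1) hj, fun i hi => h2 i (h7 i hi),
        fun i k hi hk => h3 i k (h7 i hi) (h7 k hk), h4, rfl, fun i hi => h6 i ?_⟩
      rcases mem_suc.1 hj with h | rfl
      · exact hn.trans h hi
      · exact hi
    · obtain ⟨g, -, hg⟩ := exists_lam (suc (suc n)) fun i => zite (i = suc n) v (app f i)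
      have h7 : ∀ i, i ∈ suc n → app g i = app f i := fun i hi => by
        rw [hg i (mem_suc.2 (Or.inl hi)), zite_neg fun e => mem_irrefl _ (e ▸ hi)]
      have h8 : app g (suc n) = v := by rw [hg _ (self_mem_suc _), zite_pos rfl]
      refine ⟨g, suc n, suc_mem_om h1, fun i hi => ?_, fun i j hi hj e => ?_,
        by rw [h7 _ (empty_mem_suc h1), h4], h8, fun i hi => ?_⟩
      · rcases mem_suc.1 hi with h | rfl
        · rw [h7 i h]; exact h2 i h
        · rwa [h8]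
      · rcases mem_suc.1 hi with h | rfl <;> rcases mem_suc.1 hj with h' | rfl
        · rw [h7 i h, h7 j h'] at e; exact h3 i j h h' e
        · rw [h7 i h, h8] at e; exact absurd ⟨i, h, e⟩ hc
        · rw [h7 j h', h8] at e; exact absurd ⟨j, h', e.symm⟩ hc
        · rfl
      · rw [h7 i hi]
        rcases mem_suc.1 hi with h | rfl
        · rw [h7 _ (suc_mem_suc hn h)]; exact h6 i h
        · rwa [h8, h5]

theorem Pth.isPath {A X f n a b : M} (h : Pth A X f n a b) :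
    ∃ g, IsPath (EE M) (om M) A X g a b ∧ ∀ i x, App (EE M) g i x ↔ i ∈ suc n ∧ x = app f i := by
  obtain ⟨h1, h2, h3, h4, h5, h6⟩ := h
  obtain ⟨g, h7, h8⟩ := exists_isInj (suc n) X (fun i => app f i) h2 h3
  refine ⟨g, ⟨n, suc n, h1, isSucc_iff.2 rfl, h7, ⟨∅, not_mem_empty,
    (h8 _ _).2 ⟨empty_mem_suc h1, h4.symm⟩⟩, (h8 _ _).2 ⟨self_mem_suc n, h5.symm⟩,
    fun i j x y e hx hy => ?_⟩, h8⟩
  obtain rfl := isSucc_iff.1 e
  obtain ⟨-, rfl⟩ := (h8 _ _).1 hx
  obtain ⟨h9, rfl⟩ := (h8 _ _).1 hy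
  refine app_iff.2 (h6 i ?_)
  rcases mem_suc.1 h9 with h | h
  · exact (od_om.mem h1).trans h (self_mem_suc i)
  · exact h ▸ self_mem_suc i

theorem pth_of_isPath {A X f a b : M} (h : IsPath (EE M) (om M) A X f a b) :
    ∃ n, Pth A X f n a b ∧ ∀ i x, App (EE M) f i x → i ∈ suc n ∧ x = app f i := by
  obtain ⟨n, m, h1, h2, h3, ⟨z, h4, h5⟩, h6, h7⟩ := h
  obtain rfl := isSucc_iff.1 h2
  obtain rfl := eq_empty h4
  have key : ∀ i x, App (EE M) f i x → i ∈ suc n ∧ x = app f i := fun i x h =>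
    ⟨(ZM.zfc.app_mem h3.1 h).1, (app_eq (app_iff.1 h)
      fun b hb => ZM.zfc.app_unique h3.1 (app_iff.2 hb) h).symm⟩
  have key2 : ∀ i, i ∈ suc n → App (EE M) f i (app f i) := fun i hi => by
    obtain ⟨b, hb, -⟩ := ZM.zfc.app_total h3.1 hi
    exact (key i b hb).2 ▸ hb
  exact ⟨n, ⟨h1, fun i hi => (ZM.zfc.app_mem h3.1 (key2 i hi)).2,
    fun i j hi hj e => h3.2 i j _ (key2 i hi) (e ▸ key2 j hj), (key _ _ h5).2.symm,
    (key _ _ h6).2.symm, fun i hi => app_iff.1 (h7 i (suc i) _ _ (isSucc_iff.2 rfl)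
      (key2 i (mem_suc.2 (Or.inl hi))) (key2 _ (suc_mem_suc (od_om.mem h1) hi)))⟩, key⟩

theorem Pth.seg {A X f n a b : M} (h : Pth A X f n a b) {j Y : M} (hj : j ∈ suc n) :
    ∀ k, k ∈ suc n → j ⊆ k → (∀ i, i ∈ suc n → j ⊆ i → i ⊆ k → app f i ∈ Y) →
      Conn A Y (app f j) (app f k) := by
  have hn := od_om.mem h.1
  have : ∀ k, k ∈ om M → k ∈ suc n → j ⊆ k →
      (∀ i, i ∈ suc n → j ⊆ i → i ⊆ k → app f i ∈ Y) → Conn A Y (app f j) (app f k) := by
    refine nat_induction _ (fun _ h1 h2 => ?_) fun k _ ih h1 h2 h3 => ?_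
    · obtain rfl : j = ∅ := eq_empty fun z hz => not_mem_empty z (h1 z hz)
      exact Conn.refl (h2 _ hj (sub_refl _) (sub_refl _))
    · have h4 : k ∈ n := by
        rcases mem_suc.1 h1 with h | h
        · exact hn.trans h (self_mem_suc k)
        · exact h ▸ self_mem_suc k
      by_cases h5 : j ⊆ k
      · exact (ih (mem_suc.2 (Or.inl h4)) h5 fun i h6 h7 h8 =>
          h3 i h6 h7 fun z hz => mem_suc.2 (Or.inl (h8 z hz))).step
          (h3 _ h1 h2 (sub_refl _)) (h.2.2.2.2.2 k h4)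
      · obtain rfl : j = suc k := by
          rcases (hn.suc.mem hj).sub (hn.suc.mem h1) h2 with h6 | h6
          · exact h6
          · refine absurd (fun z hz => ?_) h5
            rcases mem_suc.1 h6 with h7 | rfl
            · exact (hn.mem h4).trans h7 hz
            · exact hz
        exact Conn.refl (h3 _ hj (sub_refl _) (sub_refl _))
  exact fun k hk => this k (od_om.trans (suc_mem_om h.1) hk) hk

theorem empty_sub (a : M) : ∅ ⊆ a := fun z hz => absurd hz (not_mem_empty z)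

theorem sub_of_mem_suc {n j : M} (hn : Od n) (hj : j ∈ suc n) : j ⊆ n := fun z hz => by
  rcases mem_suc.1 hj with h | rfl
  · exact hn.trans h hz
  · exact hz

theorem Pth.conn {A X f n a b Y : M} (h : Pth A X f n a b)
    (hY : ∀ i, i ∈ suc n → app f i ∈ Y) : Conn A Y a b := by
  have := h.seg (empty_mem_suc h.1) n (self_mem_suc n) (empty_sub n) fun i hi _ _ => hY i hi
  rwa [h.2.2.2.1, h.2.2.2.2.1] at this

theorem Pth.conn_left {A X f n a b j : M} (h : Pth A X f n a b) (hj : j ∈ suc n)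
    (hb : app f j ≠ b) : Conn A (X \ {b}) a (app f j) := by
  have := h.seg (Y := X \ {b}) (empty_mem_suc h.1) j hj (empty_sub j) fun i hi _ h1 => by
    simp only [mem_diff, mem_single]
    refine ⟨h.2.1 i hi, fun e => hb ?_⟩
    obtain rfl := h.2.2.1 i n hi (self_mem_suc n) (e.trans h.2.2.2.2.1.symm)
    rwa [sub_antisymm (sub_of_mem_suc (od_om.mem h.1) hj) h1]
  rwa [h.2.2.2.1] at this

theorem Pth.conn_right {A X f n a b j : M} (h : Pth A X f n a b) (hj : j ∈ suc n)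
    (ha : app f j ≠ a) : Conn A (X \ {a}) (app f j) b := by
  have := h.seg (Y := X \ {a}) hj n (self_mem_suc n) (sub_of_mem_suc (od_om.mem h.1) hj)
    fun i hi h1 _ => by
      simp only [mem_diff, mem_single]
      refine ⟨h.2.1 i hi, fun e => ha ?_⟩
      obtain rfl := h.2.2.1 i ∅ hi (empty_mem_suc h.1) (e.trans h.2.2.2.1.symm)
      rwa [sub_antisymm h1 (empty_sub j)]
  rwa [h.2.2.2.2.1] at this

theorem connected_iff {A X : M} : Connected (EE M) (om M) A X ↔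
    (∃ a, a ∈ X) ∧ ∀ a b, a ∈ X → b ∈ X → Conn A X a b := by
  refine and_congr_right fun _ => forall₄_congr fun a b _ _ => ⟨?_, fun h => ?_⟩
  · rintro ⟨f, hf⟩
    obtain ⟨n, h, -⟩ := pth_of_isPath hf
    exact h.conn h.2.1
  · obtain ⟨f, n, h⟩ := h.pth
    obtain ⟨g, hg, -⟩ := h.isPath
    exact ⟨g, hg⟩

theorem connected_of {A X a : M} (hA : Sym A) (ha : a ∈ X) (h : ∀ u, u ∈ X → Conn A X a u) :
    Connected (EE M) (om M) A X :=
  connected_iff.2 ⟨⟨a, ha⟩, fun u v hu hv => ((h u hu).symm hA).trans (h v hv)⟩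

theorem isGraph_of {V A : M} (h1 : A ⊆ prd V V) (h2 : Sym A) (h3 : ∀ a, op a a ∉ A) :
    IsGraph (EE M) V A := by
  refine ⟨fun p hp => ?_, fun a b h => app_iff.2 (h2 a b (app_iff.1 h)),
    fun a h => h3 a (app_iff.1 h)⟩
  obtain ⟨a, b, ha, hb, rfl⟩ := mem_prd.1 (h1 p hp)
  exact ⟨a, b, ha, hb, isPair_iff.2 rfl⟩

/-- The facts about a connected graph used below. -/
structure Gr (V A : M) : Prop where
  mem : ∀ a b, op a b ∈ A → a ∈ V ∧ b ∈ V
  sym : Sym A
  irr : ∀ a, op a a ∉ A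
  ne : ∃ a, a ∈ V
  conn : ∀ a b, a ∈ V → b ∈ V → Conn A V a b

theorem gr_of {V A : M} (h1 : IsGraph (EE M) V A) (h2 : Connected (EE M) (om M) A V) : Gr V A := by
  refine ⟨fun a b h => ?_, fun a b h => app_iff.1 (h1.2.1 a b (app_iff.2 h)),
    fun a h => h1.2.2 a (app_iff.2 h), (connected_iff.1 h2).1, (connected_iff.1 h2).2⟩
  obtain ⟨a', b', ha, hb, e⟩ := h1.1 _ h
  obtain ⟨rfl, rfl⟩ := op_inj.1 (isPair_iff.1 e)
  exact ⟨ha, hb⟩

end Pool.Agent.Lib.MP_783f50_lc
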