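import Pool.Agent.Lib.MP_783f50_lc.Closure
import Pool.Agent.Lib.MP_783f50_lc.Meas

/-! The Levy collapse of a supercompact cardinal to the second uncountable cardinal. -/

namespace Pool.Agent.Lib.MP_783f50_lc

open Pool.Agent.Lib.MP_2739cb_lc Nm Cardinal Set Filter

universe u v

structure Cond (K : Type u) [LinearOrder K] where
  s : Set (K × W1.{u} × K)
  ct : s.Countable
  le : ∀ t ∈ s, t.2.2 ≤ t.1
  fn : ∀ k ξ j j', (k, ξ, j) ∈ s → (k, ξ, j') ∈ s → j = j'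

variable {K I : Type u} [LinearOrder K]

instance : Preorder (Cond K) where
  le q p := p.s ⊆ q.s
  le_refl _ := Subset.rfl
  le_trans _ _ _ h1 h2 := Subset.trans h2 h1

instance : OrderTop (Cond K) where
  top := ⟨∅, countable_empty, fun _ h => h.elim, fun _ _ _ _ h => h.elim⟩
  le_top _ := empty_subset _

instance : SigmaClosed (Cond K) where
  lb p h := by
    have hm : Monotone fun n => (p n).s := monotone_nat_of_le_succ h
    refine ⟨⟨⋃ n, (p n).s, countable_iUnion fun n => (p n).ct, fun t ht => ?_,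
      fun k ξ j j' h1 h2 => ?_⟩, fun n => subset_iUnion (fun n => (p n).s) n⟩
    · obtain ⟨n, hn⟩ := mem_iUnion.1 ht
      exact (p n).le t hn
    · obtain ⟨n, hn⟩ := mem_iUnion.1 h1
      obtain ⟨m, hm'⟩ := mem_iUnion.1 h2
      exact (p (max n m)).fn k ξ j j' (hm (le_max_left _ _) hn) (hm (le_max_right _ _) hm')

def mix (X : Set K) (q t : Cond K) : Cond K where
  s := {a | (a.1 ∈ X ∧ a ∈ q.s) ∨ (a.1 ∉ X ∧ a ∈ t.s)}
  ct := (q.ct.union t.ct).mono fun _ h => h.imp And.right And.right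
  le a h := h.elim (fun h => q.le a h.2) fun h => t.le a h.2
  fn k ξ j j' h1 h2 := by
    rcases h1 with h1 | h1 <;> rcases h2 with h2 | h2
    · exact q.fn k ξ j j' h1.2 h2.2
    · exact absurd h1.1 h2.1
    · exact absurd h2.1 h1.1
    · exact t.fn k ξ j j' h1.2 h2.2

def leX (X : Set K) (q' q : Cond K) : Prop := ∀ a ∈ q.s, a.1 ∈ X → a ∈ q'.s

def Supp (X : Set K) (q : Cond K) : Prop := ∀ a ∈ q.s, a.1 ∈ X

theorem leX.trans {X : Set K} {a b c : Cond K} (h1 : leX X a b) (h2 : leX X b c) : leX X a c :=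
  fun t ht h => h1 t (h2 t ht h) h

theorem leX_of_le {X : Set K} {a b : Cond K} (h : a ≤ b) : leX X a b := fun _ ht _ => h ht

theorem mix_mono {X : Set K} {q q' t t' : Cond K} (h1 : leX X q' q) (h2 : t' ≤ t) :
    mix X q' t' ≤ mix X q t := fun a h =>
  h.imp (fun h => ⟨h.1, h1 a h.2 h.1⟩) fun h => ⟨h.1, h2 h.2⟩

theorem mix_le_left {X : Set K} {q : Cond K} (h : Supp X q) (t : Cond K) : mix X q t ≤ q :=
  fun a ha => Or.inl ⟨h a ha, ha⟩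

theorem mix_le_right {X : Set K} {q t : Cond K} (h : leX X q t) : mix X q t ≤ t := fun a ha => by
  by_cases h1 : a.1 ∈ X
  · exact Or.inl ⟨h1, h a ha h1⟩
  · exact Or.inr ⟨h1, ha⟩

theorem exists_add (p : Cond K) {k j : K} {ξ : W1.{u}} (hj : j ≤ k)
    (h : ∀ j', (k, ξ, j') ∉ p.s) : ∃ q : Cond K, q ≤ p ∧ (k, ξ, j) ∈ q.s := by
  refine ⟨⟨insert (k, ξ, j) p.s, p.ct.insert _, ?_, fun k' ξ' a b h1 h2 => ?_⟩,
    subset_insert _ _, mem_insert _ _⟩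
  · rintro t (rfl | ht)
    · exact hj
    · exact p.le t ht
  · rcases h1 with h1 | h1 <;> rcases h2 with h2 | h2
    · cases h1; cases h2; rfl
    · cases h1; exact absurd h2 (h _)
    · cases h2; exact absurd h1 (h _)
    · exact p.fn _ _ _ _ h1 h2

theorem ext_dom (p : Cond K) (k : K) (ξ : W1.{u}) :
    ∃ q : Cond K, q ≤ p ∧ ∃ j, (k, ξ, j) ∈ q.s := by
  by_cases h : ∃ j, (k, ξ, j) ∈ p.s
  · exact ⟨p, le_rfl, h⟩
  · obtain ⟨q, h1, h2⟩ := exists_add p (le_refl k) (not_exists.1 h)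
    exact ⟨q, h1, k, h2⟩

theorem ext_ran (p : Cond K) {k j : K} (hj : j ≤ k) :
    ∃ q : Cond K, q ≤ p ∧ ∃ ξ, (k, ξ, j) ∈ q.s := by
  obtain ⟨ξ, hξ⟩ := exists_notMem_W1 (p.ct.image fun a => a.2.1)
  obtain ⟨q, h1, h2⟩ := exists_add p hj fun j' h => hξ ⟨_, h, rfl⟩
  exact ⟨q, h1, ξ, h2⟩

theorem ext_doms (p : Cond K) (k : K) (β : W1.{u}) :
    ∃ q : Cond K, q ≤ p ∧ ∀ ξ, ξ < β → ∃ j, (k, ξ, j) ∈ q.s := by
  have : Countable (Iio β) := countable_Iio β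
  obtain ⟨q, h1, h2⟩ := decide_ctbl (fun (ξ : Iio β) (r : Cond K) => ∃ j, (k, ξ.1, j) ∈ r.s)
    (fun _ (r t : Cond K) (h : r.s ⊆ t.s) ⟨j, hj⟩ => ⟨j, h hj⟩) p fun ξ r _ => ext_dom r k ξ.1
  exact ⟨q, h1, fun ξ h => h2 ⟨ξ, h⟩⟩

section Truth

variable {P : Type u} [Preorder P] [OrderTop P]

abbrev totR (f A B : Nm P) : RO P :=
  RO.all fun a => RO.imp (RO.mem a A) (RO.ex fun b => RO.and (RO.mem b B) (appR f a b))

abbrev imgR (g α y : Nm P) : RO P :=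
  RO.all fun v => RO.iff (RO.mem v y) (RO.ex fun a => RO.and (RO.mem a α) (appR g a v))

noncomputable abbrev clR (g c : Nm P) : RO P :=
  RO.all fun α => RO.all fun y => RO.imp (RO.mem α om1N) (RO.imp (imgR g α y)
    (RO.ex fun z => RO.and (appR c y z) (RO.all fun t => RO.imp (RO.mem t z)
      (RO.ex fun a => RO.and (RO.mem a om1N) (appR g a t)))))

noncomputable abbrev stR (g S f : Nm P) : RO P :=
  RO.ex fun δ => RO.and (RO.mem δ om1N) (RO.and (RO.ex fun a => RO.mem a δ)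
    (RO.and (totR f δ δ) (RO.ex fun y => RO.and (imgR g δ y) (RO.mem y S))))

noncomputable abbrev reflR (V S c : Nm P) : RO P :=
  RO.ex fun g => RO.and (totR g om1N V) (RO.and (funcR g) (RO.and (clR g c)
    (RO.all fun f => RO.imp (totR f om1N om1N) (stR g S f))))

noncomputable abbrev hypR (V c : Nm P) : RO P :=
  RO.all fun y => RO.imp (subR y V) (RO.imp (covR y)
    (RO.ex fun z => RO.and (subR z V) (RO.and (covR z) (appR c y z))))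

end Truth

variable (B : I → Nm (Cond K)) (k : K) (e : K → I)

noncomputable def gN : Nm (Cond K) :=
  relNm {t : W1.{u} × K × Cond K // (k, t.1, t.2.1) ∈ t.2.2.s} (fun t => nw t.1.1)
    (fun t => B (e t.1.2.1)) fun t => t.1.2.2

def yOf (t : Cond K) (β : W1.{u}) : Set I := {i | ∃ ξ j, ξ < β ∧ (k, ξ, j) ∈ t.s ∧ e j = i}

variable {B k e}

theorem yOf_ctbl (t : Cond K) (β : W1.{u}) : (yOf k e t β).Countable :=
  (t.ct.image fun a => e a.2.2).mono fun _ h => by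
    obtain ⟨_, _, _, h1, h2⟩ := h
    exact ⟨_, h1, h2⟩

theorem app_gN {ξ : W1.{u}} {j : K} {p : Cond K} (h : (k, ξ, j) ∈ p.s) :
    (appR (gN B k e) (nw ξ) (B (e j))).s p :=
  app_relNm (ι := {t : W1.{u} × K × Cond K // (k, t.1, t.2.1) ∈ t.2.2.s}) ⟨(ξ, j, p), h⟩ le_rfl

theorem of_app_gN {a b : Nm (Cond K)} {p : Cond K} (h : (appR (gN B k e) a b).s p) :
    ∀ q, q ≤ p → ∃ r : Cond K, r ≤ q ∧ ∃ ξ j, (k, ξ, j) ∈ r.s ∧ FEq a (nw ξ) r ∧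
      FEq b (B (e j)) r := fun q hq =>
  let ⟨r, hr, i, h1, h2⟩ := of_app_relNm h q hq; ⟨r, hr, _, _, h1 i.2, h2⟩

theorem func_gN (p : Cond K) : (funcR (gN B k e)).s p := by
  intro n b b' q _ h1 r hr h2
  refine FEq.reg fun t ht => ?_
  obtain ⟨t1, ht1, ξ, j, h3, h4, h5⟩ := of_app_gN h1 t (ht.trans hr)
  obtain ⟨t2, ht2, ξ', j', h6, h7, h8⟩ := of_app_gN h2 t1 (ht1.trans ht)
  obtain rfl := nw_inj ((h4.mono ht2).symm.trans h7)
  obtain rfl := t2.fn _ _ _ _ (ht2 h3) h6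
  exact ⟨t2, ht2.trans ht1, (h5.mono ht2).trans h8.symm⟩

theorem tot_gN {V : Nm (Cond K)} {p : Cond K} (h : ∀ i, FMem (B i) V p) :
    (totR (gN B k e) om1N V).s p := by
  intro a q hq ha r hr
  obtain ⟨t, ht, ξ, h1⟩ := mem_om1N ha r hr
  obtain ⟨w, hw, j, h2⟩ := ext_dom t k ξ
  exact ⟨w, hw.trans ht, B (e j), (h _).mono (hw.trans (ht.trans (hr.trans hq))),
    Ext.subst (fun a => appR _ a _) (h1.mono hw).symm (app_gN h2)⟩

theorem img_gN {N : Nm (Cond K)} {p : Cond K} {β : W1.{u}}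
    (h0 : ∀ ξ, ξ < β → ∃ j, (k, ξ, j) ∈ p.s)
    (h1 : ∀ z r, r ≤ p → FMem z N r → ∃ t, t ≤ r ∧ ∃ i ∈ yOf k e p β, FEq z (B i) t)
    (h2 : ∀ i ∈ yOf k e p β, FMem (B i) N p) : (imgR (gN B k e) (nw β) N).s p := by
  refine fun v => ⟨fun q hq hv r hr => ?_, fun q hq hv => FMem.reg fun r hr => ?_⟩
  · obtain ⟨t, ht, _, ⟨ξ, j, h3, h4, rfl⟩, h5⟩ := h1 v r (hr.trans hq) (FMem.mono hv hr)
    exact ⟨t, ht, nw ξ, nw_mem_nw h3 t, Ext.subst (fun b => appR _ _ b) h5.symm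
      (app_gN ((ht.trans (hr.trans hq)) h4))⟩
  · obtain ⟨t, ht, a, h3, h4⟩ := hv r hr
    obtain ⟨t1, ht1, ξ, j, h5, h6, h7⟩ := of_app_gN h4 t le_rfl
    have h8 := nw_lt ((FMem.mono h3 ht1).subst_left h6)
    obtain ⟨j', h9⟩ := h0 ξ h8
    have h10 := ht1.trans (ht.trans (hr.trans hq))
    obtain rfl := t1.fn _ _ _ _ h5 (h10 h9)
    exact ⟨t1, ht1.trans ht, ((h2 _ ⟨ξ, j, h8, h9, rfl⟩).mono h10).subst_left h7.symm⟩

/-! ### The strategy at one coordinate -/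

variable (m : Meas K I) (x : m.Ω) (f : Nm (Cond K))

def Step (d : Cond K × W1.{u}) (a : I) (q : Cond K) (d' : Cond K × W1.{u}) : Prop :=
  d'.1 ≤ d.1 ∧ d.2 < d'.2 ∧ (∀ ξ, ξ < d'.2 → ∃ j, (m.k x, ξ, j) ∈ d'.1.s) ∧
    (a ∈ m.Y x → a ∈ yOf (m.k x) (m.e x) d'.1 d'.2) ∧
    ∀ ξ, ξ < d.2 → ∃ η, η < d'.2 ∧ (appR f (nw ξ) (nw η)).s (mix (m.X x) q d'.1)

def Step' (d : Cond K × W1.{u}) (a : I) (q : Cond K) (d' : Cond K × W1.{u}) : Prop :=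
  Step m x f d a q d' ∧
    ∀ d'', WellOrderingRel d'' d' → ∀ q', leX (m.X x) q' q → ¬ Step m x f d a q' d''

def ValX (β0 : W1.{u}) : List I → Cond K → Cond K × W1.{u} → Prop
  | [], _, d => d = (⊤, β0)
  | a :: s, q, d' => ∃ d, ValX β0 s q d ∧ Step' m x f d a q d'

variable {m x f} {β0 : W1.{u}}

theorem ValX.mono {s : List I} {q q' : Cond K} {d : Cond K × W1.{u}}
    (h : ValX m x f β0 s q d) (hq : leX (m.X x) q' q) : ValX m x f β0 s q' d := by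
  induction s generalizing d with
  | nil => exact h
  | cons a s ih =>
    obtain ⟨d0, h1, ⟨h2, h3, h4, h5, h6⟩, h7⟩ := h
    exact ⟨d0, ih h1, ⟨h2, h3, h4, h5, fun ξ hξ => let ⟨η, h8, h9⟩ := h6 ξ hξ
      ⟨η, h8, RO.mono h9 (mix_mono hq le_rfl)⟩⟩, fun d'' h8 r hr => h7 d'' h8 r (hr.trans hq)⟩

theorem ValX.fn {s : List I} {q : Cond K} {d d' : Cond K × W1.{u}}
    (h : ValX m x f β0 s q d) (h' : ValX m x f β0 s q d') : d = d' := by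
  induction s generalizing d d' with
  | nil => exact Eq.trans h (Eq.symm h')
  | cons a s ih =>
    obtain ⟨d0, h1, h2, h3⟩ := h
    obtain ⟨d1, h4, h5, h6⟩ := h'
    obtain rfl := ih h1 h4
    rcases trichotomous_of WellOrderingRel d d' with h7 | h7 | h7
    · exact absurd h2 (h6 d h7 q (leX_of_le le_rfl))
    · exact h7
    · exact absurd h5 (h3 d' h7 q (leX_of_le le_rfl))

theorem step_dense {q : Cond K} (hf : ∀ t, (totR f om1N om1N).s (mix (m.X x) q t))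
    (d : Cond K × W1.{u}) (a : I) : ∃ q', leX (m.X x) q' q ∧ ∃ d', Step m x f d a q' d' := by
  obtain ⟨t, β⟩ := d
  have : Countable (Iio β) := countable_Iio β
  obtain ⟨p1, h1, h2⟩ := decide_ctbl
    (fun (ξ : Iio β) (r : Cond K) => ∃ η, (appR f (nw ξ.1) (nw η)).s r)
    (fun _ _ _ h ⟨η, hη⟩ => ⟨η, RO.mono hη h⟩) (mix (m.X x) q t) fun ξ r hr => by
      obtain ⟨r1, hr1, b, h2, h3⟩ := hf t _ r hr (nw_mem ξ.1 r) r le_rfl
      obtain ⟨r2, hr2, η, h4⟩ := mem_om1N h2 r1 le_rfl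
      exact ⟨r2, hr2.trans hr1, η, Ext.subst (fun b => appR f _ b) h4 (RO.mono h3 hr2)⟩
  choose η hη using h2
  obtain ⟨p2, h2, ξ0, h3⟩ : ∃ p2 : Cond K, p2 ≤ p1 ∧ ∃ ξ0,
      a ∈ m.Y x → ∃ j, (m.k x, ξ0, j) ∈ p2.s ∧ m.e x j = a := by
    by_cases ha : a ∈ m.Y x
    · obtain ⟨j, h3, h4⟩ := m.eS x a ha
      obtain ⟨p2, h5, ξ, h6⟩ := ext_ran p1 h3
      exact ⟨p2, h5, ξ, fun _ => ⟨j, h6, h4⟩⟩
    · exact ⟨p1, le_rfl, β, fun h => absurd h ha⟩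
  obtain ⟨β', h4⟩ := exists_gt_W1 (((countable_range η).insert β).insert ξ0)
  obtain ⟨p3, h5, h6⟩ := ext_doms p2 (m.k x) β'
  have h7 := h5.trans (h2.trans h1)
  refine ⟨p3, fun b hb h => h7 (Or.inl ⟨h, hb⟩), (mix (m.X x) t p3, β'), fun b hb => ?_,
    h4 _ (by simp), fun ξ hξ => let ⟨j, hj⟩ := h6 ξ hξ; ⟨j, Or.inr ⟨m.kX x, hj⟩⟩, fun ha => ?_,
    fun ξ hξ => ⟨η ⟨ξ, hξ⟩, h4 _ (by simp), RO.mono (hη ⟨ξ, hξ⟩) (le_trans (fun b hb => ?_)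
      (h5.trans h2))⟩⟩
  · by_cases h : b.1 ∈ m.X x
    · exact Or.inl ⟨h, hb⟩
    · exact Or.inr ⟨h, h7 (Or.inr ⟨h, hb⟩)⟩
  · obtain ⟨j, h8, h9⟩ := h3 ha
    exact ⟨ξ0, j, h4 _ (by simp), Or.inr ⟨m.kX x, h5 h8⟩, h9⟩
  · by_cases h : b.1 ∈ m.X x
    · exact Or.inl ⟨h, hb⟩
    · exact Or.inr ⟨h, Or.inr ⟨h, hb⟩⟩

theorem valX_dense (s : List I) {q : Cond K} (hf : ∀ t, (totR f om1N om1N).s (mix (m.X x) q t)) :
    ∃ q', leX (m.X x) q' q ∧ ∃ d, ValX m x f β0 s q' d := by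
  induction s with
  | nil => exact ⟨q, leX_of_le le_rfl, _, rfl⟩
  | cons a s ih =>
    obtain ⟨q1, h1, d, h2⟩ := ih
    obtain ⟨q2, h3, d1, h4⟩ := step_dense (q := q1)
      (fun t => RO.mono (hf t) (mix_mono h1 le_rfl)) d a
    obtain ⟨d', ⟨q3, h5, h6⟩, h7⟩ := WellFounded.has_min
      (IsWellFounded.wf (r := WellOrderingRel))
      {d' | ∃ q', leX (m.X x) q' q1 ∧ Step m x f d a q' d'} ⟨d1, q2, h3, h4⟩
    exact ⟨q3, h5.trans h1, d', d, h2.mono h5, h6,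
      fun d'' h8 r hr h9 => h7 d'' ⟨r, hr.trans h5, h9⟩ h8⟩

theorem valX_st {S N : Nm (Cond K)} {q : Cond K} (hq : Supp (m.X x) q) {a : ℕ → I}
    (ha : ∀ n, a n ∈ m.Y x) {d : ℕ → Cond K × W1.{u}} (hd : ∀ n, ValX m x f β0 (lst a n) q (d n))
    (h1 : ∀ n, ∀ i ∈ yOf (m.k x) (m.e x) (d n).1 (d n).2, FMem (B i) N q)
    (h2 : ∀ z r, r ≤ q → FMem z N r → ∃ t, t ≤ r ∧ ∃ n, FEq z (B (a n)) t) (h3 : FMem N S q) :
    ∃ p, p ≤ q ∧ (stR (gN B (m.k x) (m.e x)) S f).s p := by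
  have hs : ∀ n, Step m x f (d n) (a n) q (d (n + 1)) := fun n => by
    obtain ⟨d0, h4, h5, -⟩ := hd (n + 1)
    rwa [h4.fn (hd n)] at h5
  obtain ⟨t, ht⟩ := SigmaClosed.lb (fun n => (d n).1) fun n => (hs n).1
  obtain ⟨δ0, h4⟩ := exists_gt_W1 (countable_range fun n => (d n).2)
  obtain ⟨δ, h5, h6⟩ := WellFounded.has_min wellFounded_lt {b | ∀ n, (d n).2 < b}
    ⟨δ0, fun n => h4 _ ⟨n, rfl⟩⟩
  have h7 : ∀ ξ, ξ < δ → ∃ n, ξ < (d (n + 1)).2 := fun ξ hξ => by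
    by_contra hc
    push Not at hc
    exact h6 ξ (fun n => (hs n).2.1.trans_le (hc n)) hξ
  have hp := mix_le_left hq t
  have h8 : ∀ n ξ j, (m.k x, ξ, j) ∈ (d n).1.s → (m.k x, ξ, j) ∈ (mix (m.X x) q t).s :=
    fun n ξ j h => Or.inr ⟨m.kX x, ht n h⟩
  refine ⟨_, hp, RO.ex_intro (nw δ) ⟨nw_mem _ _, RO.ex_intro (nw (d 0).2) (nw_mem_nw (h5 0) _),
    fun b r hr hb w hw => ?_, RO.ex_intro N ⟨img_gN (fun ξ hξ => ?_) (fun z r hr hz => ?_) ?_,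
      h3.mono hp⟩⟩⟩
  · obtain ⟨w1, hw1, ξ, h9, h10⟩ := mem_nw hb w hw
    obtain ⟨n, hn⟩ := h7 ξ h9
    obtain ⟨η, h11, h12⟩ := (hs (n + 1)).2.2.2.2 ξ hn
    exact ⟨w1, hw1, nw η, nw_mem_nw (h11.trans (h5 _)) _, Ext.subst (fun a => appR f a _) h10.symm
      (RO.mono h12 (hw1.trans (hw.trans (hr.trans (mix_mono (leX_of_le le_rfl) (ht _))))))⟩
  · obtain ⟨n, hn⟩ := h7 ξ hξ
    obtain ⟨j, hj⟩ := (hs n).2.2.1 ξ hn
    exact ⟨j, h8 _ _ _ hj⟩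
  · obtain ⟨w, hw, n, h9⟩ := h2 z r (hr.trans hp) hz
    obtain ⟨ξ, j, h10, h11, h12⟩ := (hs n).2.2.2.1 (ha n)
    exact ⟨w, hw, a n, ⟨ξ, j, h10.trans (h5 _), h8 _ _ _ h11, h12⟩, h9⟩
  · rintro _ ⟨ξ, j, h9, h10, rfl⟩
    obtain ⟨n, hn⟩ := h7 ξ h9
    obtain ⟨j', hj⟩ := (hs n).2.2.1 ξ hn
    obtain rfl := Cond.fn _ _ _ _ _ h10 (h8 _ _ _ hj)
    exact (h1 (n + 1) _ ⟨ξ, j, hn, hj, rfl⟩).mono hp

end Pool.Agent.Lib.MP_783f50_lc
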