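import Pool.Agent.Lib.MP_783f50_lc.Tree

/-! From a reflecting chain of countable sets to a forbidden minor of size aleph one. -/

namespace Pool.Agent.Lib.MP_783f50_lc

open Pool.Agent.Lib.MP_2739cb_lc

set_option synthInstance.maxSize 100000

universe v

section Principle

variable {M : Type v} (E : M → M → Prop)

def Img (g α y : M) : Prop := ∀ v, E v y ↔ ∃ a, E a α ∧ App E g a v

def Tot (f A B : M) : Prop := ∀ a, E a A → ∃ b, E b B ∧ App E f a b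

def Refl (w₁ V S c : M) : Prop :=
  ∃ g, Tot E g w₁ V ∧ (∀ a b b', App E g a b → App E g a b' → b = b') ∧
    (∀ α y, E α w₁ → Img E g α y → ∃ z, App E c y z ∧ ∀ t, E t z → ∃ a, E a w₁ ∧ App E g a t) ∧
    ∀ f, Tot E f w₁ w₁ → ∃ δ, E δ w₁ ∧ (∃ a, E a δ) ∧ Tot E f δ δ ∧ ∃ y, Img E g δ y ∧ E y S

end Principle

variable {M : Type v} [ZM M]

/-- Either `S` reflects along a chain of length omega one closed under `c`, or some algebraic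
closure system avoids `S`. -/
def Dich (M : Type v) [ZM M] : Prop :=
  ∀ V S c : M, (∃ a, a ∈ V) →
    (∀ y, y ⊆ V → Cov (EE M) (om M) y → ∃ z, z ⊆ V ∧ Cov (EE M) (om M) z ∧ App (EE M) c y z) →
      Refl (EE M) (om1 M) V S c ∨ ∃ Z, ClSys V S Z

noncomputable def yy (V g α : M) : M := sep V fun v => ∃ a, a ∈ α ∧ app g a = v

theorem mem_yy {V g α v : M} : v ∈ yy V g α ↔ v ∈ V ∧ ∃ a, a ∈ α ∧ app g a = v := mem_sep

instance DF.yy {α : Type v} [Ctx M α] (V g : M) (s : α → M) [DF M s] :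
    DF M (no_index fun x => yy V g (s x)) :=
  have : DF M fun z : M => MP_783f50_lc.yy V g z := by unfold MP_783f50_lc.yy; infer_instance
  DF.comp (fun z : M => MP_783f50_lc.yy V g z) s

theorem yy_mono {V g α β : M} (h : α ⊆ β) : yy V g α ⊆ yy V g β := fun _ hz =>
  let ⟨h1, a, h2, h3⟩ := mem_yy.1 hz; mem_yy.2 ⟨h1, a, h a h2, h3⟩

theorem ctbl_yy {V g α : M} (h : α ∈ om1 M) : Ctbl (yy V g α) :=
  (ctbl_of_mem_om1 h).img (fun a => app g a) fun _ hz =>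
    let ⟨_, a, h2, h3⟩ := mem_yy.1 hz; ⟨a, h2, h3.symm⟩

theorem sub1 {a b : M} (hb : b ∈ om1 M) (h : a ∈ b) : a ⊆ b := fun _ hz =>
  (od_om1.mem hb).trans h hz

structure Setup (V A g C S f : M) : Prop where
  gV : ∀ a, a ∈ om1 M → app g a ∈ V
  st : FStat S
  sub : ∀ α, α ∈ S → app C α ⊆ V
  ct : ∀ α, α ∈ S → Ctbl (app C α)
  dis : ∀ α u, α ∈ S → u ∈ app C α → u ∉ yy V g α
  con : ∀ α, α ∈ S → ∃ a, a ∈ app C α ∧ ∀ u, u ∈ app C α → Conn A (app C α) a u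
  inf : ∀ α, α ∈ S → Inf (nb A (yy V g α) (app C α))
  f1 : ∀ η, η ∈ om1 M → app f η ∈ om1 M
  f2 : ∀ η, η ∈ om1 M → η ∈ app f η
  f3 : ∀ η α, η ∈ om1 M → α ∈ S → α ∈ suc η → app C α ⊆ yy V g (app f η)
  cl : ∀ δ, δ ∈ S → Cl f δ
  yc : ∀ u v, u ∈ yy V g (om1 M) → v ∈ yy V g (om1 M) → Conn A (yy V g (om1 M)) u v

variable {V A : M}

def CR (A V y z : M) : Prop :=
  Ctbl z ∧ (∀ u v, u ∈ y → v ∈ y → Conn A z u v) ∧ (y ∈ bad A V → ∃ C, C ⊆ z ∧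
    (∀ u, u ∈ C → u ∉ y) ∧ (∃ a, a ∈ C ∧ ∀ u, u ∈ C → Conn A C a u) ∧ Inf (nb A y C))

instance DP.cr {α : Type v} [Ctx M α] (A V : M) (s t : α → M) [DF M s] [DF M t] :
    DP M (no_index fun x => CR A V (s x) (t x)) :=
  have : DP M fun z : M × M => CR A V z.1 z.2 := by unfold CR; infer_instance
  DP.comp (fun z : M × M => CR A V z.1 z.2) fun x => (s x, t x)

theorem exists_cr (hG : Gr V A) {y : M} (hy : y ⊆ V) (hc : Ctbl y) : ∃ z, z ⊆ V ∧ CR A V y z := by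
  obtain ⟨a, ha⟩ := hG.ne
  obtain ⟨z, h1, h2, -, h3, h4⟩ := hull ha hc fun v hv => hG.conn a v ha (hy v hv)
  have h5 : ∀ u v, u ∈ y → v ∈ y → Conn A z u v := fun u v hu hv =>
    ((h4 u (h3 u hu)).symm hG.sym).trans (h4 v (h3 v hv))
  by_cases hb : y ∈ bad A V
  · obtain ⟨-, b, h6, h7⟩ := mem_bad.1 hb
    obtain ⟨k, hk⟩ := choice (bd A V y b) V (fun u v => Conn A (V \ y) b v ∧ op u v ∈ A)
      fun u hu => let ⟨_, v, h8, h9⟩ := mem_bd.1 hu; ⟨v, (hG.mem _ _ h9).2, h8, h9⟩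
    obtain ⟨B, hB⟩ := exists_img (bd A V y b) fun u => app k u
    obtain ⟨C, h8, h9, h10, h11, h12⟩ := hull (A := A) (B := B) h6
      ((hc.mono fun u hu => (mem_bd.1 hu).1).img (fun u => app k u) fun z hz => (hB z).1 hz)
      fun v hv => by obtain ⟨u, hu, rfl⟩ := (hB v).1 hv; exact (hk u hu).2.1
    refine ⟨z ∪ C, fun t ht => (mem_union.1 ht).elim (h1 t) fun h => (mem_diff.1 (h8 t h)).1,
      h2.union h9, fun u v hu hv => (h5 u v hu hv).mono fun t ht => by simp [ht], fun _ =>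
      ⟨C, fun t ht => by simp [ht], fun u hu => (mem_diff.1 (h8 u hu)).2, ⟨b, h10, h12⟩,
        h7.mono fun u hu => mem_nb.2 ⟨(mem_bd.1 hu).1, _, h11 _ ((hB _).2 ⟨u, hu, rfl⟩),
          (hk u hu).2.2⟩⟩⟩
  · exact ⟨z, h1, h2, h5, fun h => absurd h hb⟩

theorem exists_setup {c : M} (hc : ∀ y z, op y z ∈ c → z ⊆ V ∧ CR A V y z)
    (h : Refl (EE M) (om1 M) V (bad A V) c) : ∃ g C S f, Setup V A g C S f := by
  obtain ⟨g, h1, h2, h3, h4⟩ := h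
  have hg : ∀ a b, App (EE M) g a b → app g a = b := fun a b h =>
    app_eq (app_iff.1 h) fun b' hb => h2 a b' b (app_iff.2 hb) h
  have hg' : ∀ a, a ∈ om1 M → app g a ∈ V ∧ App (EE M) g a (app g a) := fun a ha => by
    obtain ⟨b, h5, h6⟩ := h1 a ha
    rw [hg a b h6]; exact ⟨h5, h6⟩
  have himg : ∀ α, α ∈ om1 M → ∀ y, Img (EE M) g α y ↔ y = yy V g α := fun α hα y => by
    rw [zext_iff]
    refine forall_congr' fun v => iff_congr Iff.rfl ⟨?_, ?_⟩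
    · rintro ⟨a, h5, h6⟩
      exact mem_yy.2 ⟨hg a v h6 ▸ (hg' a (od_om1.trans hα h5)).1, a, h5, hg a v h6⟩
    · intro hv
      obtain ⟨-, a, h5, rfl⟩ := mem_yy.1 hv
      exact ⟨a, h5, (hg' a (od_om1.trans hα h5)).2⟩
  obtain ⟨z, hz⟩ := choice (om1 M) (pw V)
    (fun α z => CR A V (yy V g α) z ∧ z ⊆ yy V g (om1 M)) fun α hα => by
      obtain ⟨z, h5, h6⟩ := h3 α _ hα ((himg α hα _).2 rfl)
      obtain ⟨h7, h8⟩ := hc _ _ (app_iff.1 h5)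
      exact ⟨z, mem_pw.2 h7, h8, fun t ht =>
        let ⟨a, h9, h10⟩ := h6 t ht; mem_yy.2 ⟨h7 t ht, a, h9, hg a t h10⟩⟩
  obtain ⟨S0, hS0⟩ := exists_sep (om1 M) fun α => yy V g α ∈ bad A V
  obtain ⟨C, hC⟩ := choice S0 (pw V) (fun α C => C ⊆ app z α ∧ (∀ u, u ∈ C → u ∉ yy V g α) ∧
      (∃ a, a ∈ C ∧ ∀ u, u ∈ C → Conn A C a u) ∧ Inf (nb A (yy V g α) C)) fun α hα => by
    obtain ⟨h5, h6⟩ := (hS0 α).1 hα
    obtain ⟨C, h7⟩ := (hz α h5).2.1.2.2 h6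
    exact ⟨C, mem_pw.2 (sub_trans h7.1 (mem_pw.1 (hz α h5).1)), h7⟩
  obtain ⟨f, hf⟩ := choice (om1 M) (om1 M)
    (fun η b => η ∈ b ∧ ∀ α, α ∈ suc η → app z α ⊆ yy V g b) fun η hη => by
      have h5 := suc_mem_om1 hη
      obtain ⟨U, hU⟩ := exists_sep V fun t => ∃ α, α ∈ suc η ∧ t ∈ app z α
      obtain ⟨i, hi⟩ := choice U (om1 M) (fun t a => app g a = t) fun t ht =>
        let ⟨_, α, h6, h7⟩ := (hU t).1 ht
        (mem_yy.1 ((hz α (od_om1.trans h5 h6)).2.2 t h7)).2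
      obtain ⟨b, h6, h7⟩ := ((ctbl_of_mem_om1 h5).cover' (U := U) (fun α => app z α)
        (fun α hα => (hz α (od_om1.trans h5 hα)).2.1.1) fun t ht => ((hU t).1 ht).2).bdd
        (fun t => app i t) fun t ht => (hi t ht).1
      refine ⟨b ∪ suc η, od_om1.union_mem h6 h5, by simp, fun α hα t ht => ?_⟩
      have h8 := mem_pw.1 (hz α (od_om1.trans h5 hα)).1 t ht
      have h9 := (hU t).2 ⟨h8, α, hα, ht⟩
      exact mem_yy.2 ⟨h8, _, mem_union.2 (Or.inl (h7 t h9)), (hi t h9).2⟩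
  have hst : FStat S0 := by
    refine ⟨fun α hα => ((hS0 α).1 hα).1, fun k hk => ?_⟩
    obtain ⟨k', -, h5⟩ := exists_isFun (om1 M) (om1 M) (fun a => app k a) hk
    obtain ⟨δ, h6, h7, h8, y, h9, h10⟩ := h4 k' fun a ha => ⟨_, hk a ha, (h5 _ _).2 ⟨ha, rfl⟩⟩
    refine ⟨δ, (hS0 δ).2 ⟨h6, (himg δ h6 y).1 h9 ▸ h10⟩, h7, fun a ha => ?_⟩
    obtain ⟨b, h11, h12⟩ := h8 a ha
    exact ((h5 _ _).1 h12).2 ▸ h11
  refine ⟨g, C, _, f, fun a ha => (hg' a ha).1, hst.inter fun a ha => (hf a ha).1,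
    fun α hα => mem_pw.1 (hC α (mem_sep.1 hα).1).1,
    fun α hα => (hz α (hst.1 α (mem_sep.1 hα).1)).2.1.1.mono (hC α (mem_sep.1 hα).1).2.1,
    fun α u hα => (hC α (mem_sep.1 hα).1).2.2.1 u, fun α hα => (hC α (mem_sep.1 hα).1).2.2.2.1,
    fun α hα => (hC α (mem_sep.1 hα).1).2.2.2.2, fun a ha => (hf a ha).1,
    fun a ha => (hf a ha).2.1,
    fun η α hη hα h5 => sub_trans (hC α (mem_sep.1 hα).1).2.1 ((hf η hη).2.2 α h5),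
    fun δ hδ => (mem_sep.1 hδ).2, fun u v hu hv => ?_⟩
  obtain ⟨h5, a, h6, h7⟩ := mem_yy.1 hu
  obtain ⟨h8, b, h9, h10⟩ := mem_yy.1 hv
  have h11 := od_om1.union_mem (suc_mem_om1 h6) (suc_mem_om1 h9)
  exact ((hz _ h11).2.1.2.1 u v (mem_yy.2 ⟨h5, a, by simp, h7⟩)
    (mem_yy.2 ⟨h8, b, by simp, h10⟩)).mono (hz _ h11).2.2

theorem isMinor_of (U B : M) (β : M → M) [DF M β]
    (h1 : ∀ x, x ∈ U → β x ⊆ V ∧ Connected (EE M) (om M) A (β x) ∧ Ctbl (β x))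
    (h2 : ∀ x y z, x ∈ U → y ∈ U → z ∈ β x → z ∈ β y → x = y)
    (h3 : ∀ x y, op x y ∈ B → ∃ a b, a ∈ β x ∧ b ∈ β y ∧ op a b ∈ A) :
    IsMinor (EE M) (om M) U B V A := by
  obtain ⟨b, h4, h5⟩ := exists_isFun U (pw V) β fun x hx => mem_pw.2 (h1 x hx).1
  refine ⟨b, _, h4, fun x X h => ?_, fun x y X Y z h6 h7 => ?_, fun x y X Y h6 h7 h8 => ?_⟩
  · obtain ⟨h6, rfl⟩ := (h5 _ _).1 h
    exact ⟨(h1 x h6).1, (h1 x h6).2.1, (h1 x h6).2.2.cardLe⟩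
  · obtain ⟨h8, rfl⟩ := (h5 _ _).1 h6
    obtain ⟨h9, rfl⟩ := (h5 _ _).1 h7
    exact h2 x y z h8 h9
  · obtain ⟨-, rfl⟩ := (h5 _ _).1 h7
    obtain ⟨-, rfl⟩ := (h5 _ _).1 h8
    obtain ⟨a, b, h9, h10, h11⟩ := h3 x y (app_iff.1 h6)
    exact ⟨a, b, h9, h10, app_iff.2 h11⟩

theorem connected_single (hA : Sym A) (a : M) : Connected (EE M) (om M) A {a} :=
  connected_of hA (mem_single.2 rfl) fun u hu => by
    rw [mem_single.1 hu]; exact Conn.refl (mem_single.2 rfl)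

variable {g C S f : M}

theorem Setup.sub_yy (h : Setup V A g C S f) {α α' : M} (h1 : α ∈ S) (h2 : α' ∈ S)
    (h3 : α ∈ α') : app C α ⊆ yy V g α' :=
  sub_trans (h.f3 α α (h.st.1 α h1) h1 (self_mem_suc α))
    (yy_mono (sub1 (h.st.1 _ h2) (h.cl α' h2 α h3)))

theorem Setup.disj (h : Setup V A g C S f) {α α' u : M} (h1 : α ∈ S) (h2 : α' ∈ S)
    (h3 : u ∈ app C α) (h4 : u ∈ app C α') : α = α' := by
  rcases od_om1.tri (h.st.1 _ h1) (h.st.1 _ h2) with h5 | h5 | h5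
  · exact absurd (h.sub_yy h1 h2 h5 u h3) (h.dis _ _ h2 h4)
  · exact h5
  · exact absurd (h.sub_yy h2 h1 h5 u h4) (h.dis _ _ h1 h3)

theorem Setup.conn (hG : Gr V A) (h : Setup V A g C S f) {α : M} (h1 : α ∈ S) :
    Connected (EE M) (om M) A (app C α) :=
  let ⟨_, h2, h3⟩ := h.con α h1; connected_of hG.sym h2 h3

theorem case1 (hG : Gr V A) (h : Setup V A g C S f) {β : M} (hβ : β ∈ om1 M)
    (hu : ∀ γ, γ ∈ om1 M → ∃ α, α ∈ S ∧ γ ∈ α ∧ Inf (nb A (yy V g β) (app C α))) :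
    ∃ U B, IsGraph (EE M) U B ∧ Connected (EE M) (om M) B U ∧
      IsAleph01 (EE M) (om M) (om1 M) U B ∧ IsMinor (EE M) (om M) U B V A := by
  obtain ⟨a0, ha0⟩ : ∃ a, ∀ γ, γ ∈ om1 M → ∃ α, α ∈ S ∧ γ ∈ α ∧
      Inf (nb A (yy V g β) (app C α)) ∧ a ∈ nb A (yy V g β) (app C α) := by
    by_contra hc
    push Not at hc
    obtain ⟨k, hk⟩ := choice (yy V g β) (om1 M) (fun a γ => ∀ α, α ∈ S → γ ∈ α →
      Inf (nb A (yy V g β) (app C α)) → a ∉ nb A (yy V g β) (app C α)) fun a _ => hc a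
    obtain ⟨b, h1, h2⟩ := (ctbl_yy hβ).bdd (fun a => app k a) fun a ha => (hk a ha).1
    obtain ⟨α, h3, h4, h5⟩ := hu b h1
    obtain ⟨a, ha⟩ := h5.nonempty
    have h6 := (mem_nb.1 ha).1
    exact (hk a h6).2 α h3 (sub1 (h.st.1 α h3) h4 _ (h2 a h6)) h5 ha
  obtain ⟨L, hL⟩ := exists_sep S fun α => β ∈ α ∧ Inf (nb A (yy V g β) (app C α)) ∧
    a0 ∈ nb A (yy V g β) (app C α)
  have hLu : ∀ γ, γ ∈ om1 M → ∃ α, α ∈ L ∧ γ ∈ α := fun γ hγ => by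
    obtain ⟨α, h1, h2, h3⟩ := ha0 _ (od_om1.union_mem hγ hβ)
    have h4 := od_om1.mem (h.st.1 α h1)
    exact ⟨α, (hL α).2 ⟨h1, (od_om1.mem hβ).mem_of_sub h4 (fun z hz => by simp [hz]) h2, h3⟩,
      (od_om1.mem hγ).mem_of_sub h4 (fun z hz => by simp [hz]) h2⟩
  obtain ⟨π, hπ1, hπ2, hπ3⟩ := enum reg_om1 (fun α hα => h.st.1 α ((hL α).1 hα).1) hLu
  obtain ⟨P0, hP0⟩ := exists_sep (yy V g β) fun a => ∃ α, α ∈ L ∧ a ∈ nb A (yy V g β) (app C α)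
  obtain ⟨P, hP⟩ := exists_img P0 fun a => ({a} : M)
  obtain ⟨Q, hQ⟩ := exists_img L fun α => app C α
  obtain ⟨B, hB1, hB⟩ := exists_rel (P ∪ Q) (P ∪ Q) fun x y =>
    ((x ∈ P ∧ y ∈ Q) ∨ (x ∈ Q ∧ y ∈ P)) ∧ ∃ a b, a ∈ x ∧ b ∈ y ∧ op a b ∈ A
  have hd : ∀ a α, a ∈ P0 → α ∈ L → a ∉ app C α := fun a α h1 h2 h3 =>
    h.dis α a ((hL α).1 h2).1 h3
      (yy_mono (sub1 (h.st.1 α ((hL α).1 h2).1) ((hL α).1 h2).2.1) a ((hP0 a).1 h1).1)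
  have hPQ : ∀ z, z ∈ P → z ∉ Q := fun z h1 h2 => by
    obtain ⟨a, h3, rfl⟩ := (hP z).1 h1
    obtain ⟨α, h4, e⟩ := (hQ _).1 h2
    exact hd a α h3 h4 (e ▸ mem_single.2 rfl)
  have hsym : Sym B := fun x y e => by
    obtain ⟨h1, h2, h3, a, b, h4, h5, h6⟩ := (hB _ _).1 e
    exact (hB _ _).2 ⟨h2, h1, by tauto, b, a, h5, h4, hG.sym _ _ h6⟩
  have hedge : ∀ a α, α ∈ L → a ∈ nb A (yy V g β) (app C α) →
      ({a} : M) ∈ P ∧ op {a} (app C α) ∈ B := fun a α h1 h2 => by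
    have h3 : ({a} : M) ∈ P := (hP _).2 ⟨a, (hP0 a).2 ⟨(mem_nb.1 h2).1, α, h1, h2⟩, rfl⟩
    have h4 : app C α ∈ Q := (hQ _).2 ⟨α, h1, rfl⟩
    obtain ⟨-, b, h5, h6⟩ := mem_nb.1 h2
    exact ⟨h3, (hB _ _).2 ⟨by simp [h3], by simp [h4], Or.inl ⟨h3, h4⟩, a, b, by simp, h5, h6⟩⟩
  obtain ⟨α0, hα0, -⟩ := hLu ∅ empty_mem_om1
  have h0 : ({a0} : M) ∈ P ∪ Q := mem_union.2 (Or.inl (hedge a0 α0 hα0 ((hL _).1 hα0).2.2.2).1)
  have hc : ∀ α, α ∈ L → Conn B (P ∪ Q) {a0} (app C α) := fun α hα =>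
    (Conn.refl h0).step (mem_union.2 (Or.inr ((hQ _).2 ⟨α, hα, rfl⟩)))
      (hedge a0 α hα ((hL _).1 hα).2.2.2).2
  have hsi : ∀ x x' : M, ({x} : M) = {x'} → x = x' := fun x x' e =>
    mem_single.1 (e ▸ mem_single.2 rfl)
  refine ⟨P ∪ Q, B, isGraph_of hB1 hsym fun a e => ?_, connected_of hsym h0 fun u hu => ?_,
    ⟨P, Q, fun z => mem_union, hPQ, Inf.cardEq ?_ ?_, ?_, fun x y e => ?_, fun y hy => ?_⟩,
    isMinor_of _ _ (fun x => x) (fun x hx => ?_) (fun x y z hx hy h1 h2 => ?_)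
      fun x y e => ((hB _ _).1 e).2.2.2⟩
  · rcases ((hB _ _).1 e).2.2.1 with h1 | h1
    · exact hPQ a h1.1 h1.2
    · exact hPQ a h1.2 h1.1
  · rcases mem_union.1 hu with h1 | h1
    · obtain ⟨a, h2, rfl⟩ := (hP u).1 h1
      obtain ⟨-, α, h3, h4⟩ := (hP0 a).1 h2
      exact (hc α h3).step hu (hsym _ _ (hedge a α h3 h4).2)
    · obtain ⟨α, h2, rfl⟩ := (hQ u).1 h1
      exact hc α h2
  · exact ((hL _).1 hα0).2.2.1.img (fun a => ({a} : M)) (fun a ha => (hedge a α0 hα0 ha).1)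
      fun x x' _ _ => hsi x x'
  · exact ((ctbl_yy hβ).mono fun a ha => ((hP0 a).1 ha).1).img (fun a => ({a} : M))
      fun z hz => (hP z).1 hz
  · refine cardEq_of _ _ (fun ξ => app C (app π ξ)) (fun ξ hξ => (hQ _).2 ⟨_, hπ1 ξ hξ, rfl⟩)
      (fun ξ ξ' hξ hξ' e => ?_) fun y hy => ?_
    · obtain ⟨u, hu, -⟩ := h.con _ ((hL _).1 (hπ1 ξ hξ)).1
      have h1 := h.disj ((hL _).1 (hπ1 ξ hξ)).1 ((hL _).1 (hπ1 ξ' hξ')).1 hu (e ▸ hu)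
      rcases od_om1.tri hξ hξ' with h2 | h2 | h2
      · exact absurd (h1 ▸ hπ2 _ _ hξ' h2) (mem_irrefl _)
      · exact h2
      · exact absurd (h1 ▸ hπ2 _ _ hξ h2) (mem_irrefl _)
    · obtain ⟨α, h1, rfl⟩ := (hQ y).1 hy
      obtain ⟨ξ, h2, rfl⟩ := hπ3 α h1
      exact ⟨ξ, h2, rfl⟩
  · exact ((hB _ _).1 (app_iff.1 e)).2.2.1
  · obtain ⟨α, h1, rfl⟩ := (hQ y).1 hy
    refine ⟨sep P fun x => op (app C α) x ∈ B, Inf.cardLe ?_,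
      fun x hx => app_iff.2 (mem_sep.1 hx).2⟩
    exact ((hL _).1 h1).2.2.1.img (fun a => ({a} : M))
      (fun a ha => mem_sep.2 ⟨(hedge a α h1 ha).1, hsym _ _ (hedge a α h1 ha).2⟩)
      fun x x' _ _ => hsi x x'
  · rcases mem_union.1 hx with h1 | h1
    · obtain ⟨a, h2, rfl⟩ := (hP x).1 h1
      exact ⟨fun z hz => mem_single.1 hz ▸ (mem_yy.1 ((hP0 a).1 h2).1).1,
        connected_single hG.sym a, ctbl_single a⟩
    · obtain ⟨α, h2, rfl⟩ := (hQ x).1 h1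
      have h3 := ((hL α).1 h2).1
      exact ⟨h.sub α h3, h.conn hG h3, h.ct α h3⟩
  · rcases mem_union.1 hx with h3 | h3 <;> rcases mem_union.1 hy with h4 | h4
    · obtain ⟨a, -, rfl⟩ := (hP x).1 h3
      obtain ⟨b, -, rfl⟩ := (hP y).1 h4
      rw [← mem_single.1 h1, ← mem_single.1 h2]
    · obtain ⟨a, h5, rfl⟩ := (hP x).1 h3
      obtain ⟨α, h6, rfl⟩ := (hQ y).1 h4
      exact absurd (mem_single.1 h1 ▸ h2) (hd a α h5 h6)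
    · obtain ⟨a, h5, rfl⟩ := (hP y).1 h4
      obtain ⟨α, h6, rfl⟩ := (hQ x).1 h3
      exact absurd (mem_single.1 h2 ▸ h1) (hd a α h5 h6)
    · obtain ⟨α, h5, rfl⟩ := (hQ x).1 h3
      obtain ⟨α', h6, rfl⟩ := (hQ y).1 h4
      rw [h.disj ((hL _).1 h5).1 ((hL _).1 h6).1 h1 h2]

theorem sU_suc {a : M} (ha : Od a) : sU (suc a) = a := zext fun z => by
  simp only [mem_sU, mem_suc]
  exact ⟨fun ⟨y, h1, h2⟩ => h1.elim (fun h => ha.trans h h2) fun h => h ▸ h2,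
    fun h => ⟨a, Or.inr rfl, h⟩⟩

theorem case2 (hG : Gr V A) (h : Setup V A g C S f)
    (hu : ∀ δ β, δ ∈ S → β ∈ δ → ¬ Inf (nb A (yy V g β) (app C δ))) :
    ∃ B S, IsGraph (EE M) (om1 M) B ∧ Connected (EE M) (om M) B (om1 M) ∧
      IsStationary (EE M) (om1 M) S ∧ IsSGraph (EE M) (om M) B S ∧
        IsMinor (EE M) (om M) (om1 M) B V A := by
  have hS := h.st.1
  have hlim : ∀ δ ζ, δ ∈ S → ζ ∈ δ → suc ζ ∈ δ := fun δ ζ h1 h2 =>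
    (od_om1.mem (hS δ h1)).suc_mem (h.cl δ h1 ζ h2) (h.f2 ζ (od_om1.trans (hS δ h1) h2))
  obtain ⟨L, hL⟩ := exists_sep (om1 M) fun l => l ∈ S ∨ ∃ ζ, l = suc ζ ∧
    (∀ α, α ∈ S → app g ζ ∉ app C α) ∧ ∀ ζ', ζ' ∈ ζ → app g ζ' ≠ app g ζ
  obtain ⟨p, -, hp⟩ := exists_lam L fun l => zite (l ∈ S) (app C l) {app g (sU l)}
  have hp1 : ∀ l, l ∈ S → app p l = app C l := fun l hl => by
    rw [hp l ((hL l).2 ⟨hS l hl, Or.inl hl⟩), zite_pos hl]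
  have hp2 : ∀ l, l ∈ L → l ∈ S ∨ ∃ ζ, ζ ∈ om1 M ∧ l = suc ζ ∧ app p l = {app g ζ} ∧
      (∀ α, α ∈ S → app g ζ ∉ app C α) ∧ ∀ ζ', ζ' ∈ ζ → app g ζ' ≠ app g ζ := fun l hl => by
    obtain ⟨h1, h2 | ⟨ζ, rfl, h2⟩⟩ := (hL l).1 hl
    · exact Or.inl h2
    · have h3 := od_om1.trans h1 (self_mem_suc ζ)
      refine Or.inr ⟨ζ, h3, rfl, ?_, h2⟩
      rw [hp _ hl, zite_neg fun h4 => mem_irrefl _ (hlim _ ζ h4 (self_mem_suc ζ)),
        sU_suc (od_om1.mem h3)]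
  have P1 : ∀ ζ, ζ ∈ om1 M → ∃ l, l ∈ L ∧ app g ζ ∈ app p l ∧ ∀ s, s ∈ S → ζ ∈ s → l ∈ s := by
    intro ζ hζ
    by_cases hc : ∃ α, α ∈ S ∧ app g ζ ∈ app C α
    · obtain ⟨α, h1, h2⟩ := hc
      refine ⟨α, (hL α).2 ⟨hS α h1, Or.inl h1⟩, by rwa [hp1 α h1], fun s hs h3 => ?_⟩
      have h4 : app g ζ ∈ yy V g s := mem_yy.2 ⟨h.gV ζ hζ, ζ, h3, rfl⟩
      rcases od_om1.tri (hS α h1) (hS s hs) with h5 | rfl | h5
      · exact h5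
      · exact absurd h4 (h.dis _ _ h1 h2)
      · exact absurd (yy_mono (sub1 (hS α h1) h5) _ h4) (h.dis _ _ h1 h2)
    · push Not at hc
      obtain ⟨ζ0, h1, h2, h3⟩ := exists_min (om1 M) (fun a => app g a = app g ζ) ⟨ζ, hζ, rfl⟩
      have h4 : suc ζ0 ∈ L := (hL _).2 ⟨suc_mem_om1 h1, Or.inr ⟨ζ0, rfl, h2 ▸ hc,
        fun ζ' h4 => h2 ▸ h3 ζ' h4 (od_om1.trans h1 h4)⟩⟩
      refine ⟨_, h4, ?_, fun s hs h5 => hlim s ζ0 hs ?_⟩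
      · rcases hp2 _ h4 with h5 | ⟨ζ1, -, h5, h6, -⟩
        · exact absurd (hlim _ ζ0 h5 (self_mem_suc _)) (mem_irrefl _)
        · rw [h6, ← suc_inj h5, h2]; simp
      · rcases od_om1.tri h1 hζ with h6 | rfl | h6
        · exact sub1 (hS s hs) h5 _ h6
        · exact h5
        · exact absurd rfl (h3 ζ h6 hζ)
  have P2 : ∀ l l' u, l ∈ L → l' ∈ L → u ∈ app p l → u ∈ app p l' → l = l' := by
    intro l l' u hl hl' h1 h2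
    rcases hp2 l hl with h3 | ⟨ζ, h3, rfl, h4, h5, h6⟩ <;>
      rcases hp2 l' hl' with h7 | ⟨ζ', h7, rfl, h8, h9, h10⟩
    · exact h.disj h3 h7 (hp1 l h3 ▸ h1) (hp1 l' h7 ▸ h2)
    · rw [h8, mem_single] at h2
      exact absurd (h2 ▸ hp1 l h3 ▸ h1) (h9 l h3)
    · rw [h4, mem_single] at h1
      exact absurd (h1 ▸ hp1 l' h7 ▸ h2) (h5 l' h7)
    · rw [h4, mem_single] at h1
      rw [h8, mem_single] at h2
      rcases od_om1.tri h3 h7 with h11 | rfl | h11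
      · exact absurd (h1.symm.trans h2) (h10 ζ h11)
      · rfl
      · exact absurd (h2.symm.trans h1) (h6 ζ' h11)
  have P3 : ∀ l η, l ∈ L → η ∈ om1 M → l ∈ suc η → app p l ⊆ yy V g (app f η) := by
    intro l η hl hη h1
    rcases hp2 l hl with h3 | ⟨ζ, h3, rfl, h4, -⟩
    · rw [hp1 l h3]; exact h.f3 η l hη h3 h1
    · intro z hz
      rw [h4, mem_single] at hz
      exact mem_yy.2 ⟨hz ▸ h.gV ζ h3, ζ, sub1 (h.f1 η hη) (h.f2 η hη) ζ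
        (sub_of_mem_suc (od_om1.mem hη) h1 ζ (self_mem_suc ζ)), hz.symm⟩
  have P4 : ∀ l, l ∈ L →
      app p l ⊆ V ∧ Connected (EE M) (om M) A (app p l) ∧ Ctbl (app p l) := fun l hl => by
    rcases hp2 l hl with h3 | ⟨ζ, h3, rfl, h4, -⟩
    · rw [hp1 l h3]; exact ⟨h.sub l h3, h.conn hG h3, h.ct l h3⟩
    · rw [h4]
      exact ⟨fun z hz => mem_single.1 hz ▸ h.gV ζ h3, connected_single hG.sym _, ctbl_single _⟩
  have hL1 : L ⊆ om1 M := fun l hl => ((hL l).1 hl).1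
  obtain ⟨π, hπ1, hπ2, hπ3⟩ := enum reg_om1 hL1 fun a ha =>
    let ⟨l, h1, h2⟩ := h.st.unbdd a ha; ⟨l, (hL l).2 ⟨hS l h1, Or.inl h1⟩, h2⟩
  have hπ4 := le_of_mono od_om1 (fun ξ hξ => hL1 _ (hπ1 ξ hξ)) hπ2
  have hπ5 : ∀ ξ ξ', ξ ∈ om1 M → ξ' ∈ om1 M → app π ξ = app π ξ' → ξ = ξ' := by
    intro ξ ξ' hξ hξ' h1
    rcases od_om1.tri hξ hξ' with h2 | h2 | h2
    · exact absurd (h1 ▸ hπ2 _ _ hξ' h2) (mem_irrefl _)
    · exact h2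
    · exact absurd (h1 ▸ hπ2 _ _ hξ h2) (mem_irrefl _)
  obtain ⟨B, hB1, hB⟩ := exists_rel (om1 M) (om1 M) fun x y => x ≠ y ∧
    ∃ a b, a ∈ app p (app π x) ∧ b ∈ app p (app π y) ∧ op a b ∈ A
  have hsym : Sym B := fun x y e => by
    obtain ⟨h1, h2, h3, a, b, h4, h5, h6⟩ := (hB _ _).1 e
    exact (hB _ _).2 ⟨h2, h1, h3.symm, b, a, h5, h4, hG.sym _ _ h6⟩
  have hY : ∀ ξ u, ξ ∈ om1 M → u ∈ app p (app π ξ) → u ∈ yy V g (om1 M) := fun ξ u hξ hu =>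
    yy_mono (fun z hz => od_om1.trans (h.f1 _ (hL1 _ (hπ1 ξ hξ))) hz) u
      (P3 _ _ (hπ1 ξ hξ) (hL1 _ (hπ1 ξ hξ)) (self_mem_suc _) u hu)
  refine ⟨B, _, isGraph_of hB1 hsym fun a e => ((hB _ _).1 e).2.2.1 rfl,
    connected_of hsym empty_mem_om1 fun ξ hξ => ?_,
    (h.st.inter fun ξ hξ => hL1 _ (hπ1 ξ hξ)).stationary, fun s hs => ⟨?_, fun γ hγ => ?_⟩,
    isMinor_of _ _ (fun ξ => app p (app π ξ)) (fun ξ hξ => P4 _ (hπ1 ξ hξ))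
      (fun x y z hx hy h1 h2 => hπ5 x y hx hy (P2 _ _ z (hπ1 x hx) (hπ1 y hy) h1 h2))
      fun x y e => ((hB _ _).1 e).2.2.2⟩
  · obtain ⟨u, hu⟩ := (P4 _ (hπ1 ∅ empty_mem_om1)).2.1.1
    obtain ⟨v, hv⟩ := (P4 _ (hπ1 ξ hξ)).2.1.1
    refine (h.yc u v (hY _ u empty_mem_om1 hu) (hY _ v hξ hv)).ind
      (fun v => ∀ ξ, ξ ∈ om1 M → v ∈ app p (app π ξ) → Conn B (om1 M) ∅ ξ)
      (fun ξ hξ h1 => ?_) (fun v v' h1 _ e ih ξ' hξ' h2 => ?_) ξ hξ hv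
    · rw [← hπ5 _ _ empty_mem_om1 hξ (P2 _ _ u (hπ1 _ empty_mem_om1) (hπ1 ξ hξ) hu h1)]
      exact Conn.refl empty_mem_om1
    · obtain ⟨-, ζ, h3, rfl⟩ := mem_yy.1 h1.right_mem
      obtain ⟨l, h4, h5, -⟩ := P1 ζ h3
      obtain ⟨ξ, h6, rfl⟩ := hπ3 l h4
      by_cases h7 : ξ = ξ'
      · exact h7 ▸ ih ξ h6 h5
      · exact (ih ξ h6 h5).step hξ' ((hB _ _).2 ⟨h6, hξ', h7, _, _, h5, h2, e⟩)
  · refine ⟨sep s fun x => op s x ∈ B, ((ctbl_of_mem_om1 (hS s (mem_sep.1 hs).1)).mono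
      fun z hz => (mem_sep.1 hz).1).cardLe, fun x => ?_⟩
    rw [app_iff]; exact mem_sep
  · obtain ⟨h1, h2⟩ := mem_sep.1 hs
    have h3 := hS s h1
    have h4 : app π s = s := by
      obtain ⟨ξ, h4, h5⟩ := hπ3 s ((hL s).2 ⟨h3, Or.inl h1⟩)
      rcases (od_om1.mem h4).sub (od_om1.mem h3) (h5 ▸ hπ4 ξ h4) with rfl | h6
      · exact h5
      · exact absurd (h5 ▸ h2 ξ h6) (mem_irrefl s)
    have h5 := od_om1.trans h3 hγ
    have h6 := hL1 _ (hπ1 γ h5)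
    obtain ⟨u, h7, h8⟩ : ∃ u, u ∈ nb A (yy V g s) (app C s) ∧
        u ∉ nb A (yy V g (app f (app π γ))) (app C s) := by
      by_contra hc
      push Not at hc
      exact hu s _ h1 (h.cl s h1 _ (h2 γ hγ)) ((h.inf s h1).mono hc)
    obtain ⟨h9, a, h10, h11⟩ := mem_nb.1 h7
    obtain ⟨-, ζ, h12, rfl⟩ := mem_yy.1 h9
    obtain ⟨l, h13, h14, h15⟩ := P1 ζ (od_om1.trans h3 h12)
    obtain ⟨ξ, h16, rfl⟩ := hπ3 l h13
    have h17 := (od_om1.mem h16).mem_of_sub (od_om1.mem h3) (hπ4 ξ h16) (h15 s h1 h12)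
    refine ⟨ξ, h17, app_iff.2 ((hB _ _).2 ⟨h3, h16, fun e => mem_irrefl s (e ▸ h17), a, _,
      by rwa [h4, hp1 s h1], h14, hG.sym _ _ h11⟩), ?_⟩
    rcases od_om1.tri h5 h16 with h18 | h18 | h18
    · exact Or.inl h18
    · exact Or.inr h18
    · exact absurd (mem_nb.2 ⟨P3 _ _ h13 h6 (mem_suc.2 (Or.inl (hπ2 _ _ h5 h18))) _ h14,
        a, h10, h11⟩) h8

theorem main_internal (hD : Dich M) (V A : M) (h1 : IsGraph (EE M) V A)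
    (h2 : Connected (EE M) (om M) A V) (h3 : ¬ HasNST (EE M) (om M) V A) :
    (∃ U B, IsGraph (EE M) U B ∧ Connected (EE M) (om M) B U ∧
      IsAleph01 (EE M) (om M) (om1 M) U B ∧ IsMinor (EE M) (om M) U B V A) ∨
    ∃ B S, IsGraph (EE M) (om1 M) B ∧ Connected (EE M) (om M) B (om1 M) ∧
      IsStationary (EE M) (om1 M) S ∧ IsSGraph (EE M) (om M) B S ∧
        IsMinor (EE M) (om M) (om1 M) B V A := by
  have hG := gr_of h1 h2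
  obtain ⟨c, -, hc⟩ := exists_rel (pw V) (pw V) fun y z => CR A V y z
  rcases hD V (bad A V) c hG.ne (fun y hy h4 => by
    obtain ⟨z, h5, h6⟩ := exists_cr hG hy (ctbl_iff_cov.2 h4)
    exact ⟨z, h5, ctbl_iff_cov.1 h6.1, app_iff.2 ((hc _ _).2 ⟨mem_pw.2 hy, mem_pw.2 h5, h6⟩)⟩)
    with h4 | ⟨Z, h4⟩
  swap
  · exact absurd (hasNST_of_clSys hG h4) h3
  obtain ⟨g, C, S, f, h⟩ := exists_setup
    (fun y z e => ⟨mem_pw.1 ((hc _ _).1 e).2.1, ((hc _ _).1 e).2.2⟩) h4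
  by_cases h5 : ∃ β, β ∈ om1 M ∧
    ∀ γ, γ ∈ om1 M → ∃ α, α ∈ S ∧ γ ∈ α ∧ Inf (nb A (yy V g β) (app C α))
  · obtain ⟨β, h6, h7⟩ := h5
    exact Or.inl (case1 hG h h6 h7)
  push Not at h5
  obtain ⟨k, hk⟩ := choice (om1 M) (om1 M)
    (fun β γ => ∀ α, α ∈ S → γ ∈ α → ¬ Inf (nb A (yy V g β) (app C α))) h5
  refine Or.inr (case2 (g := g) (C := C) (S := sep S fun δ => Cl k δ) (f := f) hG
    ⟨h.gV, h.st.inter fun a ha => (hk a ha).1, fun α hα => h.sub α (mem_sep.1 hα).1,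
      fun α hα => h.ct α (mem_sep.1 hα).1, fun α u hα => h.dis α u (mem_sep.1 hα).1,
      fun α hα => h.con α (mem_sep.1 hα).1, fun α hα => h.inf α (mem_sep.1 hα).1, h.f1, h.f2,
      fun η α hη hα => h.f3 η α hη (mem_sep.1 hα).1, fun α hα => h.cl α (mem_sep.1 hα).1, h.yc⟩
    fun δ β hδ hβ => ?_)
  obtain ⟨h6, h7⟩ := mem_sep.1 hδ
  exact (hk β (od_om1.trans (h.st.1 δ h6) hβ)).2 δ h6 (h7 β hβ)

end Pool.Agent.Lib.MP_783f50_lc
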