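import Pool.Agent.Lib.MP_783f50_lc.Basic

/-! Ordinals, countable sets, infinite sets and stationary sets inside a model of ZFC. -/

namespace Pool.Agent.Lib.MP_783f50_lc

open Pool.Agent.Lib.MP_2739cb_lc

set_option synthInstance.maxSize 100000

universe v

variable {M : Type v} [ZM M]

abbrev om (M : Type v) [ZM M] : M := ZM.w

abbrev om1 (M : Type v) [ZM M] : M := ZM.w1

def Od (a : M) : Prop := IsOrd (EE M) a

theorem no_cycle {a b c : M} (h1 : a ∈ b) (h2 : b ∈ c) (h3 : c ∈ a) : False := by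
  obtain ⟨y, hy, -, h⟩ := exists_min (upair a b ∪ {c}) (fun _ => True) ⟨a, by simp⟩
  simp only [mem_union, mem_upair, mem_single] at hy h
  rcases hy with (rfl | rfl) | rfl
  · exact h c h3 (by simp) trivial
  · exact h a h1 (by simp) trivial
  · exact h b h2 (by simp) trivial

theorem mem_asymm' {a b : M} (h1 : a ∈ b) (h2 : b ∈ a) : False := by
  obtain ⟨y, hy, -, h⟩ := exists_min (upair a b) (fun _ => True) ⟨a, by simp⟩
  simp only [mem_upair] at hy h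
  rcases hy with rfl | rfl
  · exact h b h2 (by simp) trivial
  · exact h a h1 (by simp) trivial

theorem Od.trans {a b c : M} (h : Od a) (h1 : b ∈ a) (h2 : c ∈ b) : c ∈ a := h.1 b h1 c h2

theorem Od.tri {a x y : M} (h : Od a) (h1 : x ∈ a) (h2 : y ∈ a) : x ∈ y ∨ x = y ∨ y ∈ x :=
  h.2 x y h1 h2

theorem Od.mem {a b : M} (h : Od a) (hb : b ∈ a) : Od b := by
  refine ⟨fun c hc d hd => ?_, fun x y hx hy => h.tri (h.trans hb hx) (h.trans hb hy)⟩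
  rcases h.tri (h.trans (h.trans hb hc) hd) hb with h1 | rfl | h1
  · exact h1
  · exact (mem_asymm' hc hd).elim
  · exact (no_cycle h1 hd hc).elim

theorem Od.sub {a b : M} (ha : Od a) (hb : Od b) (h : a ⊆ b) : a = b ∨ a ∈ b :=
  ZM.zfc.ord_sub ha.1 hb h

theorem Od.mem_of_sub {a b c : M} (ha : Od a) (hc : Od c) (h : a ⊆ b) (hb : b ∈ c) : a ∈ c := by
  rcases ha.sub (hc.mem hb) h with rfl | h1
  · exact hb
  · exact hc.trans hb h1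

theorem Od.suc {a : M} (ha : Od a) : Od (suc a) := by
  refine ⟨fun x hx z hz => ?_, fun x y hx hy => ?_⟩
  · rcases mem_suc.1 hx with h | rfl
    · exact mem_suc.2 (Or.inl (ha.trans h hz))
    · exact mem_suc.2 (Or.inl hz)
  · rcases mem_suc.1 hx with h | rfl <;> rcases mem_suc.1 hy with h' | rfl
    · exact ha.tri h h'
    · exact Or.inl h
    · exact Or.inr (Or.inr h')
    · exact Or.inr (Or.inl rfl)

theorem od_empty : Od (∅ : M) :=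
  ⟨fun x hx => absurd hx (not_mem_empty x), fun x _ hx => absurd hx (not_mem_empty x)⟩

theorem Od.empty_mem {a b : M} (ha : Od a) (hb : b ∈ a) : ∅ ∈ a := by
  rcases od_empty.sub ha fun z hz => absurd hz (not_mem_empty z) with rfl | h
  · exact absurd hb (not_mem_empty b)
  · exact h

theorem Od.suc_mem {a b c : M} (hc : Od c) (hb : b ∈ c) (ha : a ∈ b) : MP_783f50_lc.suc a ∈ c := by
  refine ((hc.mem hb).mem ha).suc.mem_of_sub hc (fun z hz => ?_) hb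
  rcases mem_suc.1 hz with h | rfl
  · exact (hc.mem hb).trans ha h
  · exact ha

theorem Od.mem_suc_of_not {θ a b : M} (h : Od θ) (ha : a ∈ θ) (hb : b ∈ θ) (hab : b ∉ a) :
    a ∈ MP_783f50_lc.suc b := by
  rcases h.tri ha hb with h1 | h1 | h1
  · exact mem_suc.2 (Or.inl h1)
  · exact mem_suc.2 (Or.inr h1)
  · exact absurd h1 hab

theorem self_mem_suc (a : M) : a ∈ suc a := by simp

theorem suc_inj {a b : M} (h : suc a = suc b) : a = b := by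
  have h1 : a ∈ suc b := h ▸ self_mem_suc a
  have h2 : b ∈ suc a := h.symm ▸ self_mem_suc b
  rcases mem_suc.1 h1 with h3 | h3
  · rcases mem_suc.1 h2 with h4 | h4
    · exact (mem_asymm' h3 h4).elim
    · exact h4.symm
  · exact h3

theorem isSucc_iff {s x : M} : IsSucc (EE M) s x ↔ s = suc x := by
  rw [zext_iff]; simp [IsSucc]

theorem od_om : Od (om M) := ZM.hw.1.1

theorem od_om1 : Od (om1 M) := ZM.hw1.1

theorem empty_mem_om : ∅ ∈ om M := let ⟨_, h⟩ := (ZM.hw (M := M)).1.2.1; od_om.empty_mem h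

theorem suc_mem_om {n : M} (h : n ∈ om M) : suc n ∈ om M :=
  let ⟨_, h1, h2⟩ := (ZM.hw (M := M)).1.2.2 n h; od_om.suc_mem h1 h2

theorem nat_cases {n : M} (h : n ∈ om M) : n = ∅ ∨ ∃ m, m ∈ om M ∧ n = suc m := by
  rcases empty_or n with h1 | h1
  · exact Or.inl h1
  right
  have h2 : ¬ ∀ b, b ∈ n → ∃ c, c ∈ n ∧ b ∈ c := fun h2 => ZM.hw.2 n h ⟨od_om.mem h, h1, h2⟩
  push Not at h2
  obtain ⟨b, hb, h3⟩ := h2
  refine ⟨b, od_om.trans h hb, zext fun z => ⟨fun hz => ?_, fun hz => ?_⟩⟩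
  · exact (od_om.mem h).mem_suc_of_not hz hb (h3 z hz)
  · rcases mem_suc.1 hz with h4 | rfl
    · exact (od_om.mem h).trans hb h4
    · exact hb

theorem nat_induction (P : M → Prop) [DP M P] (h0 : P ∅)
    (hs : ∀ n, n ∈ om M → P n → P (suc n)) : ∀ n, n ∈ om M → P n := by
  refine mem_induction _ P fun n hn ih => ?_
  rcases nat_cases hn with rfl | ⟨m, hm, rfl⟩
  · exact h0
  · exact hs m hm (ih m (self_mem_suc m) hm)

/-! ### Functions -/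

theorem exists_isFun (A B : M) (F : M → M) [DF M F] (h : ∀ a, a ∈ A → F a ∈ B) :
    ∃ f, IsFun (EE M) f A B ∧ ∀ a b, App (EE M) f a b ↔ a ∈ A ∧ b = F a := by
  obtain ⟨f, hf, -⟩ := exists_lam A F
  have key : ∀ a b, App (EE M) f a b ↔ a ∈ A ∧ b = F a := by
    intro a b
    rw [app_iff, hf]
    constructor
    · rintro ⟨a', h1, h2⟩
      obtain ⟨rfl, rfl⟩ := op_inj.1 h2
      exact ⟨h1, rfl⟩
    · rintro ⟨h1, rfl⟩
      exact ⟨a, h1, rfl⟩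
  refine ⟨f, ⟨fun p hp => ?_, fun a ha => ?_⟩, key⟩
  · obtain ⟨a, h1, rfl⟩ := (hf p).1 hp
    exact ⟨a, F a, h1, h a h1, isPair_iff.2 rfl⟩
  · exact ⟨F a, (key _ _).2 ⟨ha, rfl⟩, fun b hb => ((key _ _).1 hb).2⟩

theorem exists_isInj (A B : M) (F : M → M) [DF M F] (h : ∀ a, a ∈ A → F a ∈ B)
    (hi : ∀ a a', a ∈ A → a' ∈ A → F a = F a' → a = a') :
    ∃ f, IsInj (EE M) f A B ∧ ∀ a b, App (EE M) f a b ↔ a ∈ A ∧ b = F a := by
  obtain ⟨f, h1, h2⟩ := exists_isFun A B F h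
  refine ⟨f, ⟨h1, fun a a' b h3 h4 => ?_⟩, h2⟩
  rw [h2] at h3 h4
  exact hi a a' h3.1 h4.1 (h3.2.symm.trans h4.2)

theorem cardLe_of (A B : M) (F : M → M) [DF M F] (h : ∀ a, a ∈ A → F a ∈ B)
    (hi : ∀ a a', a ∈ A → a' ∈ A → F a = F a' → a = a') : CardLe (EE M) A B :=
  let ⟨f, h1, _⟩ := exists_isInj A B F h hi; ⟨f, h1⟩

theorem cardEq_of (A B : M) (F : M → M) [DF M F] (h : ∀ a, a ∈ A → F a ∈ B)
    (hi : ∀ a a', a ∈ A → a' ∈ A → F a = F a' → a = a')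
    (hs : ∀ b, b ∈ B → ∃ a, a ∈ A ∧ b = F a) : CardEq (EE M) A B :=
  let ⟨f, h1, h2⟩ := exists_isInj A B F h hi
  ⟨f, h1, fun b hb => let ⟨a, h3⟩ := hs b hb; ⟨a, (h2 a b).2 h3⟩⟩

/-! ### Countable sets -/

def Ctbl (Z : M) : Prop := ∃ f : M, ∀ z, z ∈ Z → ∃ n, n ∈ om M ∧ app f n = z

instance DP.ctbl {α : Type v} [Ctx M α] (s : α → M) [DF M s] :
    DP M (no_index fun x => Ctbl (s x)) :=
  have : DP M fun x : M => Ctbl x := by unfold Ctbl; infer_instance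
  DP.comp (fun x : M => Ctbl x) s

theorem ctbl_of (Z : M) (F : M → M) [DF M F] (h : ∀ z, z ∈ Z → ∃ n, n ∈ om M ∧ F n = z) :
    Ctbl Z := by
  obtain ⟨f, -, hf⟩ := exists_lam (om M) F
  exact ⟨f, fun z hz => let ⟨n, h1, h2⟩ := h z hz; ⟨n, h1, (hf n h1).trans h2⟩⟩

theorem ctbl_iff_cov {Z : M} : Ctbl Z ↔ Cov (EE M) (om M) Z := by
  constructor
  · rintro ⟨f, hf⟩
    obtain ⟨g, hg, -⟩ := exists_lam (om M) fun n => app f n
    refine ⟨g, fun n b b' h1 h2 => ?_, fun z hz => ?_⟩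
    · obtain ⟨a, -, h3⟩ := (hg _).1 (app_iff.1 h1)
      obtain ⟨a', -, h4⟩ := (hg _).1 (app_iff.1 h2)
      obtain ⟨rfl, rfl⟩ := op_inj.1 h3
      obtain ⟨rfl, rfl⟩ := op_inj.1 h4
      rfl
    · obtain ⟨n, h1, rfl⟩ := hf z hz
      exact ⟨n, h1, app_iff.2 ((hg _).2 ⟨n, h1, rfl⟩)⟩
  · rintro ⟨f, h1, h2⟩
    refine ⟨f, fun z hz => ?_⟩
    obtain ⟨n, h3, h4⟩ := h2 z hz
    exact ⟨n, h3, app_eq (app_iff.1 h4) fun b hb => h1 n _ _ (app_iff.2 hb) h4⟩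

theorem Ctbl.mono {Z Z' : M} (h : Ctbl Z) (hs : Z' ⊆ Z) : Ctbl Z' :=
  let ⟨f, hf⟩ := h; ⟨f, fun z hz => hf z (hs z hz)⟩

theorem Ctbl.img {Z Z' : M} (h : Ctbl Z) (F : M → M) [DF M F]
    (hs : ∀ z, z ∈ Z' → ∃ a, a ∈ Z ∧ z = F a) : Ctbl Z' := by
  obtain ⟨f, hf⟩ := h
  have : DF M fun n => F (app f n) := DF.comp F _
  refine ctbl_of _ (fun n => F (app f n)) fun z hz => ?_
  obtain ⟨a, ha, rfl⟩ := hs z hz
  obtain ⟨n, hn, rfl⟩ := hf a ha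
  exact ⟨n, hn, rfl⟩

theorem Ctbl.cover {Y U : M} (h : Ctbl Y) (h1 : ∀ y, y ∈ Y → Ctbl y)
    (h2 : ∀ z, z ∈ U → ∃ y, y ∈ Y ∧ z ∈ y) : Ctbl U :=
  ctbl_iff_cov.2 (ZM.cunion Y U (ctbl_iff_cov.1 h) (fun y hy => ctbl_iff_cov.1 (h1 y hy)) h2)

theorem Ctbl.cover' {I U : M} (h : Ctbl I) (F : M → M) [DF M F] (h1 : ∀ i, i ∈ I → Ctbl (F i))
    (h2 : ∀ z, z ∈ U → ∃ i, i ∈ I ∧ z ∈ F i) : Ctbl U := by
  obtain ⟨Y, hY⟩ := exists_img I F
  refine (h.img F fun z hz => (hY z).1 hz).cover (fun y hy => ?_) fun z hz => ?_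
  · obtain ⟨i, hi, rfl⟩ := (hY y).1 hy
    exact h1 i hi
  · obtain ⟨i, hi, h3⟩ := h2 z hz
    exact ⟨_, (hY _).2 ⟨i, hi, rfl⟩, h3⟩

theorem ctbl_om : Ctbl (om M) := ctbl_of _ (fun n => n) fun z hz => ⟨z, hz, rfl⟩

theorem ctbl_single (a : M) : Ctbl ({a} : M) :=
  ctbl_of _ (fun _ => a) fun _ hz => ⟨∅, empty_mem_om, (mem_single.1 hz).symm⟩

theorem ctbl_upair (a b : M) : Ctbl (upair a b) := by
  refine ctbl_of _ (fun n => sep (a ∪ b) fun t => (n = ∅ ∧ t ∈ a) ∨ (n ≠ ∅ ∧ t ∈ b))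
    fun z hz => ?_
  rcases mem_upair.1 hz with rfl | rfl
  · exact ⟨∅, empty_mem_om, zext fun t => by simp; tauto⟩
  · have : suc (∅ : M) ≠ ∅ := fun h => not_mem_empty _ (h ▸ self_mem_suc (∅ : M))
    exact ⟨suc ∅, suc_mem_om empty_mem_om, zext fun t => by simp [this]; tauto⟩

theorem Ctbl.union {a b : M} (ha : Ctbl a) (hb : Ctbl b) : Ctbl (a ∪ b) :=
  (ctbl_upair a b).cover (fun y hy => by rcases mem_upair.1 hy with rfl | rfl <;> assumption)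
    fun z hz => by simpa using hz

theorem Ctbl.exists_inj {Z : M} (h : Ctbl Z) : ∃ e : M, (∀ z, z ∈ Z → app e z ∈ om M) ∧
    ∀ z z', z ∈ Z → z' ∈ Z → app e z = app e z' → z = z' := by
  obtain ⟨f, hf⟩ := h
  obtain ⟨e, he⟩ := choice Z (om M) (fun z n => app f n = z) hf
  exact ⟨e, fun z hz => (he z hz).1, fun z z' hz hz' h => by
    rw [← (he z hz).2, h, (he z' hz').2]⟩

theorem Ctbl.cardLe {Z : M} (h : Ctbl Z) : CardLe (EE M) Z (om M) :=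
  let ⟨e, h1, h2⟩ := h.exists_inj; cardLe_of _ _ (fun z => app e z) h1 h2

theorem ctbl_of_cardLe {Z : M} (h : CardLe (EE M) Z (om M)) : Ctbl Z := by
  obtain ⟨f, h1, h2⟩ := h
  obtain ⟨g, -, hg⟩ := exists_rel (om M) Z fun n z => op z n ∈ f
  refine ctbl_iff_cov.2 ⟨g, fun n b b' h3 h4 => ?_, fun z hz => ?_⟩
  · rw [app_iff, hg] at h3 h4
    exact h2 b b' n (app_iff.2 h3.2.2) (app_iff.2 h4.2.2)
  · obtain ⟨n, h3, h4⟩ := ZM.zfc.app_total h1 hz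
    exact ⟨n, h4, app_iff.2 ((hg _ _).2 ⟨h4, hz, app_iff.1 h3⟩)⟩

theorem not_ctbl_om1 : ¬ Ctbl (om1 M) := fun h => ZM.hw1.2.1 (ctbl_iff_cov.1 h)

theorem ctbl_of_mem_om1 {a : M} (h : a ∈ om1 M) : Ctbl a := ctbl_iff_cov.2 (ZM.hw1.2.2 a h)

theorem isOmega1 : IsOmega1 (EE M) (om M) (om1 M) :=
  ⟨od_om1, fun h => not_ctbl_om1 (ctbl_of_cardLe h), fun _ h => (ctbl_of_mem_om1 h).cardLe⟩

theorem suc_mem_om1 {a : M} (h : a ∈ om1 M) : suc a ∈ om1 M := by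
  have h1 : suc a ⊆ om1 M := fun z hz => by
    rcases mem_suc.1 hz with h2 | rfl
    · exact od_om1.trans h h2
    · exact h
  rcases (od_om1.mem h).suc.sub od_om1 h1 with h2 | h2
  · exact absurd (h2 ▸ (show Ctbl (suc a) from (ctbl_of_mem_om1 h).union (ctbl_single a)))
      not_ctbl_om1
  · exact h2

theorem empty_mem_om1 : ∅ ∈ om1 M := by
  rcases empty_or (om1 M) with h | ⟨z, h⟩
  · exact absurd (ctbl_om.mono fun z hz => absurd (h ▸ hz) (not_mem_empty z)) not_ctbl_om1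
  · exact od_om1.empty_mem h

theorem Ctbl.bdd {I : M} (h : Ctbl I) (F : M → M) [DF M F] (h1 : ∀ i, i ∈ I → F i ∈ om1 M) :
    ∃ b, b ∈ om1 M ∧ ∀ i, i ∈ I → F i ∈ b := by
  by_contra hc
  push Not at hc
  refine not_ctbl_om1 (h.cover' F (fun i hi => ctbl_of_mem_om1 (h1 i hi)) fun z hz => ?_)
  obtain ⟨i, hi, h2⟩ := hc (suc z) (suc_mem_om1 hz)
  refine ⟨i, hi, ?_⟩
  by_contra h3
  exact h2 (od_om1.mem_suc_of_not (h1 i hi) hz h3)

/-! ### Enumerating unbounded sets -/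

def Reg (θ : M) : Prop :=
  Od θ ∧ ∀ ξ, ξ ∈ θ → ∀ f : M, (∀ a, a ∈ ξ → app f a ∈ θ) → ∃ b, b ∈ θ ∧ ∀ a, a ∈ ξ → app f a ∈ b

theorem reg_om1 : Reg (om1 M) :=
  ⟨od_om1, fun _ hξ f hf => (ctbl_of_mem_om1 hξ).bdd (fun a => app f a) hf⟩

theorem Od.union_mem {θ a b : M} (h : Od θ) (ha : a ∈ θ) (hb : b ∈ θ) : a ∪ b ∈ θ := by
  have key : ∀ a b : M, a ⊆ b → a ∪ b = b ∧ b ∪ a = b := fun a b h =>
    ⟨zext fun z => by simpa using h z, zext fun z => by simpa using h z⟩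
  rcases h.tri ha hb with h1 | rfl | h1
  · rw [(key a b fun z hz => (h.mem hb).trans h1 hz).1]; exact hb
  · rw [(key a a (sub_refl a)).1]; exact hb
  · rw [(key b a fun z hz => (h.mem ha).trans h1 hz).2]; exact ha

theorem reg_om : Reg (om M) := by
  refine ⟨od_om, fun ξ hξ f => ?_⟩
  revert ξ
  refine nat_induction _ (fun _ => ⟨∅, empty_mem_om, fun a ha => absurd ha (not_mem_empty a)⟩)
    fun n _ ih hf => ?_
  obtain ⟨b, hb, h1⟩ := ih fun a ha => hf a (mem_suc.2 (Or.inl ha))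
  refine ⟨b ∪ suc (app f n), od_om.union_mem hb (suc_mem_om (hf n (self_mem_suc n))),
    fun a ha => ?_⟩
  rcases mem_suc.1 ha with h | rfl
  · exact mem_union.2 (Or.inl (h1 a h))
  · exact mem_union.2 (Or.inr (self_mem_suc _))

theorem le_of_mono {θ π : M} (hθ : Od θ) (h1 : ∀ ξ, ξ ∈ θ → app π ξ ∈ θ)
    (h2 : ∀ ξ ξ', ξ' ∈ θ → ξ ∈ ξ' → app π ξ ∈ app π ξ') : ∀ ξ, ξ ∈ θ → ξ ⊆ app π ξ := by
  refine mem_induction θ _ fun ξ hξ ih η hη => ?_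
  exact (hθ.mem (hθ.trans hξ hη)).mem_of_sub (hθ.mem (h1 ξ hξ)) (ih η hη (hθ.trans hξ hη))
    (h2 η ξ hξ hη)

theorem enum {θ L : M} (hθ : Reg θ) (hL : L ⊆ θ) (hu : ∀ a, a ∈ θ → ∃ l, l ∈ L ∧ a ∈ l) :
    ∃ π : M, (∀ ξ, ξ ∈ θ → app π ξ ∈ L) ∧ (∀ ξ ξ', ξ' ∈ θ → ξ ∈ ξ' → app π ξ ∈ app π ξ') ∧
      ∀ l, l ∈ L → ∃ ξ, ξ ∈ θ ∧ app π ξ = l := by
  have hO := hθ.1
  obtain ⟨F, hF, ⟨h1, h2, h3⟩, hmax⟩ := zorn' (prd θ L) (fun F =>
    (∀ a l a' l' : M, op a l ∈ F → op a' l' ∈ F → (a ∈ a' ↔ l ∈ l')) ∧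
    (∀ a l b : M, op a l ∈ F → b ∈ a → ∃ l', op b l' ∈ F) ∧
    ∀ a l l' : M, op a l ∈ F → l' ∈ l → l' ∈ L → ∃ b, op b l' ∈ F) (by
      intro C hC hc
      simp only [mem_sU]
      refine ⟨?_, ?_, ?_⟩
      · rintro a l a' l' ⟨y, hy, h1⟩ ⟨y', hy', h2⟩
        rcases hc y y' hy hy' with h | h
        · exact (hC y' hy').2.1 _ _ _ _ (h _ h1) h2
        · exact (hC y hy).2.1 _ _ _ _ h1 (h _ h2)
      · rintro a l b ⟨y, hy, h1⟩ hb
        obtain ⟨l', h2⟩ := (hC y hy).2.2.1 _ _ _ h1 hb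
        exact ⟨l', y, hy, h2⟩
      · rintro a l l' ⟨y, hy, h1⟩ hb hl
        obtain ⟨b, h2⟩ := (hC y hy).2.2.2 _ _ _ h1 hb hl
        exact ⟨b, y, hy, h2⟩)
  have hm : ∀ a l, op a l ∈ F → a ∈ θ ∧ l ∈ L := fun a l h => op_mem_prd.1 (hF _ h)
  have hfun : ∀ a l l', op a l ∈ F → op a l' ∈ F → l' = l := by
    intro a l l' h4 h5
    rcases hO.tri (hL _ (hm _ _ h4).2) (hL _ (hm _ _ h5).2) with h | h | h
    · exact absurd ((h1 _ _ _ _ h4 h5).2 h) (mem_irrefl a)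
    · exact h.symm
    · exact absurd ((h1 _ _ _ _ h5 h4).2 h) (mem_irrefl a)
  have happ : ∀ a l, op a l ∈ F → app F a = l := fun a l h => app_eq h fun l' h' => hfun a l l' h h'
  have htot : ∀ a, a ∈ θ → ∃ l, op a l ∈ F := by
    refine mem_induction θ _ fun a ha ih => ?_
    by_contra hc
    have h4 : ∀ b, b ∈ a → op b (app F b) ∈ F := fun b hb => by
      obtain ⟨l, hl⟩ := ih b hb (hO.trans ha hb)
      rwa [happ b l hl]
    have h5 : ∀ b l, op b l ∈ F → b ∈ a := fun b l h => by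
      rcases hO.tri (hm _ _ h).1 ha with h6 | rfl | h6
      · exact h6
      · exact absurd ⟨l, h⟩ hc
      · exact absurd (h2 _ _ _ h h6) hc
    obtain ⟨c, hc1, hc2⟩ := hθ.2 a ha F fun b hb => hL _ (hm _ _ (h4 b hb)).2
    obtain ⟨l0, hl0, hl1⟩ := hu c hc1
    obtain ⟨l, hl, hl2, hl3⟩ := exists_min L (fun l => ¬ ∃ b, op b l ∈ F) ⟨l0, hl0, by
      rintro ⟨b, hb⟩
      have := hc2 b (h5 b l0 hb)
      rw [happ b l0 hb] at this
      exact mem_asymm' this hl1⟩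
    have h6 : ∀ b l', op b l' ∈ F → l' ∈ l := fun b l' h => by
      rcases hO.tri (hL _ (hm _ _ h).2) (hL _ hl) with h7 | rfl | h7
      · exact h7
      · exact absurd ⟨b, h⟩ hl2
      · exact absurd (h3 _ _ _ h h7 hl) hl2
    refine hc ⟨l, hmax (F ∪ {op a l}) (fun p hp => ?_) ⟨?_, ?_, ?_⟩ (fun p hp => by simp [hp]) _
      (by simp)⟩
    · rcases mem_union.1 hp with h | h
      · exact hF p h
      · rw [mem_single.1 h]; simp [ha, hl]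
    · intro b l1 b' l2 h7 h8
      simp only [mem_union, mem_single, op_inj] at h7 h8
      rcases h7 with h7 | ⟨rfl, rfl⟩ <;> rcases h8 with h8 | ⟨rfl, rfl⟩
      · exact h1 _ _ _ _ h7 h8
      · exact iff_of_true (h5 _ _ h7) (h6 _ _ h7)
      · exact iff_of_false (mem_asymm' (h5 _ _ h8)) (mem_asymm' (h6 _ _ h8))
      · exact iff_of_false (mem_irrefl _) (mem_irrefl _)
    · intro b l1 b' h7 h8
      simp only [mem_union, mem_single, op_inj] at h7 ⊢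
      rcases h7 with h7 | ⟨rfl, rfl⟩
      · obtain ⟨l', h9⟩ := h2 _ _ _ h7 h8
        exact ⟨l', Or.inl h9⟩
      · exact ⟨_, Or.inl (h4 b' h8)⟩
    · intro b l1 l' h7 h8 h9
      simp only [mem_union, mem_single, op_inj] at h7 ⊢
      rcases h7 with h7 | ⟨rfl, rfl⟩
      · obtain ⟨b', h9⟩ := h3 _ _ _ h7 h8 h9
        exact ⟨b', Or.inl h9⟩
      · obtain ⟨b', h10⟩ := not_not.1 (hl3 l' h8 h9)
        exact ⟨b', Or.inl h10⟩
  have h4 : ∀ b, b ∈ θ → op b (app F b) ∈ F := fun b hb => by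
    obtain ⟨l, hl⟩ := htot b hb
    rwa [happ b l hl]
  have h5 : ∀ ξ ξ', ξ' ∈ θ → ξ ∈ ξ' → app F ξ ∈ app F ξ' := fun ξ ξ' h h' =>
    (h1 _ _ _ _ (h4 ξ (hO.trans h h')) (h4 ξ' h)).1 h'
  refine ⟨F, fun ξ hξ => (hm _ _ (h4 ξ hξ)).2, h5, fun l hl => ?_⟩
  have h6 := le_of_mono hO (fun ξ hξ => hL _ (hm _ _ (h4 ξ hξ)).2) h5 l (hL l hl)
  rcases (hO.mem (hL l hl)).sub (hO.mem (hL _ (hm _ _ (h4 l (hL l hl))).2)) h6 with h | h
  · exact ⟨l, hL l hl, h.symm⟩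
  · obtain ⟨b, hb⟩ := h3 _ _ _ (h4 l (hL l hl)) h hl
    exact ⟨b, (hm _ _ hb).1, happ _ _ hb⟩

theorem enum' {θ X : M} (hθ : Reg θ) (e : M → M) [DF M e] (h1 : ∀ x, x ∈ X → e x ∈ θ)
    (hu : ∀ a, a ∈ θ → ∃ x, x ∈ X ∧ a ∈ e x) :
    ∃ b : M, (∀ ξ, ξ ∈ θ → app b ξ ∈ X) ∧
      (∀ ξ ξ', ξ ∈ θ → ξ' ∈ θ → app b ξ = app b ξ' → ξ = ξ') ∧
      ∀ x, x ∈ X → ∃ ξ, ξ ∈ θ ∧ e (app b ξ) = e x := by
  obtain ⟨L, hL⟩ := exists_img X e
  obtain ⟨π, h2, h3, h4⟩ := enum (L := L) hθ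
    (fun l hl => by obtain ⟨x, hx, rfl⟩ := (hL l).1 hl; exact h1 x hx)
    fun a ha => let ⟨x, hx, h⟩ := hu a ha; ⟨_, (hL _).2 ⟨x, hx, rfl⟩, h⟩
  have : DF M fun z : M × M => e z.2 := DF.comp e _
  obtain ⟨b, hb⟩ := choice θ X (fun ξ x => app π ξ = e x) fun ξ hξ => (hL _).1 (h2 ξ hξ)
  refine ⟨b, fun ξ hξ => (hb ξ hξ).1, fun ξ ξ' hξ hξ' h => ?_, fun x hx => ?_⟩
  · have h5 : app π ξ = app π ξ' := by rw [(hb ξ hξ).2, h, (hb ξ' hξ').2]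
    rcases hθ.1.tri hξ hξ' with h6 | h6 | h6
    · exact absurd (h5 ▸ h3 _ _ hξ' h6) (mem_irrefl _)
    · exact h6
    · exact absurd (h5 ▸ h3 _ _ hξ h6) (mem_irrefl _)
  · obtain ⟨ξ, hξ, h⟩ := h4 _ ((hL _).2 ⟨x, hx, rfl⟩)
    exact ⟨ξ, hξ, (hb ξ hξ).2.symm.trans h⟩

/-! ### Infinite sets -/

def Inf (X : M) : Prop := ∃ h : M, ∀ n, n ∈ om M → ∃ x, x ∈ X ∧ app h x ∈ om M ∧ n ∈ app h x

instance DP.inf {α : Type v} [Ctx M α] (s : α → M) [DF M s] :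
    DP M (no_index fun x => Inf (s x)) :=
  have : DP M fun x : M => Inf x := by unfold Inf; infer_instance
  DP.comp (fun x : M => Inf x) s

theorem Inf.mono {X Y : M} (h : Inf X) (hs : X ⊆ Y) : Inf Y :=
  let ⟨f, hf⟩ := h; ⟨f, fun n hn => let ⟨x, hx, h1⟩ := hf n hn; ⟨x, hs x hx, h1⟩⟩

theorem Inf.nonempty {X : M} (h : Inf X) : ∃ x, x ∈ X :=
  let ⟨_, hf⟩ := h; let ⟨x, hx, _⟩ := hf ∅ empty_mem_om; ⟨x, hx⟩

theorem inf_of (X : M) (F : M → M) [DF M F]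
    (h : ∀ n, n ∈ om M → ∃ x, x ∈ X ∧ F x ∈ om M ∧ n ∈ F x) : Inf X := by
  obtain ⟨f, -, hf⟩ := exists_lam X F
  refine ⟨f, fun n hn => ?_⟩
  obtain ⟨x, hx, h1⟩ := h n hn
  exact ⟨x, hx, by rwa [hf x hx]⟩

theorem bdd_of_not_inf {X : M} (h : ¬ Inf X) (F : M → M) [DF M F]
    (h1 : ∀ x, x ∈ X → F x ∈ om M) : ∃ n, n ∈ om M ∧ ∀ x, x ∈ X → F x ∈ n := by
  by_contra hc
  push Not at hc
  refine h (inf_of X F fun n hn => ?_)
  obtain ⟨x, hx, h2⟩ := hc (suc n) (suc_mem_om hn)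
  refine ⟨x, hx, h1 x hx, ?_⟩
  by_contra h3
  exact h2 (od_om.mem_suc_of_not (h1 x hx) hn h3)

theorem Inf.exists_ctbl {X : M} (h : Inf X) : ∃ A, A ⊆ X ∧ Ctbl A ∧ Inf A := by
  obtain ⟨f, hf⟩ := h
  obtain ⟨g, hg⟩ := choice (om M) X (fun n x => app f x ∈ om M ∧ n ∈ app f x) hf
  obtain ⟨A, hA⟩ := exists_img (om M) fun n => app g n
  refine ⟨A, fun z hz => ?_, ctbl_om.img (fun n => app g n) fun z hz => (hA z).1 hz,
    f, fun n hn => ⟨_, (hA _).2 ⟨n, hn, rfl⟩, (hg n hn).2⟩⟩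
  obtain ⟨n, hn, rfl⟩ := (hA z).1 hz
  exact (hg n hn).1

theorem ctbl_of_not_inf {X : M} (h : ¬ Inf X) : Ctbl X := by
  obtain ⟨C, h1, h2, h3⟩ := exists_clique (prd X (om M))
    fun p q => ∀ a b a' b', p = op a b → q = op a' b' → (a = a' ↔ b = b')
  by_cases h4 : ∀ n, n ∈ om M → ∃ x, op x n ∈ C
  · refine absurd ⟨C, fun n hn => ?_⟩ h
    obtain ⟨x, hx⟩ := h4 _ (suc_mem_om hn)
    have : app C x = suc n := app_eq hx fun b hb => (h2 _ _ hb hx _ _ _ _ rfl rfl).1 rfl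
    exact ⟨x, (op_mem_prd.1 (h1 _ hx)).1, this ▸ suc_mem_om hn, this ▸ self_mem_suc n⟩
  push Not at h4
  obtain ⟨n, hn, h4⟩ := h4
  obtain ⟨g, -, hg⟩ := exists_rel (om M) X fun n z => op z n ∈ C
  refine ctbl_iff_cov.2 ⟨g, fun n b b' h5 h6 => ?_, fun z hz => ?_⟩
  · rw [app_iff, hg] at h5 h6
    exact (h2 _ _ h5.2.2 h6.2.2 _ _ _ _ rfl rfl).2 rfl
  · have : ∃ m, op z m ∈ C := by
      by_contra hc
      refine h4 z (h3 _ (op_mem_prd.2 ⟨hz, hn⟩) (fun a b a' b' e1 e2 => ?_) fun q hq =>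
        ⟨fun a b a' b' e1 e2 => ?_, fun a b a' b' e1 e2 => ?_⟩)
      · exact iff_of_true (op_inj.1 (e1.symm.trans e2)).1 (op_inj.1 (e1.symm.trans e2)).2
      · obtain ⟨rfl, rfl⟩ := op_inj.1 e1
        exact iff_of_false (fun e => hc ⟨b', e ▸ e2 ▸ hq⟩) fun e => h4 a' (e ▸ e2 ▸ hq)
      · obtain ⟨rfl, rfl⟩ := op_inj.1 e2
        exact iff_of_false (fun e => hc ⟨b, e ▸ e1 ▸ hq⟩) fun e => h4 a (e ▸ e1 ▸ hq)
    obtain ⟨m, hm⟩ := this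
    have h5 := (op_mem_prd.1 (h1 _ hm)).2
    exact ⟨m, h5, app_iff.2 ((hg _ _).2 ⟨h5, hz, hm⟩)⟩

theorem Inf.img {X Y : M} (h : Inf X) (F : M → M) [DF M F] (h1 : ∀ x, x ∈ X → F x ∈ Y)
    (h2 : ∀ x x', x ∈ X → x' ∈ X → F x = F x' → x = x') : Inf Y := by
  obtain ⟨f, hf⟩ := h
  have : DF M fun z : M × M => F z.2 := DF.comp F _
  obtain ⟨g, hg⟩ := choice (sep Y fun y => ∃ x, x ∈ X ∧ y = F x) X (fun y x => y = F x)
    fun y hy => (mem_sep.1 hy).2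
  refine inf_of Y (fun y => app f (app g y)) fun n hn => ?_
  obtain ⟨x, hx, h3⟩ := hf n hn
  have h4 := hg (F x) (mem_sep.2 ⟨h1 x hx, x, hx, rfl⟩)
  exact ⟨F x, h1 x hx, by rw [← h2 _ _ hx h4.1 h4.2]; exact h3⟩

theorem Inf.cardLe {X : M} (h : Inf X) : CardLe (EE M) (om M) X := by
  obtain ⟨f, hf⟩ := h
  obtain ⟨b, h1, h2, -⟩ := enum' (X := sep X fun x => app f x ∈ om M) reg_om (fun x => app f x)
    (fun x hx => (mem_sep.1 hx).2)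
    fun n hn => let ⟨x, hx, h⟩ := hf n hn; ⟨x, mem_sep.2 ⟨hx, h.1⟩, h.2⟩
  exact cardLe_of _ _ (fun n => app b n) (fun n hn => (mem_sep.1 (h1 n hn)).1) h2

theorem Inf.cardEq {X : M} (h : Inf X) (hc : Ctbl X) : CardEq (EE M) (om M) X := by
  obtain ⟨e, h1, h2⟩ := hc.exists_inj
  obtain ⟨f, hf⟩ := h
  obtain ⟨b, h3, h4, h5⟩ := enum' (X := X) reg_om (fun x => app e x) h1 (by
    by_contra hc
    push Not at hc
    obtain ⟨n, hn, h3⟩ := hc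
    obtain ⟨g, hg⟩ := choice (suc n) (om M)
      (fun k m => ∀ x, x ∈ X → app e x = k → app f x ∈ om M → app f x = m) (by
        intro k _
        by_cases h4 : ∃ x, x ∈ X ∧ app e x = k ∧ app f x ∈ om M
        · obtain ⟨x, hx, h5, h6⟩ := h4
          exact ⟨_, h6, fun x' hx' h7 _ => by rw [h2 _ _ hx' hx (h7.trans h5.symm)]⟩
        · exact ⟨∅, empty_mem_om, fun x hx h5 h6 => absurd ⟨x, hx, h5, h6⟩ h4⟩)
    obtain ⟨c, hc1, hc2⟩ := reg_om.2 _ (suc_mem_om hn) g fun a ha => (hg a ha).1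
    obtain ⟨x, hx, h4, h5⟩ := hf c hc1
    have h6 := od_om.mem_suc_of_not (h1 x hx) hn (h3 x hx)
    have h7 := hc2 _ h6
    rw [← (hg _ h6).2 x hx rfl h4] at h7
    exact mem_asymm' h5 h7)
  exact cardEq_of _ _ (fun n => app b n) h3 h4 fun x hx =>
    let ⟨ξ, hξ, h⟩ := h5 x hx; ⟨ξ, hξ, h2 _ _ hx (h3 ξ hξ) h.symm⟩

/-! ### Stationary sets -/

def Cl (f δ : M) : Prop := ∀ a, a ∈ δ → app f a ∈ δ

instance DP.cl {α : Type v} [Ctx M α] (s t : α → M) [DF M s] [DF M t] :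
    DP M (no_index fun x => Cl (s x) (t x)) :=
  have : DP M fun z : M × M => Cl z.1 z.2 := by unfold Cl; infer_instance
  DP.comp (fun z : M × M => Cl z.1 z.2) fun x => (s x, t x)

def FStat (S : M) : Prop :=
  S ⊆ om1 M ∧ ∀ f : M, (∀ a, a ∈ om1 M → app f a ∈ om1 M) → ∃ δ, δ ∈ S ∧ (∃ a, a ∈ δ) ∧ Cl f δ

theorem FStat.inter {S f : M} (h : FStat S) (hf : ∀ a, a ∈ om1 M → app f a ∈ om1 M) :
    FStat (sep S fun δ => Cl f δ) := by
  refine ⟨fun z hz => h.1 z (mem_sep.1 hz).1, fun g hg => ?_⟩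
  obtain ⟨k, -, hk⟩ := exists_lam (om1 M) fun a => app f a ∪ app g a
  obtain ⟨δ, h1, h2, h3⟩ := h.2 k fun a ha => by
    rw [hk a ha]; exact od_om1.union_mem (hf a ha) (hg a ha)
  have h4 := h.1 δ h1
  have key : ∀ a, a ∈ δ → app f a ∪ app g a ∈ δ := fun a ha => by
    rw [← hk a (od_om1.trans h4 ha)]; exact h3 a ha
  refine ⟨δ, mem_sep.2 ⟨h1, fun a ha => ?_⟩, h2, fun a ha => ?_⟩
  · exact (od_om1.mem (hf a (od_om1.trans h4 ha))).mem_of_sub (od_om1.mem h4)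
      (fun z hz => by simp [hz]) (key a ha)
  · exact (od_om1.mem (hg a (od_om1.trans h4 ha))).mem_of_sub (od_om1.mem h4)
      (fun z hz => by simp [hz]) (key a ha)

theorem FStat.unbdd {S : M} (h : FStat S) : ∀ a, a ∈ om1 M → ∃ l, l ∈ S ∧ a ∈ l := by
  intro a ha
  obtain ⟨k, -, hk⟩ := exists_lam (om1 M) fun _ => a
  obtain ⟨δ, h1, ⟨b, h2⟩, h3⟩ := h.2 k fun b hb => by rwa [hk b hb]
  exact ⟨δ, h1, by simpa [hk b (od_om1.trans (h.1 δ h1) h2)] using h3 b h2⟩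

theorem FStat.stationary {S : M} (h : FStat S) : IsStationary (EE M) (om1 M) S := by
  refine ⟨h.1, fun C hC => ?_⟩
  obtain ⟨f, hf⟩ := choice (om1 M) C (fun a c => a ∈ c) hC.2.1
  obtain ⟨δ, h1, h2, h3⟩ := h.2 f fun a ha => hC.1 _ (hf a ha).1
  have h4 := h.1 δ h1
  exact ⟨δ, h1, hC.2.2 δ h4 h2 fun a ha =>
    ⟨_, (hf a (od_om1.trans h4 ha)).1, (hf a (od_om1.trans h4 ha)).2, h3 a ha⟩⟩

end Pool.Agent.Lib.MP_783f50_lc
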