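import Pool.Agent.Lib.MP_783f50_lc.Graph

/-! A closure system of sets of finite adhesion gives a vertex ranking by natural numbers. -/

namespace Pool.Agent.Lib.MP_783f50_lc

open Pool.Agent.Lib.MP_2739cb_lc

set_option synthInstance.maxSize 100000

universe v

variable {M : Type v} [ZM M]

/-- An algebraic closure system on `V` with countable hulls whose countable members avoid `S`. -/
structure ClSys (V S Z : M) : Prop where
  z0 : ∀ N, N ∈ Z → N ⊆ V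
  z1 : ∀ F W : M, F ⊆ Z → (∃ N, N ∈ F) → (∀ z, z ∈ W ↔ ∀ N, N ∈ F → z ∈ N) → W ∈ Z
  z2 : ∀ F : M, F ⊆ Z → (∀ a b, a ∈ F → b ∈ F → a ⊆ b ∨ b ⊆ a) → sU F ∈ Z
  z3 : ∀ B, B ⊆ V → Ctbl B → ∃ N, N ∈ Z ∧ B ⊆ N ∧ Ctbl N
  z4 : ∀ N, N ∈ Z → Ctbl N → (∃ a, a ∈ N) → N ∉ S

/-- The sets of infinite adhesion. -/
noncomputable def bad (A V : M) : M := sep (pw V) fun y => ∃ a, a ∈ V \ y ∧ Inf (bd A V y a)

theorem mem_bad {A V y : M} : y ∈ bad A V ↔ y ⊆ V ∧ ∃ a, a ∈ V \ y ∧ Inf (bd A V y a) := by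
  rw [bad, mem_sep, mem_pw]

variable {V A Z : M}

theorem fin_adh (hG : Gr V A) (hZ : ClSys V (bad A V) Z) {N X a : M} (hN : N ∈ Z)
    (ha : a ∈ V \ X) (h1 : bd A V X a ⊆ N) (h2 : ∀ v, Conn A (V \ X) a v → v ∉ N) :
    ¬ Inf (bd A V X a) := by
  intro h
  obtain ⟨B, h3, h4, h5⟩ := h.exists_ctbl
  obtain ⟨N0, h6, h7, h8⟩ := hZ.z3 B (fun z hz =>
    let ⟨_, _, _, e⟩ := mem_bd.1 (h3 z hz); (hG.mem _ _ e).1) h4
  have h9 : N0 ∩ N ∈ Z := hZ.z1 (upair N0 N) _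
    (fun z hz => by rcases mem_upair.1 hz with rfl | rfl <;> assumption) ⟨N, by simp⟩
    fun z => by simp
  have h10 : B ⊆ N0 ∩ N := fun z hz => mem_inter.2 ⟨h7 z hz, h1 z (h3 z hz)⟩
  refine hZ.z4 _ h9 (h8.mono fun z hz => (mem_inter.1 hz).1) (h5.mono h10).nonempty
    (mem_bad.2 ⟨hZ.z0 _ h9, a, mem_diff.2 ⟨(mem_diff.1 ha).1,
      fun h => h2 a (Conn.refl ha) (mem_inter.1 h).2⟩, h5.mono fun z hz => ?_⟩)
  obtain ⟨-, v, h11, e⟩ := mem_bd.1 (h3 z hz)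
  exact mem_bd.2 ⟨h10 z hz, v, h11.restrict fun u hu =>
    mem_diff.2 ⟨(mem_diff.1 hu.right_mem).1, fun h => h2 u hu (mem_inter.1 h).2⟩, e⟩

noncomputable def dm (V h : M) : M := sep V fun x => ∃ n, op x n ∈ h

theorem mem_dm {V h x : M} : x ∈ dm V h ↔ x ∈ V ∧ ∃ n, op x n ∈ h := mem_sep

instance DF.dm {α : Type v} [Ctx M α] (s t : α → M) [DF M s] [DF M t] :
    DF M (no_index fun x => dm (s x) (t x)) :=
  have : DF M fun z : M × M => MP_783f50_lc.dm z.1 z.2 := by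
    unfold MP_783f50_lc.dm; infer_instance
  DF.comp (fun z : M × M => MP_783f50_lc.dm z.1 z.2) fun x => (s x, t x)

theorem dm_mono {V h h' : M} (hh : h ⊆ h') : dm V h ⊆ dm V h' := fun _ hz =>
  let ⟨h1, n, h2⟩ := mem_dm.1 hz; mem_dm.2 ⟨h1, n, hh _ h2⟩

theorem diff_anti {V X X' : M} (h : X ⊆ X') : V \ X' ⊆ V \ X := fun z hz =>
  mem_diff.2 ⟨(mem_diff.1 hz).1, fun h1 => (mem_diff.1 hz).2 (h z h1)⟩

theorem bd_mono {X X' a u : M} (h : X ⊆ X') (hu : u ∈ bd A V X' a) (hX : u ∈ X) :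
    u ∈ bd A V X a :=
  let ⟨_, v, h1, e⟩ := mem_bd.1 hu; mem_bd.2 ⟨hX, v, h1.mono (diff_anti h), e⟩

def RkInv (V A Z h : M) : Prop :=
  (∀ x n n' : M, op x n ∈ h → op x n' ∈ h → n' = n) ∧
  (∀ a, a ∈ V \ dm V h → ∃ N, N ∈ Z ∧ bd A V (dm V h) a ⊆ N ∧
    ∀ v, Conn A (V \ dm V h) a v → v ∉ N) ∧
  ∀ u v n : M, op u n ∈ h → op v n ∈ h →
    Conn A (sep V fun x => ¬ ∃ m, m ∈ n ∧ op x m ∈ h) u v → u = v

instance : DP M fun h => RkInv V A Z h := by unfold RkInv; infer_instance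

theorem rk_union (hZ : ClSys V (bad A V) Z) (C : M)
    (hC : ∀ a, a ∈ C → a ⊆ prd V (om M) ∧ RkInv V A Z a)
    (hc : ∀ a b, a ∈ C → b ∈ C → a ⊆ b ∨ b ⊆ a) : RkInv V A Z (sU C) := by
  have hsub : ∀ h, h ∈ C → h ⊆ sU C := fun h hh z hz => mem_sU.2 ⟨h, hh, hz⟩
  have two : ∀ p q, p ∈ sU C → q ∈ sU C → ∃ h, h ∈ C ∧ p ∈ h ∧ q ∈ h := by
    intro p q hp hq
    obtain ⟨y, hy, h1⟩ := mem_sU.1 hp
    obtain ⟨y', hy', h2⟩ := mem_sU.1 hq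
    rcases hc y y' hy hy' with h | h
    · exact ⟨y', hy', h _ h1, h2⟩
    · exact ⟨y, hy, h1, h _ h2⟩
  refine ⟨fun x n n' h1 h2 => ?_, fun a ha => ?_, fun u v n h1 h2 h3 => ?_⟩
  · obtain ⟨h, hh, h3, h4⟩ := two _ _ h1 h2
    exact (hC h hh).2.1 _ _ _ h3 h4
  · obtain ⟨F, hF⟩ := exists_sep Z fun N => ∃ h, h ∈ C ∧ ∀ z : M, z ∈ N ↔
      ∀ N', N' ∈ Z → bd A V (dm V (sU C)) a ∩ dm V h ⊆ N' → z ∈ N'
    have key : ∀ h, h ∈ C → ∃ N, N ∈ Z ∧ bd A V (dm V (sU C)) a ∩ dm V h ⊆ N ∧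
        ∀ v, Conn A (V \ dm V (sU C)) a v → v ∉ N := fun h hh => by
      obtain ⟨N, h1, h2, h3⟩ := (hC h hh).2.2.1 a (diff_anti (dm_mono (hsub h hh)) a ha)
      exact ⟨N, h1, fun z hz => h2 z (bd_mono (dm_mono (hsub h hh)) (mem_inter.1 hz).1
        (mem_inter.1 hz).2), fun v hv => h3 v (hv.mono (diff_anti (dm_mono (hsub h hh))))⟩
    refine ⟨sU F, hZ.z2 F (fun z hz => ((hF z).1 hz).1) fun N N' hN hN' => ?_, fun u hu => ?_,
      fun v hv h => ?_⟩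
    · obtain ⟨-, h, hh, h1⟩ := (hF N).1 hN
      obtain ⟨-, h', hh', h2⟩ := (hF N').1 hN'
      rcases hc h h' hh hh' with h3 | h3
      · exact Or.inl fun z hz => (h2 z).2 fun N0 h4 h5 => (h1 z).1 hz N0 h4 fun t ht =>
          h5 t (mem_inter.2 ⟨(mem_inter.1 ht).1, dm_mono h3 t (mem_inter.1 ht).2⟩)
      · exact Or.inr fun z hz => (h1 z).2 fun N0 h4 h5 => (h2 z).1 hz N0 h4 fun t ht =>
          h5 t (mem_inter.2 ⟨(mem_inter.1 ht).1, dm_mono h3 t (mem_inter.1 ht).2⟩)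
    · obtain ⟨h1, n, h2⟩ := mem_dm.1 (mem_bd.1 hu).1
      obtain ⟨h, hh, h3⟩ := mem_sU.1 h2
      obtain ⟨N, h4, h5, -⟩ := key h hh
      obtain ⟨W, hW⟩ := exists_sep N fun z =>
        ∀ N', N' ∈ Z → bd A V (dm V (sU C)) a ∩ dm V h ⊆ N' → z ∈ N'
      have h6 : ∀ z, z ∈ W ↔ ∀ N', N' ∈ Z → bd A V (dm V (sU C)) a ∩ dm V h ⊆ N' → z ∈ N' :=
        fun z => (hW z).trans ⟨fun h => h.2, fun h => ⟨h N h4 h5, h⟩⟩
      refine mem_sU.2 ⟨W, (hF W).2 ⟨hZ.z1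
        (sep Z fun N' => bd A V (dm V (sU C)) a ∩ dm V h ⊆ N') W (fun z hz => (mem_sep.1 hz).1)
        ⟨N, mem_sep.2 ⟨h4, h5⟩⟩ fun z => ?_, h, hh, h6⟩, (h6 u).2 fun N' _ h7 =>
          h7 u (mem_inter.2 ⟨hu, mem_dm.2 ⟨h1, n, h3⟩⟩)⟩
      simp only [h6, mem_sep, and_imp]
    · obtain ⟨N, hN, h1⟩ := mem_sU.1 h
      obtain ⟨-, h, hh, h2⟩ := (hF N).1 hN
      obtain ⟨N', h3, h4, h5⟩ := key h hh
      exact h5 v hv ((h2 v).1 h1 N' h3 h4)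
  · obtain ⟨h, hh, h4, h5⟩ := two _ _ h1 h2
    exact (hC h hh).2.2.2 u v n h4 h5 (h3.mono fun z hz => mem_sep.2 ⟨(mem_sep.1 hz).1,
      fun ⟨m, h6, h7⟩ => (mem_sep.1 hz).2 ⟨m, h6, hsub h hh _ h7⟩⟩)

theorem rk_step (hG : Gr V A) (hZ : ClSys V (bad A V) Z) {h a : M} (hh : h ⊆ prd V (om M))
    (hI : RkInv V A Z h) (ha : a ∈ V \ dm V h) :
    ∃ h', h' ⊆ prd V (om M) ∧ RkInv V A Z h' ∧ h ⊆ h' ∧ a ∈ dm V h' := by
  obtain ⟨h1, h2, h3⟩ := hI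
  have happ : ∀ x n, op x n ∈ h → app h x = n := fun x n e => app_eq e fun n' e' => h1 _ _ _ e e'
  obtain ⟨N0, hN0, h4, h5⟩ := h2 a ha
  have h6 := fin_adh hG hZ hN0 ha h4 h5
  obtain ⟨n0, hn0, h7⟩ := bdd_of_not_inf h6 (fun x => app h x) fun x hx => by
    obtain ⟨-, n, e⟩ := mem_dm.1 (mem_bd.1 hx).1
    rw [happ x n e]; exact (op_mem_prd.1 (hh _ e)).2
  obtain ⟨N, hN, h8, h9⟩ := hZ.z3 (bd A V (dm V h) a ∪ {a}) (fun z hz => by
    rcases mem_union.1 hz with h | h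
    · exact (mem_dm.1 (mem_bd.1 h).1).1
    · exact mem_single.1 h ▸ (mem_diff.1 ha).1) ((ctbl_of_not_inf h6).union (ctbl_single a))
  obtain ⟨e, he1, he2⟩ := h9.exists_inj
  obtain ⟨π, hπ1, hπ2, -⟩ := enum (L := om M \ n0) reg_om (fun z hz => (mem_diff.1 hz).1)
    fun m hm => ⟨suc m ∪ n0, mem_diff.2 ⟨od_om.union_mem (suc_mem_om hm) hn0, fun h =>
      mem_irrefl _ (mem_union.2 (Or.inr h))⟩, by simp⟩
  obtain ⟨k, hk1, hk⟩ := exists_rel V (om M) fun x n =>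
    Conn A (V \ dm V h) a x ∧ x ∈ N ∧ n = app π (app e x)
  have hd : ∀ x, x ∈ dm V (h ∪ k) ↔ x ∈ dm V h ∨ (Conn A (V \ dm V h) a x ∧ x ∈ N) := by
    intro x
    simp only [mem_dm, mem_union, hk]
    constructor
    · rintro ⟨h10, n, h11 | h11⟩
      · exact Or.inl ⟨h10, n, h11⟩
      · exact Or.inr ⟨h11.2.2.1, h11.2.2.2.1⟩
    · rintro (⟨h10, n, h11⟩ | ⟨h10, h11⟩)
      · exact ⟨h10, n, Or.inl h11⟩
      · have := (mem_diff.1 h10.right_mem).1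
        exact ⟨this, _, Or.inr ⟨this, (mem_diff.1 (hπ1 _ (he1 x h11))).1, h10, h11, rfl⟩⟩
  have hs : h ⊆ h ∪ k := fun z hz => by simp [hz]
  have hnew : ∀ u v n, op u n ∈ k → op v n ∈ h →
      ¬ Conn A (sep V fun x => ¬ ∃ m, m ∈ n ∧ op x m ∈ h ∪ k) u v := by
    intro u v n hu hv hc
    obtain ⟨-, -, h10, h11, rfl⟩ := (hk _ _).1 hu
    have : Conn A (V \ dm V h) a v := by
      refine hc.ind (fun x => Conn A (V \ dm V h) a x) h10 fun x y _ hy e' ih => ih.step ?_ e'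
      refine mem_diff.2 ⟨(mem_sep.1 hy).1, fun h12 => (mem_sep.1 hy).2 ?_⟩
      obtain ⟨-, m, h13⟩ := mem_dm.1 h12
      have h14 := h7 y (mem_bd.2 ⟨h12, x, ih, hG.sym _ _ e'⟩)
      rw [happ y m h13] at h14
      have h15 := mem_diff.1 (hπ1 _ (he1 u h11))
      refine ⟨m, ?_, hs _ h13⟩
      rcases od_om.tri h15.1 hn0 with h16 | h16 | h16
      · exact absurd h16 h15.2
      · exact h16 ▸ h14
      · exact (od_om.mem h15.1).trans h16 h14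
    exact (mem_diff.1 this.right_mem).2 (mem_dm.2 ⟨(op_mem_prd.1 (hh _ hv)).1, _, hv⟩)
  refine ⟨h ∪ k, fun z hz => (mem_union.1 hz).elim (hh z) (hk1 z), ⟨?_, ?_, ?_⟩, hs,
    (hd a).2 (Or.inr ⟨Conn.refl ha, h8 a (by simp)⟩)⟩
  · intro x n n' e1 e2
    have : ∀ n n', op x n ∈ h → op x n' ∈ k → False := fun n n' e1 e2 =>
      (mem_diff.1 ((hk _ _).1 e2).2.2.1.right_mem).2 (mem_dm.2 ⟨((hk _ _).1 e2).1, n, e1⟩)
    rcases mem_union.1 e1 with e1 | e1 <;> rcases mem_union.1 e2 with e2 | e2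
    · exact h1 _ _ _ e1 e2
    · exact (this _ _ e1 e2).elim
    · exact (this _ _ e2 e1).elim
    · exact ((hk _ _).1 e2).2.2.2.2.trans ((hk _ _).1 e1).2.2.2.2.symm
  · intro b hb
    have hb' := diff_anti (dm_mono hs) b hb
    by_cases hc : Conn A (V \ dm V h) a b
    · refine ⟨N, hN, fun u hu => ?_, fun v hv hvN => ?_⟩
      · obtain ⟨h10, v, h11, e'⟩ := mem_bd.1 hu
        rcases (hd u).1 h10 with h12 | h12
        · exact h8 u (mem_union.2 (Or.inl (mem_bd.2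
            ⟨h12, v, hc.trans (h11.mono (diff_anti (dm_mono hs))), e'⟩)))
        · exact h12.2
      · exact (mem_diff.1 hv.right_mem).2 ((hd v).2
          (Or.inr ⟨hc.trans (hv.mono (diff_anti (dm_mono hs))), hvN⟩))
    · obtain ⟨N', h10, h11, h12⟩ := h2 b hb'
      refine ⟨N', h10, fun u hu => h11 u ?_, fun v hv => h12 v (hv.mono (diff_anti (dm_mono hs)))⟩
      obtain ⟨h13, v, h14, e'⟩ := mem_bd.1 hu
      have h15 := h14.mono (diff_anti (dm_mono hs))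
      rcases (hd u).1 h13 with h16 | h16
      · exact mem_bd.2 ⟨h16, v, h15, e'⟩
      · exact absurd ((h16.1.step h15.right_mem e').trans (h15.symm hG.sym)) hc
  · intro u v n e1 e2 hc
    rcases mem_union.1 e1 with e1 | e1 <;> rcases mem_union.1 e2 with e2 | e2
    · exact h3 u v n e1 e2 (hc.mono fun z hz => mem_sep.2 ⟨(mem_sep.1 hz).1,
        fun ⟨m, h6, h7⟩ => (mem_sep.1 hz).2 ⟨m, h6, hs _ h7⟩⟩)
    · exact absurd (hc.symm hG.sym) (hnew _ _ _ e2 e1)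
    · exact absurd hc (hnew _ _ _ e1 e2)
    · obtain ⟨-, -, -, h10, h11⟩ := (hk _ _).1 e1
      obtain ⟨-, -, -, h12, h13⟩ := (hk _ _).1 e2
      refine he2 u v h10 h12 ?_
      rcases od_om.tri (he1 u h10) (he1 v h12) with h14 | h14 | h14
      · have := hπ2 _ _ (he1 v h12) h14
        rw [← h11, ← h13] at this
        exact absurd this (mem_irrefl _)
      · exact h14
      · have := hπ2 _ _ (he1 u h10) h14
        rw [← h11, ← h13] at this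
        exact absurd this (mem_irrefl _)

theorem exists_rank (hG : Gr V A) (hZ : ClSys V (bad A V) Z) :
    ∃ h : M, (∀ v, v ∈ V → app h v ∈ om M) ∧ ∀ D u v, D ⊆ V → Conn A D u v →
      app h u = app h v → (∀ x, Conn A D u x → app h x ∉ app h u) → u = v := by
  obtain ⟨h, h1, h2, h3⟩ := zorn' (prd V (om M)) (fun h => RkInv V A Z h) (rk_union hZ)
  have h4 : ∀ v, v ∈ V → op v (app h v) ∈ h := by
    intro v hv
    have : v ∈ dm V h := by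
      by_contra hc
      obtain ⟨h', h5, h6, h7, h8⟩ := rk_step hG hZ h1 h2 (mem_diff.2 ⟨hv, hc⟩)
      exact hc (dm_mono (h3 h' h5 h6 h7) v h8)
    obtain ⟨-, n, e⟩ := mem_dm.1 this
    rwa [app_eq e fun n' e' => h2.1 _ _ _ e e']
  refine ⟨h, fun v hv => (op_mem_prd.1 (h1 _ (h4 v hv))).2, fun D u v hD hc e h5 => ?_⟩
  refine h2.2.2 u v (app h u) (h4 u (hD u hc.left_mem)) (e ▸ h4 v (hD v hc.right_mem))
    (hc.restrict fun x hx => mem_sep.2 ⟨hD x hx.right_mem, ?_⟩)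
  rintro ⟨m, h6, h7⟩
  exact h5 x hx (h2.1 _ _ _ h7 (h4 x (hD x hx.right_mem)) ▸ h6)

end Pool.Agent.Lib.MP_783f50_lc
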