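import Pool.Agent.Lib.MP_783f50_lc.Rank

/-! A connected graph with a vertex ranking by natural numbers has a normal spanning tree. -/

namespace Pool.Agent.Lib.MP_783f50_lc

open Pool.Agent.Lib.MP_2739cb_lc

set_option synthInstance.maxSize 100000

universe v

variable {M : Type v} [ZM M]

noncomputable def p1 (p : M) : M := sU (sep (sU p) fun a => ∃ b, p = op a b)

noncomputable def p2 (p : M) : M := sU (sep (sU p) fun b => ∃ a, p = op a b)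

@[simp] theorem p1_op (a b : M) : p1 (op a b) = a := by
  refine zext fun z => ?_
  simp only [p1, mem_sU, mem_sep, op_inj]
  exact ⟨fun ⟨y, ⟨_, _, h1, _⟩, h2⟩ => h1 ▸ h2,
    fun h => ⟨a, ⟨⟨upair a b, by simp [op], by simp⟩, b, rfl, rfl⟩, h⟩⟩

@[simp] theorem p2_op (a b : M) : p2 (op a b) = b := by
  refine zext fun z => ?_
  simp only [p2, mem_sU, mem_sep, op_inj]
  exact ⟨fun ⟨y, ⟨_, _, _, h1⟩, h2⟩ => h1 ▸ h2,
    fun h => ⟨b, ⟨⟨upair a b, by simp [op], by simp⟩, a, rfl, rfl⟩, h⟩⟩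

instance DF.p1 {α : Type v} [Ctx M α] (s : α → M) [DF M s] :
    DF M (no_index fun x => p1 (s x)) :=
  have : DF M fun z : M => MP_783f50_lc.p1 z := by unfold MP_783f50_lc.p1; infer_instance
  DF.comp (fun z : M => MP_783f50_lc.p1 z) s

instance DF.p2 {α : Type v} [Ctx M α] (s : α → M) [DF M s] :
    DF M (no_index fun x => p2 (s x)) :=
  have : DF M fun z : M => MP_783f50_lc.p2 z := by unfold MP_783f50_lc.p2; infer_instance
  DF.comp (fun z : M => MP_783f50_lc.p2 z) s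

def Reach (A X m v k : M) : Prop :=
  ∃ Q : M, op v k ∈ Q ∧ ∀ u j : M, op u j ∈ Q → u ∈ X ∧ j ∈ om M ∧
    (u = m ∨ ∃ u' j' : M, op u' j' ∈ Q ∧ op u u' ∈ A ∧ j' ∈ j)

instance DP.reach {α : Type v} [Ctx M α] (A : M) (r s t u : α → M) [DF M r] [DF M s] [DF M t]
    [DF M u] : DP M (no_index fun x => Reach A (r x) (s x) (t x) (u x)) :=
  have : DP M fun z : ((M × M) × M) × M => Reach A z.1.1.1 z.1.1.2 z.1.2 z.2 := by
    unfold Reach; infer_instance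
  DP.comp (fun z : ((M × M) × M) × M => Reach A z.1.1.1 z.1.1.2 z.1.2 z.2)
    fun x => (((r x, s x), t x), u x)

theorem reach_aux {A X m Q : M} (hA : Sym A) (h : ∀ u j : M, op u j ∈ Q → u ∈ X ∧ j ∈ om M ∧
    (u = m ∨ ∃ u' j' : M, op u' j' ∈ Q ∧ op u u' ∈ A ∧ j' ∈ j)) (u j : M) (hu : op u j ∈ Q) :
    Conn A X m u := by
  refine mem_induction (om M) (fun j => ∀ u : M, op u j ∈ Q → Conn A X m u) (fun j _ ih u hu => ?_)
    j (h u j hu).2.1 u hu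
  obtain ⟨h1, -, rfl | ⟨u', j', h2, h3, h4⟩⟩ := h u j hu
  · exact Conn.refl h1
  · exact (ih j' h4 (h _ _ h2).2.1 u' h2).step h1 (hA _ _ h3)

theorem Reach.conn {A X m v k : M} (hA : Sym A) (h : Reach A X m v k) : Conn A X m v :=
  let ⟨_, h1, h2⟩ := h; reach_aux hA h2 _ _ h1

theorem Reach.mem {A X m v k : M} (h : Reach A X m v k) : k ∈ om M :=
  let ⟨_, h1, h2⟩ := h; (h2 _ _ h1).2.1

theorem Reach.restrict {A X X' m v k : M} (hA : Sym A) (h : Reach A X m v k)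
    (hX : ∀ u, Conn A X m u → u ∈ X') : Reach A X' m v k :=
  let ⟨Q, h1, h2⟩ := h
  ⟨Q, h1, fun u j hu => ⟨hX u (reach_aux hA h2 u j hu), (h2 u j hu).2⟩⟩

theorem Conn.reach {A X m v : M} (hA : Sym A) (h : Conn A X m v) : ∃ k, Reach A X m v k := by
  refine h.ind (fun v => ∃ k, Reach A X m v k) ⟨∅, {op m ∅}, by simp, fun u j hu => ?_⟩ ?_
  · obtain ⟨rfl, rfl⟩ := op_inj.1 (mem_single.1 hu)
    exact ⟨h.1, empty_mem_om, Or.inl rfl⟩
  · rintro u v - hv e ⟨k, Q, h1, h2⟩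
    refine ⟨suc k, Q ∪ {op v (suc k)}, by simp, fun u' j hu => ?_⟩
    rcases mem_union.1 hu with hu | hu
    · obtain ⟨h3, h4, h5⟩ := h2 _ _ hu
      exact ⟨h3, h4, h5.imp id fun ⟨a, b, h6, h7⟩ => ⟨a, b, by simp [h6], h7⟩⟩
    · obtain ⟨rfl, rfl⟩ := op_inj.1 (mem_single.1 hu)
      exact ⟨hv, suc_mem_om (h2 _ _ h1).2.1, Or.inr ⟨u, k, by simp [h1], hA _ _ e, self_mem_suc k⟩⟩

theorem exists_max {B n : M} (F : M → M) [DF M F] (hn : n ∈ om M) (h : ∀ x, x ∈ B → F x ∈ n)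
    (hB : ∃ x, x ∈ B) : ∃ t, t ∈ B ∧ ∀ u, u ∈ B → F t ∉ F u := by
  have : DF M fun z : M × M => F z.2 := DF.comp F _
  obtain ⟨n, h1, h2, h3⟩ := exists_min (om M) (fun n => ∀ x, x ∈ B → F x ∈ n) ⟨n, hn, h⟩
  rcases nat_cases h1 with rfl | ⟨k, hk, rfl⟩
  · obtain ⟨x, hx⟩ := hB
    exact absurd (h2 x hx) (not_mem_empty _)
  have h4 := h3 k (self_mem_suc k) hk
  push Not at h4
  obtain ⟨t, ht, h4⟩ := h4
  have h5 : F t = k := (mem_suc.1 (h2 t ht)).resolve_left h4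
  refine ⟨t, ht, fun u hu h6 => ?_⟩
  rcases mem_suc.1 (h2 u hu) with h7 | h7
  · exact mem_asymm' h7 (h5 ▸ h6)
  · exact mem_irrefl k (by rwa [h5, h7] at h6)

noncomputable abbrev dn (F y : M) : M := p1 (app F y)

noncomputable abbrev mu (F y : M) : M := p1 (p2 (app F y))

noncomputable abbrev ds (F y : M) : M := p1 (p2 (p2 (app F y)))

noncomputable abbrev dp (F y : M) : M := p2 (p2 (p2 (app F y)))

noncomputable abbrev TB (V : M) : M := prd V (prd (pw V) (prd (om M) (prd (om M) (om M))))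

structure TrInv (V A h F : M) : Prop where
  f0 : ∀ y t t' : M, op y t ∈ F → op y t' ∈ F → t' = t
  f1 : ∀ y, y ∈ dm V F → dn F y ⊆ dm V F
  f2 : ∀ y x, y ∈ dm V F → x ∈ dn F y → dn F x ⊆ dn F y
  f3 : ∀ y, y ∈ dm V F → (∃ x, x ∈ dn F y) →
    ∃ t, t ∈ dn F y ∧ op t y ∈ A ∧ ∀ x, x ∈ dn F y → x = t ∨ x ∈ dn F t
  f4 : ∀ y y', y ∈ dm V F → y' ∈ dm V F → (∀ x, x ∉ dn F y) → (∀ x, x ∉ dn F y') → y = y'
  f5 : ∀ y x, y ∈ dm V F → x ∈ dn F y →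
    dp F x ∈ dp F y ∧ (mu F x ∈ mu F y ∨ (mu F x = mu F y ∧ ds F y ∈ ds F x))
  f6 : ∀ x y, x ∈ dm V F → y ∈ dm V F → op x y ∈ A → x ∈ dn F y ∨ y ∈ dn F x
  f7 : ∀ a x y, x ∈ bd A V (dm V F) a → y ∈ bd A V (dm V F) a → x ∈ dn F y ∨ x = y ∨ y ∈ dn F x
  f8 : ∀ a t, t ∈ bd A V (dm V F) a → app h a ∉ mu F t
  f9 : ∀ a t, t ∈ bd A V (dm V F) a → (∀ u, u ∈ bd A V (dm V F) a → u = t ∨ u ∈ dn F t) →
    app h a = mu F t → ∃ v k : M, k ∈ ds F t ∧ op t v ∈ A ∧ Reach A (V \ dm V F) a v k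

variable {V A h : M}

instance : DP M fun F => TrInv V A h F := by
  have : DP M fun F => (∀ y t t' : M, op y t ∈ F → op y t' ∈ F → t' = t) ∧
    (∀ y, y ∈ dm V F → dn F y ⊆ dm V F) ∧
    (∀ y x, y ∈ dm V F → x ∈ dn F y → dn F x ⊆ dn F y) ∧
    (∀ y, y ∈ dm V F → (∃ x, x ∈ dn F y) →
      ∃ t, t ∈ dn F y ∧ op t y ∈ A ∧ ∀ x, x ∈ dn F y → x = t ∨ x ∈ dn F t) ∧
    (∀ y y', y ∈ dm V F → y' ∈ dm V F → (∀ x, x ∉ dn F y) → (∀ x, x ∉ dn F y') → y = y') ∧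
    (∀ y x, y ∈ dm V F → x ∈ dn F y →
      dp F x ∈ dp F y ∧ (mu F x ∈ mu F y ∨ (mu F x = mu F y ∧ ds F y ∈ ds F x))) ∧
    (∀ x y, x ∈ dm V F → y ∈ dm V F → op x y ∈ A → x ∈ dn F y ∨ y ∈ dn F x) ∧
    (∀ a x y, x ∈ bd A V (dm V F) a → y ∈ bd A V (dm V F) a →
      x ∈ dn F y ∨ x = y ∨ y ∈ dn F x) ∧
    (∀ a t, t ∈ bd A V (dm V F) a → app h a ∉ mu F t) ∧
    (∀ a t, t ∈ bd A V (dm V F) a → (∀ u, u ∈ bd A V (dm V F) a → u = t ∨ u ∈ dn F t) →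
      app h a = mu F t → ∃ v k : M, k ∈ ds F t ∧ op t v ∈ A ∧ Reach A (V \ dm V F) a v k) :=
    inferInstance
  exact this.congr fun F => ⟨fun h => ⟨h.f0, h.f1, h.f2, h.f3, h.f4, h.f5, h.f6, h.f7, h.f8, h.f9⟩,
    fun ⟨h0, h1, h2, h3, h4, h5, h6, h7, h8, h9⟩ => ⟨h0, h1, h2, h3, h4, h5, h6, h7, h8, h9⟩⟩

theorem agree {F F' y : M} (hF : F ⊆ F') (h0 : ∀ y t t' : M, op y t ∈ F' → op y t' ∈ F' → t' = t)
    (hy : y ∈ dm V F) : app F' y = app F y := by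
  obtain ⟨-, t, ht⟩ := mem_dm.1 hy
  rw [app_eq (hF _ ht) fun b hb => h0 _ _ _ (hF _ ht) hb,
    app_eq ht fun b hb => h0 _ _ _ (hF _ ht) (hF _ hb)]

/-- Passing the last invariant to an extension that leaves the component unchanged. -/
theorem f9_ext (hG : Gr V A) {F F' : M} (hI : TrInv V A h F) (hF : F ⊆ F')
    (h0 : ∀ y t t' : M, op y t ∈ F' → op y t' ∈ F' → t' = t) {a t : M} (ht : t ∈ dm V F)
    (h1 : t ∈ bd A V (dm V F') a) (h2 : ∀ u, u ∈ bd A V (dm V F') a → u = t ∨ u ∈ dn F' t)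
    (h3 : app h a = mu F' t) :
    ∃ v k : M, k ∈ ds F' t ∧ op t v ∈ A ∧ Reach A (V \ dm V F') a v k := by
  have e := agree hF h0 ht
  simp only [dn, mu, ds, e] at h2 h3 ⊢
  have key : ∀ u, Conn A (V \ dm V F) a u → Conn A (V \ dm V F') a u := fun u hu => by
    obtain ⟨-, w, hw, -⟩ := mem_bd.1 h1
    refine hu.ind (fun u => Conn A (V \ dm V F') a u) (Conn.refl hw.left_mem)
      fun u v _ hv e' ih => ih.step (mem_diff.2 ⟨(mem_diff.1 hv).1, fun h4 => ?_⟩) e'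
    rcases h2 v (mem_bd.2 ⟨h4, u, ih, hG.sym _ _ e'⟩) with rfl | h5
    · exact (mem_diff.1 hv).2 ht
    · exact (mem_diff.1 hv).2 (hI.f1 t ht v h5)
  obtain ⟨v, k, h4, h5, h6⟩ := hI.f9 a t (bd_mono (dm_mono hF) h1 ht) (fun u hu => h2 u
    (let ⟨h4, v, h5, e'⟩ := mem_bd.1 hu; mem_bd.2 ⟨dm_mono hF u h4, v, key v h5, e'⟩)) h3
  exact ⟨v, k, h4, h5, h6.restrict hG.sym fun u hu => (key u hu).right_mem⟩

theorem tr_union (hG : Gr V A) (C : M) (hC : ∀ a, a ∈ C → a ⊆ TB V ∧ TrInv V A h a)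
    (hc : ∀ a b, a ∈ C → b ∈ C → a ⊆ b ∨ b ⊆ a) : TrInv V A h (sU C) := by
  have hsub : ∀ F, F ∈ C → F ⊆ sU C := fun F hh z hz => mem_sU.2 ⟨F, hh, hz⟩
  have two : ∀ p q, p ∈ sU C → q ∈ sU C → ∃ F, F ∈ C ∧ p ∈ F ∧ q ∈ F := by
    intro p q hp hq
    obtain ⟨y, hy, h1⟩ := mem_sU.1 hp
    obtain ⟨y', hy', h2⟩ := mem_sU.1 hq
    rcases hc y y' hy hy' with h | h
    · exact ⟨y', hy', h _ h1, h2⟩
    · exact ⟨y, hy, h1, h _ h2⟩
  have h0 : ∀ y t t' : M, op y t ∈ sU C → op y t' ∈ sU C → t' = t := fun y t t' h1 h2 => by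
    obtain ⟨F, hF, h3, h4⟩ := two _ _ h1 h2
    exact (hC F hF).2.f0 _ _ _ h3 h4
  have two' : ∀ x y, x ∈ dm V (sU C) → y ∈ dm V (sU C) → ∃ F, F ⊆ sU C ∧ TrInv V A h F ∧
      x ∈ dm V F ∧ y ∈ dm V F ∧ ∀ z, z ∈ dm V F → app (sU C) z = app F z := by
    intro x y hx hy
    obtain ⟨h1, t, h2⟩ := mem_dm.1 hx
    obtain ⟨h3, t', h4⟩ := mem_dm.1 hy
    obtain ⟨F, hF, h5, h6⟩ := two _ _ h2 h4
    exact ⟨F, hsub F hF, (hC F hF).2, mem_dm.2 ⟨h1, t, h5⟩, mem_dm.2 ⟨h3, t', h6⟩,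
      fun z hz => agree (hsub F hF) h0 hz⟩
  refine ⟨h0, fun y hy => ?_, fun y x hy hx => ?_, fun y hy hx => ?_,
    fun y y' hy hy' h1 h2 => ?_, fun y x hy hx => ?_, fun x y hx hy e' => ?_,
    fun a x y hx hy => ?_, fun a t ht => ?_, fun a t ht h1 h2 => ?_⟩
  · obtain ⟨F, h1, h2, h3, -, e⟩ := two' y y hy hy
    simp only [dn, e y h3]
    exact sub_trans (h2.f1 y h3) (dm_mono h1)
  · obtain ⟨F, h1, h2, h3, -, e⟩ := two' y y hy hy
    simp only [dn, e y h3] at hx ⊢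
    rw [e x (h2.f1 y h3 x hx)]
    exact h2.f2 y x h3 hx
  · obtain ⟨F, h1, h2, h3, -, e⟩ := two' y y hy hy
    simp only [dn, e y h3] at hx ⊢
    obtain ⟨t, h4, h5, h6⟩ := h2.f3 y h3 hx
    exact ⟨t, h4, h5, by rwa [e t (h2.f1 y h3 t h4)]⟩
  · obtain ⟨F, h3, h4, h5, h6, e⟩ := two' y y' hy hy'
    simp only [dn, e y h5, e y' h6] at h1 h2
    exact h4.f4 y y' h5 h6 h1 h2
  · obtain ⟨F, h1, h2, h3, -, e⟩ := two' y y hy hy
    simp only [dn, dp, mu, ds, e y h3] at hx ⊢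
    rw [e x (h2.f1 y h3 x hx)]
    exact h2.f5 y x h3 hx
  · obtain ⟨F, h3, h4, h5, h6, e⟩ := two' x y hx hy
    simp only [dn, e x h5, e y h6]
    exact h4.f6 x y h5 h6 e'
  · obtain ⟨F, h3, h4, h5, h6, e⟩ := two' x y (mem_bd.1 hx).1 (mem_bd.1 hy).1
    simp only [dn, e x h5, e y h6]
    exact h4.f7 a x y (bd_mono (dm_mono h3) hx h5) (bd_mono (dm_mono h3) hy h6)
  · obtain ⟨F, h3, h4, h5, -, e⟩ := two' t t (mem_bd.1 ht).1 (mem_bd.1 ht).1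
    simp only [mu, e t h5]
    exact h4.f8 a t (bd_mono (dm_mono h3) ht h5)
  · obtain ⟨F, h3, h4, h5, -, e⟩ := two' t t (mem_bd.1 ht).1 (mem_bd.1 ht).1
    exact f9_ext hG h4 h3 h0 h5 ht h1 h2

theorem bd_congr (hG : Gr V A) {X a b u : M} (hab : Conn A (V \ X) a b) :
    u ∈ bd A V X a ↔ u ∈ bd A V X b := by
  simp only [mem_bd]
  exact and_congr_right fun _ => exists_congr fun v => and_congr_left fun _ =>
    ⟨(hab.symm hG.sym).trans, hab.trans⟩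

def Rank (V A h : M) : Prop :=
  (∀ v, v ∈ V → app h v ∈ om M) ∧ ∀ D u v, D ⊆ V → Conn A D u v →
    app h u = app h v → (∀ x, Conn A D u x → app h x ∉ app h u) → u = v

theorem tr_add (hG : Gr V A) (hR : Rank V A h) {F m v s d p : M} (hF : F ⊆ TB V)
    (hI : TrInv V A h F) (hv : Conn A (V \ dm V F) m v)
    (hm : ∀ x, Conn A (V \ dm V F) m x → app h x ∉ app h m) (hd : d ∈ om M) (hp : p ∈ om M)
    (a1 : s ⊆ dm V F) (a2 : ∀ x, x ∈ s → dn F x ⊆ s)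
    (a3 : (∃ x, x ∈ s) → ∃ t, t ∈ s ∧ op t v ∈ A ∧ ∀ x, x ∈ s → x = t ∨ x ∈ dn F t)
    (a4 : (∀ x, x ∉ s) → ∀ y, y ∉ dm V F)
    (a5 : ∀ x, x ∈ s → dp F x ∈ p ∧ (mu F x ∈ app h m ∨ (mu F x = app h m ∧ d ∈ ds F x)))
    (a6 : bd A V (dm V F) m ⊆ s)
    (a7 : v = m ∨ ∃ u k, k ∈ d ∧ op v u ∈ A ∧ Reach A (V \ (dm V F ∪ {v})) m u k) :
    ∃ F', F' ⊆ TB V ∧ TrInv V A h F' ∧ F ⊆ F' ∧ v ∈ dm V F' := by
  obtain ⟨hvV, hvX⟩ := mem_diff.1 hv.right_mem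
  obtain ⟨F', hF'⟩ : ∃ F', F' = F ∪ {op v (op s (op (app h m) (op d p)))} := ⟨_, rfl⟩
  have hs : F ⊆ F' := fun z hz => by simp [hF', hz]
  have h0 : ∀ y t t' : M, op y t ∈ F' → op y t' ∈ F' → t' = t := by
    intro y t t' h1 h2
    simp only [hF', mem_union, mem_single, op_inj] at h1 h2
    rcases h1 with h1 | ⟨rfl, rfl⟩ <;> rcases h2 with h2 | ⟨h2, rfl⟩
    · exact hI.f0 _ _ _ h1 h2
    · exact absurd (mem_dm.2 ⟨hvV, t, h2 ▸ h1⟩) hvX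
    · exact absurd (mem_dm.2 ⟨hvV, t', h2⟩) hvX
    · rfl
  have hX : dm V F' = dm V F ∪ {v} := zext fun x => by
    simp only [mem_dm, hF', mem_union, mem_single, op_inj]
    constructor
    · rintro ⟨h1, t, h2 | ⟨h2, -⟩⟩
      · exact Or.inl ⟨h1, t, h2⟩
      · exact Or.inr h2
    · rintro (⟨h1, t, h2⟩ | rfl)
      · exact ⟨h1, t, Or.inl h2⟩
      · exact ⟨hvV, _, Or.inr ⟨rfl, rfl⟩⟩
  have hX' : ∀ x, x ∈ dm V F' → x ∈ dm V F ∨ x = v := fun x hx => by simpa [hX] using hx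
  have e : ∀ y, y ∈ dm V F → app F' y = app F y := fun y hy => agree hs h0 hy
  have ev : app F' v = op s (op (app h m) (op d p)) :=
    app_eq (by simp [hF']) fun b hb => h0 _ _ _ (by simp [hF']) hb
  have hb : ∀ b, v ∈ bd A V (dm V F') b → Conn A (V \ dm V F) m b := fun b hb => by
    obtain ⟨-, w, h1, h2⟩ := mem_bd.1 hb
    have h3 := h1.mono (diff_anti (dm_mono hs))
    exact (hv.step h3.right_mem h2).trans (h3.symm hG.sym)
  refine ⟨F', fun z hz => ?_, ⟨h0, fun y hy => ?_, fun y x hy hx => ?_, fun y hy hx => ?_,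
    fun y y' hy hy' h1 h2 => ?_, fun y x hy hx => ?_, fun x y hx hy e' => ?_,
    fun a x y hx hy => ?_, fun a t ht => ?_, fun a t ht h1 h2 => ?_⟩, hs, by simp [hX]⟩
  · rcases mem_union.1 (hF' ▸ hz) with h1 | h1
    · exact hF z h1
    · rw [mem_single.1 h1]
      simp only [op_mem_prd, mem_pw]
      exact ⟨hvV, fun x hx => (mem_dm.1 (a1 x hx)).1, hR.1 m (mem_diff.1 hv.left_mem).1, hd, hp⟩
  · rcases hX' y hy with h1 | rfl
    · simp only [dn, e y h1]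
      exact sub_trans (hI.f1 y h1) (dm_mono hs)
    · simp only [dn, ev, p1_op]
      exact sub_trans a1 (dm_mono hs)
  · rcases hX' y hy with h1 | rfl
    · simp only [dn, e y h1] at hx ⊢
      rw [e x (hI.f1 y h1 x hx)]
      exact hI.f2 y x h1 hx
    · simp only [dn, ev, p1_op] at hx ⊢
      rw [e x (a1 x hx)]
      exact a2 x hx
  · rcases hX' y hy with h1 | rfl
    · simp only [dn, e y h1] at hx ⊢
      obtain ⟨t, h4, h5, h6⟩ := hI.f3 y h1 hx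
      exact ⟨t, h4, h5, by rwa [e t (hI.f1 y h1 t h4)]⟩
    · simp only [dn, ev, p1_op] at hx ⊢
      obtain ⟨t, h4, h5, h6⟩ := a3 hx
      exact ⟨t, h4, h5, by rwa [e t (a1 t h4)]⟩
  · rcases hX' y hy with h3 | rfl <;> rcases hX' y' hy' with h4 | rfl
    · simp only [dn, e y h3, e y' h4] at h1 h2
      exact hI.f4 y y' h3 h4 h1 h2
    · simp only [dn, ev, p1_op] at h2
      exact absurd h3 (a4 h2 y)
    · simp only [dn, ev, p1_op] at h1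
      exact absurd h4 (a4 h1 y')
    · rfl
  · rcases hX' y hy with h1 | rfl
    · simp only [dn, dp, mu, ds, e y h1] at hx ⊢
      rw [e x (hI.f1 y h1 x hx)]
      exact hI.f5 y x h1 hx
    · simp only [dn, dp, mu, ds, ev, p1_op, p2_op] at hx ⊢
      rw [e x (a1 x hx)]
      exact a5 x hx
  · rcases hX' x hx with h3 | rfl <;> rcases hX' y hy with h4 | rfl
    · simp only [dn, e x h3, e y h4]
      exact hI.f6 x y h3 h4 e'
    · simp only [dn, ev, p1_op]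
      exact Or.inl (a6 x (mem_bd.2 ⟨h3, y, hv, e'⟩))
    · simp only [dn, ev, p1_op]
      exact Or.inr (a6 y (mem_bd.2 ⟨h4, x, hv, hG.sym _ _ e'⟩))
    · exact absurd e' (hG.irr _)
  · rcases hX' x (mem_bd.1 hx).1 with h3 | rfl <;> rcases hX' y (mem_bd.1 hy).1 with h4 | rfl
    · simp only [dn, e x h3, e y h4]
      exact hI.f7 a x y (bd_mono (dm_mono hs) hx h3) (bd_mono (dm_mono hs) hy h4)
    · simp only [dn, ev, p1_op]
      exact Or.inl (a6 x ((bd_congr hG (hb a hy)).2 (bd_mono (dm_mono hs) hx h3)))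
    · simp only [dn, ev, p1_op]
      exact Or.inr (Or.inr (a6 y ((bd_congr hG (hb a hx)).2 (bd_mono (dm_mono hs) hy h4))))
    · exact Or.inr (Or.inl rfl)
  · rcases hX' t (mem_bd.1 ht).1 with h3 | rfl
    · simp only [mu, e t h3]
      exact hI.f8 a t (bd_mono (dm_mono hs) ht h3)
    · simp only [mu, ev, p1_op, p2_op]
      exact hm a (hb a ht)
  · rcases hX' t (mem_bd.1 ht).1 with h3 | rfl
    · exact f9_ext hG hI hs h0 h3 ht h1 h2
    · simp only [mu, ds, ev, p1_op, p2_op] at h2 ⊢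
      obtain rfl : m = a := hR.2 _ m a (fun z hz => (mem_diff.1 hz).1) (hb a ht) h2.symm hm
      rcases a7 with rfl | ⟨u, k, h3, h4, h5⟩
      · obtain ⟨h3, w, h4, -⟩ := mem_bd.1 ht
        exact absurd h3 (mem_diff.1 h4.left_mem).2
      · exact ⟨u, k, h3, h4, hX ▸ h5⟩

theorem tb_mem {F y : M} (hF : F ⊆ TB V) (hI : TrInv V A h F) (hy : y ∈ dm V F) :
    mu F y ∈ om M ∧ ds F y ∈ om M ∧ dp F y ∈ om M := by
  obtain ⟨-, t, ht⟩ := mem_dm.1 hy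
  have e := app_eq ht fun b hb => hI.f0 _ _ _ ht hb
  obtain ⟨s, t1, -, h1, rfl⟩ := mem_prd.1 (op_mem_prd.1 (hF _ ht)).2
  obtain ⟨a, t2, h2, h3, rfl⟩ := mem_prd.1 h1
  obtain ⟨b, c, h4, h5, rfl⟩ := mem_prd.1 h3
  simp only [mu, ds, dp, e, p1_op, p2_op]
  exact ⟨h2, h4, h5⟩

theorem tr_step (hG : Gr V A) (hR : Rank V A h) {F a : M} (hF : F ⊆ TB V)
    (hI : TrInv V A h F) (ha : a ∈ V \ dm V F) :
    ∃ F', F' ⊆ TB V ∧ TrInv V A h F' ∧ F ⊆ F' ∧ ∃ v, v ∈ dm V F' ∧ v ∉ dm V F := by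
  obtain ⟨_, hn, ⟨m, hm1, rfl⟩, hm2⟩ := exists_min (om M)
    (fun n => ∃ x, Conn A (V \ dm V F) a x ∧ app h x = n)
    ⟨_, hR.1 a (mem_diff.1 ha).1, a, Conn.refl ha, rfl⟩
  have hm : ∀ x, Conn A (V \ dm V F) m x → app h x ∉ app h m := fun x hx h1 =>
    hm2 _ h1 (hR.1 x (mem_diff.1 hx.right_mem).1) ⟨x, hm1.trans hx, rfl⟩
  have hmm := Conn.refl (A := A) hm1.right_mem
  rcases empty_or (bd A V (dm V F) m) with h1 | h1
  · refine (tr_add (s := ∅) hG hR hF hI hmm hm empty_mem_om empty_mem_om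
      (empty_sub _) (by simp) (by simp) (fun _ y hy => ?_) (by simp) (h1 ▸ sub_refl _)
      (Or.inl rfl)).imp fun F' h =>
        ⟨h.1, h.2.1, h.2.2.1, m, h.2.2.2, (mem_diff.1 hm1.right_mem).2⟩
    have := (hG.conn m y (mem_diff.1 hm1.right_mem).1 (mem_dm.1 hy).1).ind
      (fun u => Conn A (V \ dm V F) m u) hmm fun u v _ hv e ih => ih.step (mem_diff.2 ⟨hv,
        fun h2 => not_mem_empty v (h1 ▸ mem_bd.2 ⟨h2, u, ih, hG.sym _ _ e⟩)⟩) e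
    exact (mem_diff.1 this.right_mem).2 hy
  have hb := fun t (ht : t ∈ bd A V (dm V F) m) => tb_mem hF hI (mem_bd.1 ht).1
  obtain ⟨t0, ht0, h2⟩ := exists_max (fun t => mu F t) (suc_mem_om hn)
    (fun t ht => od_om.mem_suc_of_not (hb t ht).1 hn (hI.f8 m t ht)) h1
  obtain ⟨_, -, ⟨t, ht, h3, rfl⟩, h4⟩ := exists_min (om M)
    (fun n => ∃ t, t ∈ bd A V (dm V F) m ∧ mu F t = mu F t0 ∧ ds F t = n)
    ⟨_, (hb t0 ht0).2.1, t0, ht0, rfl, rfl⟩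
  have htX := (mem_bd.1 ht).1
  have htop : ∀ u, u ∈ bd A V (dm V F) m → u = t ∨ u ∈ dn F t := fun u hu => by
    rcases hI.f7 m u t hu ht with h5 | h5 | h5
    · exact Or.inr h5
    · exact Or.inl h5
    · rcases (hI.f5 u t (mem_bd.1 hu).1 h5).2 with h6 | h6
      · exact absurd (h3 ▸ h6) (h2 u hu)
      · exact absurd ⟨u, hu, h6.1.symm.trans h3, rfl⟩ (h4 _ h6.2 (hb u hu).2.1)
  obtain ⟨n, hn', ⟨v, h5, h6⟩, h7⟩ := exists_min (om M)
    (fun n => ∃ v, op t v ∈ A ∧ Reach A (V \ dm V F) m v n) (by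
      obtain ⟨-, w, h5, h6⟩ := mem_bd.1 ht
      obtain ⟨k, h7⟩ := h5.reach hG.sym
      exact ⟨k, h7.mem, w, h6, h7⟩)
  have hlt : mu F t ∈ app h m ∨ (mu F t = app h m ∧ n ∈ ds F t) := by
    rcases od_om.tri (hb t ht).1 hn with h8 | h8 | h8
    · exact Or.inl h8
    · obtain ⟨v', k, h9, h10, h11⟩ := hI.f9 m t ht htop h8.symm
      refine Or.inr ⟨h8, ?_⟩
      rcases od_om.tri hn' h11.mem with h12 | h12 | h12
      · exact (od_om.mem (hb t ht).2.1).trans h9 h12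
      · exact h12 ▸ h9
      · exact absurd ⟨v', h10, h11⟩ (h7 k h12 h11.mem)
    · exact absurd h8 (hI.f8 m t ht)
  refine (tr_add (s := dn F t ∪ {t}) (p := suc (dp F t)) hG hR hF hI
    (h6.conn hG.sym) hm hn' (suc_mem_om (hb t ht).2.2) (fun x hx => ?_) (fun x hx => ?_)
    (fun _ => ⟨t, by simp, h5, fun x hx => by simpa [or_comm] using hx⟩)
    (fun h => absurd (by simp) (h t)) (fun x hx => ?_)
    (fun u hu => by simpa [or_comm] using htop u hu) ?_).imp fun F' h =>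
      ⟨h.1, h.2.1, h.2.2.1, v, h.2.2.2, (mem_diff.1 (h6.conn hG.sym).right_mem).2⟩
  · rcases mem_union.1 hx with h | h
    · exact hI.f1 t htX x h
    · exact mem_single.1 h ▸ htX
  · rcases mem_union.1 hx with h | h
    · exact fun z hz => mem_union.2 (Or.inl (hI.f2 t x htX h z hz))
    · rw [mem_single.1 h]; exact fun z hz => mem_union.2 (Or.inl hz)
  · rcases mem_union.1 hx with h | h
    · obtain ⟨h8, h9⟩ := hI.f5 t x htX h
      refine ⟨mem_suc.2 (Or.inl h8), ?_⟩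
      rcases h9 with h9 | ⟨h9, h10⟩ <;> rcases hlt with h11 | ⟨h11, h12⟩
      · exact Or.inl ((od_om.mem hn).trans h11 h9)
      · exact Or.inl (h11 ▸ h9)
      · exact Or.inl (h9 ▸ h11)
      · exact Or.inr ⟨h9.trans h11,
          (od_om.mem (tb_mem hF hI (hI.f1 t htX x h)).2.1).trans h10 h12⟩
    · rw [mem_single.1 h]; exact ⟨self_mem_suc _, hlt⟩
  · obtain ⟨Q, h8, h9⟩ := h6
    obtain ⟨-, -, h10 | ⟨u, k, h10, h11, h12⟩⟩ := h9 _ _ h8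
    · exact Or.inl h10
    refine Or.inr ⟨u, k, h12, h11, sep Q fun q => p2 q ∈ n, by simp [h10, h12], fun w j hw => ?_⟩
    simp only [mem_sep, p2_op] at hw ⊢
    obtain ⟨h13, h14, h15⟩ := h9 _ _ hw.1
    refine ⟨?_, h14, h15.imp id fun ⟨u', j', h16, h17, h18⟩ =>
      ⟨u', j', ⟨h16, (od_om.mem hn').trans hw.2 h18⟩, h17, h18⟩⟩
    simp only [mem_diff, mem_union, mem_single, not_or] at h13 ⊢
    exact ⟨h13.1, h13.2, fun e => h7 j hw.2 h14 ⟨v, h5, Q, e ▸ hw.1, h9⟩⟩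

theorem hasNST_of_rank (hG : Gr V A) (hR : Rank V A h) : HasNST (EE M) (om M) V A := by
  obtain ⟨F, hF, hI, hmax⟩ := zorn' (TB V) (fun F => TrInv V A h F) (tr_union hG)
  have hX : ∀ v, v ∈ V → v ∈ dm V F := fun a ha => by
    by_contra hc
    obtain ⟨F', h1, h2, h3, v, h4, h5⟩ := tr_step hG hR hF hI (mem_diff.2 ⟨ha, hc⟩)
    exact h5 (dm_mono (hmax F' h1 h2 h3) v h4)
  have hV : ∀ y x, y ∈ V → x ∈ dn F y → x ∈ V := fun y x hy hx =>
    (mem_dm.1 (hI.f1 y (hX y hy) x hx)).1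
  have hasym : ∀ x y, y ∈ V → x ∈ dn F y → y ∉ dn F x := fun x y hy h1 h2 =>
    mem_asymm' (hI.f5 y x (hX y hy) h1).1 (hI.f5 x y (hX x (hV y x hy h1)) h2).1
  obtain ⟨P, -, hP⟩ := exists_rel V V fun t y =>
    t ∈ dn F y ∧ op t y ∈ A ∧ ∀ x, x ∈ dn F y → x = t ∨ x ∈ dn F t
  obtain ⟨T, hT1, hT⟩ := exists_rel V V fun a b => op a b ∈ P ∨ op b a ∈ P
  have hsym : Sym T := fun a b e =>
    let ⟨h1, h2, h3⟩ := (hT _ _).1 e; (hT _ _).2 ⟨h2, h1, h3.symm⟩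
  obtain ⟨_, -, ⟨r, hr, rfl⟩, hr2⟩ := exists_min (om M) (fun n => ∃ y, y ∈ V ∧ dp F y = n)
    (let ⟨a, ha⟩ := hG.ne; ⟨_, (tb_mem hF hI (hX a ha)).2.2, a, ha, rfl⟩)
  have hr3 : ∀ x, x ∉ dn F r := fun x hx => hr2 _ (hI.f5 r x (hX r hr) hx).1
    (tb_mem hF hI (hX x (hV r x hr hx))).2.2 ⟨x, hV r x hr hx, rfl⟩
  have hconn : ∀ y, y ∈ V → Conn T V r y := by
    have : ∀ n, n ∈ om M → ∀ y, y ∈ V → dp F y = n → Conn T V r y := by
      refine mem_induction _ _ fun n _ ih y hy e => ?_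
      by_cases hc : ∃ x, x ∈ dn F y
      · obtain ⟨t, h1, h2, h3⟩ := hI.f3 y (hX y hy) hc
        have h4 := hV y t hy h1
        exact (ih _ (e ▸ (hI.f5 y t (hX y hy) h1).1) (tb_mem hF hI (hX t h4)).2.2 t h4 rfl).step hy
          ((hT _ _).2 ⟨h4, hy, Or.inl ((hP _ _).2 ⟨h4, hy, h1, h2, h3⟩)⟩)
      · rw [hI.f4 y r (hX y hy) (hX r hr) (fun x hx => hc ⟨x, hx⟩) hr3]
        exact Conn.refl hr
    exact fun y hy => this _ (tb_mem hF hI (hX y hy)).2.2 y hy rfl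
  have hup : ∀ x u v, op u v ∈ T → x ∈ dn F u → v = x ∨ x ∈ dn F v := fun x u v e h1 => by
    obtain ⟨h2, h3, h4 | h4⟩ := (hT _ _).1 e
    · exact Or.inr (hI.f2 v u (hX v h3) ((hP _ _).1 h4).2.2.1 x h1)
    · exact (((hP _ _).1 h4).2.2.2.2 x h1).imp Eq.symm id
  have hup' : ∀ x u v, Conn T (V \ {x}) u v → x ∈ dn F u → x ∈ dn F v := fun x u v hc h1 =>
    hc.ind (fun z => x ∈ dn F z) h1 fun z z' _ hz e ih =>
      (hup x z z' e ih).resolve_left fun e' => (mem_diff.1 hz).2 (mem_single.2 e')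
  have hinner : ∀ a b c, op b a ∈ P → Conn T (V \ {b}) a c → Conn T (V \ {a}) c b → False := by
    intro a b c e h1 h2
    obtain ⟨hb, ha, h3, -, h4⟩ := (hP _ _).1 e
    have h5 : c = a ∨ a ∈ dn F c := by
      refine h1.ind (fun z => z = a ∨ a ∈ dn F z) (Or.inl rfl) ?_
      rintro z z' - hz e' (rfl | ih)
      · obtain ⟨-, h6, h7 | h7⟩ := (hT _ _).1 e'
        · exact Or.inr ((hP _ _).1 h7).2.2.1
        · obtain ⟨-, -, h8, -, h9⟩ := (hP _ _).1 h7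
          refine absurd (mem_single.2 ?_) (mem_diff.1 hz).2
          rcases h4 z' h8 with h10 | h10
          · exact h10
          · rcases h9 b h3 with h11 | h11
            · exact h11.symm
            · exact absurd h11 (hasym _ _ hb h10)
      · exact hup a z z' e' ih
    rcases h5 with rfl | h5
    · exact (mem_diff.1 h2.left_mem).2 (by simp)
    · exact hasym _ _ ha h3 (hup' a c b h2 h5)
  have hle : ∀ a b, b ∈ V → a ∈ dn F b → TreeLe (EE M) (om M) T V r a b := fun a b hb h1 => by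
    obtain ⟨f, n, h2⟩ := (hconn b hb).pth
    obtain ⟨g, h3, h4⟩ := h2.isPath
    refine ⟨g, h3, ?_⟩
    by_contra hc
    refine hr3 a (hup' a b r (Conn.symm hsym (h2.conn fun i hi => ?_)) h1)
    exact mem_diff.2 ⟨h2.2.1 i hi, fun e => hc ⟨i, (h4 _ _).2 ⟨hi, (mem_single.1 e).symm⟩⟩⟩
  refine ⟨T, r, isGraph_of hT1 hsym fun a e => ?_, fun p hp => ?_, hr,
    connected_of hsym hr hconn, fun f a b hf e i x hx => ?_, fun a b e => ?_⟩
  · have h1 := ((hP _ _).1 (or_self_iff.1 ((hT _ _).1 e).2.2)).2.2.2.1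
    exact hG.irr a h1
  · obtain ⟨a, b, -, -, rfl⟩ := mem_prd.1 (hT1 p hp)
    rcases ((hT _ _).1 hp).2.2 with h1 | h1
    · exact ((hP _ _).1 h1).2.2.2.1
    · exact hG.sym _ _ ((hP _ _).1 h1).2.2.2.1
  · obtain ⟨n, h1, h2⟩ := pth_of_isPath hf
    obtain ⟨h3, rfl⟩ := h2 i x hx
    by_contra hc
    push Not at hc
    rcases ((hT _ _).1 (app_iff.1 e)).2.2 with h4 | h4
    · exact hinner a b _ h4 (h1.conn_left h3 hc.2) (h1.conn_right h3 hc.1)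
    · exact hinner b a _ h4 ((h1.conn_right h3 hc.1).symm hsym) ((h1.conn_left h3 hc.2).symm hsym)
  · obtain ⟨ha, hb⟩ := hG.mem _ _ (app_iff.1 e)
    exact (hI.f6 a b (hX a ha) (hX b hb) (app_iff.1 e)).imp (hle a b hb) (hle b a ha)

theorem hasNST_of_clSys {Z : M} (hG : Gr V A) (hZ : ClSys V (bad A V) Z) :
    HasNST (EE M) (om M) V A :=
  let ⟨_, h⟩ := exists_rank hG hZ; hasNST_of_rank hG h

end Pool.Agent.Lib.MP_783f50_lc
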